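import Pool.Agent.Q47.FJ.T6

/-!
# The Lefschetz theorem
-/

set_option autoImplicit false

namespace Q47.FJ

open Pool.Agent.W594.SYZ2 Pool.Agent.W594.SYZ2.TQ Pool.Agent.Y167 Pool.Agent.TH735.AQ
open Filter Topology

variable {V : Type*} [NormedAddCommGroup V] [NormedSpace ℂ V] {Λ : AddSubgroup V}
  {H : V → V → ℂ} {χ : Λ → ℂ}

/-- The linear form of a translation. -/
theorem quasi (hH : IsHermitian H) (hχ : Semi Λ H χ) {s : V → ℂ} (hs : IsTh Λ H χ s) (hn : NZ s)
    {u : V} {C : ℂ} (hC : C ≠ 0) {ℓ : V →L[ℂ] ℂ}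
    (h : ∀ x, s (x + u) = C * Complex.exp (ℓ x) * s x) (b : Λ) :
    Complex.exp (ℓ b) = Complex.exp (Real.pi * H u b) := by
  obtain ⟨x, hx⟩ := hn.ne
  have h1 := hs.eq b (x + u)
  have h2 := h (x + b)
  rw [add_right_comm x (b : V) u, h1, h x, hs.eq b x] at h2
  have h3 : lex H b (x + u) = lex H b x + Real.pi * H u b := by
    rw [lex, lex, hH.add_left]
    ring
  rw [h3, map_add, Complex.exp_add, Complex.exp_add] at h2
  have h4 : χ b ≠ 0 := fun h0 => by
    have := hχ.norm b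
    rw [h0, norm_zero] at this
    exact zero_ne_one this
  have h5 := Complex.exp_ne_zero (lex H b x)
  have h6 := Complex.exp_ne_zero (ℓ x)
  refine mul_left_cancel₀ (mul_ne_zero (mul_ne_zero (mul_ne_zero hC h6) (mul_ne_zero h4 h5)) hx) ?_
  linear_combination -h2

theorem im_int {x y : ℂ} (hxy : y = starRingEnd ℂ x)
    (h : Complex.exp (Real.pi * x) = Complex.exp (Real.pi * y)) : ∃ n : ℤ, x.im = n := by
  rw [Complex.exp_eq_exp_iff_exists_int] at h
  obtain ⟨n, hn⟩ := h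
  refine ⟨n, ?_⟩
  have h2 := congrArg Complex.im hn
  have h3 : ((n : ℂ) * (2 * Real.pi * Complex.I)) = ((n * (2 * Real.pi) : ℝ) : ℂ) * Complex.I := by
    push_cast
    ring
  rw [Complex.add_im, Complex.im_ofReal_mul, Complex.im_ofReal_mul, hxy, Complex.conj_im, h3,
    Complex.im_ofReal_mul, Complex.I_im, mul_one] at h2
  have h4 : Real.pi ≠ 0 := Real.pi_ne_zero
  refine mul_left_cancel₀ (mul_ne_zero two_ne_zero h4) ?_
  linarith

/-- The linear form is given by `H`. -/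
theorem lin_eq (hs : Submodule.span ℝ (Λ : Set V) = ⊤) (hH : IsHermitian H) {u : V}
    {ℓ : V →L[ℂ] ℂ} (h : ∀ b : Λ, Complex.exp (ℓ b) = Complex.exp (Real.pi * H u b)) (x : V) :
    ℓ x = Real.pi * H x u := by
  have h1 : ∀ x, (ℓ x).re = Real.pi * (H u x).re := by
    intro x
    have hx : x ∈ Submodule.span ℝ (Λ : Set V) := by rw [hs]; trivial
    induction hx using Submodule.span_induction with
    | mem b hb =>
      have h2 := congrArg norm (h ⟨b, hb⟩)
      rw [Complex.norm_exp, Complex.norm_exp, Real.exp_eq_exp, Complex.re_ofReal_mul] at h2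
      exact h2
    | zero => rw [map_zero, h_zero_right hH, Complex.zero_re, mul_zero]
    | add x y _ _ hx hy =>
      rw [map_add, h_add_right hH, Complex.add_re, Complex.add_re, hx, hy, mul_add]
    | smul a x _ hx =>
      rw [← Complex.coe_smul, map_smul, h_smul_right hH, Complex.conj_ofReal, smul_eq_mul,
        Complex.re_ofReal_mul, Complex.re_ofReal_mul, hx]
      ring
  apply Complex.ext
  · rw [h1, Complex.re_ofReal_mul, h_re_symm hH x u]
  · have h2 := h1 (Complex.I • x)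
    rw [map_smul, smul_eq_mul, h_smul_right hH, Complex.conj_I, hH.symm x u] at h2
    rw [Complex.im_ofReal_mul]
    simp at h2
    linarith

variable [FiniteDimensional ℂ V]

/-- The sections separate points, and tangent vectors, if they are products. -/
theorem va_three (hd : DiscreteTopology Λ) (hs : Submodule.span ℝ (Λ : Set V) = ⊤)
    {M₁ M₂ M₃ : LB (torus Λ)} {H₁ H₂ H₃ : V → V → ℂ} {χ₁ χ₂ χ₃ : Λ → ℂ} {F₁ F₂ F₃ : V → ℂ}
    (D₁ : PosData M₁ H₁ χ₁ F₁) (D₂ : PosData M₂ H₂ χ₂ F₂) (D₃ : PosData M₃ H₃ χ₃ F₃)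
    (hgg : GG (M₁ * M₂ * M₃)) : VA (M₁ * M₂ * M₃) := by
  obtain ⟨φ₁, hφ₁⟩ := exists_end D₃.herm D₃.pos D₁.herm
  obtain ⟨φ₂, hφ₂⟩ := exists_end D₃.herm D₃.pos D₂.herm
  have hb₂ : Function.Bijective φ₂ := ⟨end_inj D₃.herm D₂.pos hφ₂, end_surj D₃.herm D₂.pos hφ₂⟩
  -- the products
  have hprod : ∀ s₁ s₂ s₃ : V → ℂ, IsTh Λ H₁ χ₁ s₁ → IsTh Λ H₂ χ₂ s₂ → IsTh Λ H₃ χ₃ s₃ →
      ∀ a₁ a₂ : V, IsSec (M₁ * M₂ * M₃) fun _ z => s₁ (z + a₁) * Complex.exp (F₁ z) *
        (s₂ (z + a₂) * Complex.exp (F₂ z)) *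
          (s₃ (z + (-φ₁ a₁ - φ₂ a₂)) * Complex.exp (F₃ z)) := by
    intro s₁ s₂ s₃ h₁ h₂ h₃ a₁ a₂
    refine (((h₁.tw D₁.eq D₁.holo D₁.herm a₁).mul (h₂.tw D₂.eq D₂.holo D₂.herm a₂)).mul
      (h₃.tw D₃.eq D₃.holo D₃.herm (-φ₁ a₁ - φ₂ a₂))).sec fun b => ?_
    simp only [← Complex.exp_add]
    rw [h_sub_left D₃.herm, h_neg_left D₃.herm, hφ₁, hφ₂, Complex.exp_eq_one_iff]
    exact ⟨0, by push_cast; ring⟩
  obtain ⟨s₂, hs₂, n₂⟩ := exists_th hd hs D₂.herm D₂.pos D₂.semi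
  obtain ⟨s₃, hs₃, n₃⟩ := exists_th hd hs D₃.herm D₃.pos D₃.semi
  obtain ⟨s₁, hs₁, n₁⟩ := exists_th hd hs D₁.herm D₁.pos D₁.semi
  refine ⟨hgg, fun _ v₀ _ _ v₁ _ hv => ?_, fun _ v₀ _ w hw => ?_⟩
  · obtain ⟨μ, hμ, hprop⟩ := hgg.prop (Set.mem_univ v₀) (Set.mem_univ v₁) hv
    set μ' : ℂ := μ * Complex.exp (F₁ v₀ + F₂ v₀ + F₃ v₀ - (F₁ v₁ + F₂ v₁ + F₃ v₁)) with hμ'
    have hE : ∀ s : V → ℂ, IsTh Λ H₁ χ₁ s → ∀ a₁ a₂, s (v₁ + a₁) * s₂ (v₁ + a₂) *
        s₃ (v₁ - φ₁ a₁ - φ₂ a₂) = μ' * (s (v₀ + a₁) * s₂ (v₀ + a₂) * s₃ (v₀ - φ₁ a₁ - φ₂ a₂)) := by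
      intro s hsth a₁ a₂
      have h1 := hprop _ (hprod s s₂ s₃ hsth hs₂ hs₃ a₁ a₂)
      have h2 : ∀ v : V, v + (-φ₁ a₁ - φ₂ a₂) = v - φ₁ a₁ - φ₂ a₂ := fun v => by abel
      rw [h2, h2] at h1
      have h3 := Complex.exp_ne_zero (F₁ v₁ + F₂ v₁ + F₃ v₁)
      refine mul_right_cancel₀ h3 ?_
      have h4 : μ' * Complex.exp (F₁ v₁ + F₂ v₁ + F₃ v₁) =
          μ * (Complex.exp (F₁ v₀) * Complex.exp (F₂ v₀) * Complex.exp (F₃ v₀)) := by
        rw [hμ', mul_assoc, ← Complex.exp_add, ← Complex.exp_add, ← Complex.exp_add]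
        congr 2
        ring
      rw [mul_right_comm μ', h4, Complex.exp_add, Complex.exp_add]
      linear_combination h1
    set u : V := v₁ - v₀ with hu
    obtain ⟨C, ℓ, hC, hCℓ⟩ := sep_key n₁ n₂ n₃ hb₂ (hE s₁ hs₁)
    have hq := quasi D₁.herm D₁.semi hs₁ n₁ hC hCℓ
    have hℓ := lin_eq hs D₁.herm hq
    have hint : ∀ b ∈ Λ, ∃ n : ℤ, (H₁ b u).im = n := fun b hb => by
      have h1 := hq ⟨b, hb⟩
      rw [hℓ] at h1
      exact im_int (D₁.herm.symm b u) h1
    -- the cross relation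
    have hcross : ∀ s : V → ℂ, IsTh Λ H₁ χ₁ s → ∀ x, s (x + u) * s₁ x = s x * s₁ (x + u) := by
      intro s hsth x
      have hφ₂d : Differentiable ℂ fun x => φ₂ x :=
        (LinearMap.toContinuousLinearMap φ₂).differentiable
      have hR : ∀ v : V, NZ fun y => s₃ (v - φ₁ (x - v₀) - φ₂ y) := fun v =>
        n₃.comp (hφ₂d.const_sub _) fun y => by
          obtain ⟨a, ha⟩ := hb₂.2 (v - φ₁ (x - v₀) - y)
          exact ⟨a, by rw [ha]; abel⟩
      have hQ : NZ fun y => s₂ (v₁ + y) := n₂.comp (differentiable_id.const_add v₁) fun y =>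
        ⟨y - v₁, add_sub_cancel v₁ y⟩
      obtain ⟨a₂, ha₂⟩ := (hQ.mul (hR v₁)).ne
      have e1 := hE s hsth (x - v₀) a₂
      have e2 := hE s₁ hs₁ (x - v₀) a₂
      have e3 : v₁ + (x - v₀) = x + u := by rw [hu]; abel
      have e4 : v₀ + (x - v₀) = x := by abel
      rw [e3, e4] at e1 e2
      refine mul_right_cancel₀ ha₂ ?_
      linear_combination s₁ x * e1 - s x * e2
    have hmem : u ∈ Λ := by
      refine mem_of_trans hd hs D₁.herm D₁.pos D₁.semi hint (C := C) fun v => ?_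
      have h1 := hcross _ (kn_th hd D₁.herm D₁.pos D₁.semi v)
      have hk := kn_holo hd D₁.herm D₁.pos D₁.semi v
      have h2 := n₁.cancel (g := fun x => kn H₁ χ₁ v (x + u) -
        C * Complex.exp (ℓ x) * kn H₁ χ₁ v x)
        ((hk.comp (differentiable_id.add_const u)).sub
          (((ℓ.differentiable.cexp).const_mul C).mul hk)) fun x => by
          have h3 := h1 x
          rw [hCℓ x] at h3
          linear_combination h3
      have h4 := h2 v
      rw [hℓ] at h4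
      linear_combination h4
    refine ⟨⟨u, hmem⟩, rfl, rfl, Set.mem_univ _, ?_⟩
    change v₀ + u = v₁
    rw [hu]
    abel
  · obtain ⟨f₀, hf₀, hf₀0⟩ := hgg () v₀ (Set.mem_univ _)
    set κ : ℂ := fderiv ℂ (f₀ ()) v₀ w / f₀ () v₀ with hκ
    have hprop : ∀ f, IsSec (M₁ * M₂ * M₃) f → fderiv ℂ (f ()) v₀ w = κ * f () v₀ := by
      intro f hf
      have h1 := hw _ (hf.comb hf₀ (f₀ () v₀) (f () v₀)) (by ring)
      have d1 := hasDerivAt_along (hf.diff (i := ()) (Set.mem_univ v₀)) w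
      have d2 := hasDerivAt_along (hf₀.diff (i := ()) (Set.mem_univ v₀)) w
      have d3 := hasDerivAt_along ((hf.comb hf₀ (f₀ () v₀) (f () v₀)).diff (i := ())
        (Set.mem_univ v₀)) w
      have h2 := d3.unique ((d1.const_mul (f₀ () v₀)).fun_sub (d2.const_mul (f () v₀)))
      rw [h1] at h2
      rw [hκ]
      field_simp
      linear_combination -h2
    set κ' : ℂ := κ - fderiv ℂ F₁ v₀ w - fderiv ℂ F₂ v₀ w - fderiv ℂ F₃ v₀ w with hκ'
    have hsh : ∀ (s : V → ℂ), NZ s → NZ fun x => s (v₀ + x) := fun s hs =>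
      hs.comp (differentiable_id.const_add v₀) fun y => ⟨y - v₀, add_sub_cancel v₀ y⟩
    have hdsh : ∀ (s : V → ℂ), NZ s → Differentiable ℂ fun x => fderiv ℂ s (v₀ + x) w :=
      fun s hs => (Pool.Agent.Helper857.differentiable_fderiv_apply hs.holo w).comp
        (differentiable_id.const_add v₀)
    obtain ⟨ℓ, c, hℓ⟩ := tan_key (S₁ := fun x => s₁ (v₀ + x)) (S₂ := fun x => s₂ (v₀ + x))
      (S₃ := fun x => s₃ (v₀ + x)) (T₁ := fun x => fderiv ℂ s₁ (v₀ + x) w)
      (T₂ := fun x => fderiv ℂ s₂ (v₀ + x) w) (T₃ := fun x => fderiv ℂ s₃ (v₀ + x) w)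
      (hsh s₁ n₁) (hsh s₂ n₂) (hsh s₃ n₃) (hdsh s₁ n₁) (hdsh s₂ n₂) (φ₁ := φ₁) hb₂ (κ := κ')
      fun a₁ a₂ => by
        have hsec := hprod s₁ s₂ s₃ hs₁ hs₂ hs₃ a₁ a₂
        have h1 := hprop _ hsec
        have hd0 : ∀ (s : V → ℂ), NZ s → ∀ a : V, HasDerivAt (fun τ : ℂ => s (v₀ + τ • w + a))
            (fderiv ℂ s (v₀ + a) w) 0 := fun s hs a => by
          have h2 := hasDerivAt_along (hs.holo (v₀ + a)) w
          refine h2.congr_of_eventuallyEq (Eventually.of_forall fun τ => ?_)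
          beta_reduce
          rw [add_right_comm]
        have he0 : ∀ F : V → ℂ, Differentiable ℂ F → HasDerivAt (fun τ : ℂ =>
            Complex.exp (F (v₀ + τ • w))) (Complex.exp (F v₀) * fderiv ℂ F v₀ w) 0 :=
          fun F hF => by
            have h2 := (hasDerivAt_along (hF v₀) w).cexp
            simp only [zero_smul, add_zero] at h2
            exact h2
        have d1 := (hd0 s₁ n₁ a₁).fun_mul (he0 F₁ D₁.holo)
        have d2 := (hd0 s₂ n₂ a₂).fun_mul (he0 F₂ D₂.holo)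
        have d3 := (hd0 s₃ n₃ (-φ₁ a₁ - φ₂ a₂)).fun_mul (he0 F₃ D₃.holo)
        have d4 := (d1.fun_mul d2).fun_mul d3
        have d5 := hasDerivAt_along (hsec.diff (i := ()) (Set.mem_univ v₀)) w
        have h2 := d5.unique d4
        simp only [zero_smul, add_zero] at h2
        rw [h2] at h1
        have x1 := Complex.exp_ne_zero (F₁ v₀)
        have x2 := Complex.exp_ne_zero (F₂ v₀)
        have x3 := Complex.exp_ne_zero (F₃ v₀)
        refine mul_left_cancel₀ (mul_ne_zero (mul_ne_zero x1 x2) x3) ?_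
        rw [hκ']
        linear_combination h1
    have hb : ∀ b ∈ Λ, ℓ b = Real.pi * H₁ w b := by
      intro b hb
      obtain ⟨x, hx⟩ := (hsh s₁ n₁).ne
      have e1 := hs₁.eq ⟨b, hb⟩
      have d1 := hasDerivAt_along (hs₁.holo (v₀ + x + b)) w
      have d2 : HasDerivAt (fun τ : ℂ => lex H₁ b (v₀ + x + τ • w)) (Real.pi * H₁ w b) 0 := by
        have h2 : (fun τ : ℂ => lex H₁ b (v₀ + x + τ • w))
            = fun τ : ℂ => lex H₁ b (v₀ + x) + τ * (Real.pi * H₁ w b) := by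
          funext τ
          rw [lex, lex, D₁.herm.add_left, D₁.herm.smul_left]
          ring
        rw [h2]
        have h3 := ((hasDerivAt_id (0 : ℂ)).mul_const (Real.pi * H₁ w b)).const_add
          (lex H₁ b (v₀ + x))
        rwa [one_mul] at h3
      have d3 := ((d2.cexp.const_mul (χ₁ ⟨b, hb⟩)).fun_mul (hasDerivAt_along (hs₁.holo (v₀ + x)) w))
      have h2 := d1.unique (d3.congr_of_eventuallyEq (Eventually.of_forall fun τ => by
        have h3 := e1 (v₀ + x + τ • w)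
        rw [add_right_comm (v₀ + x) (τ • w)] at h3
        exact h3))
      simp only [zero_smul, add_zero] at h2
      have h3 := hℓ (x + b)
      have h4 := hℓ x
      simp only [← add_assoc] at h3 h4
      rw [h2, e1 (v₀ + x), h4, map_add] at h3
      have h5 : χ₁ ⟨b, hb⟩ ≠ 0 := fun h0 => by
        have := D₁.semi.norm ⟨b, hb⟩
        rw [h0, norm_zero] at this
        exact zero_ne_one this
      have h6 := Complex.exp_ne_zero (lex H₁ b (v₀ + x))
      refine mul_left_cancel₀ (mul_ne_zero (mul_ne_zero h5 h6) hx) ?_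
      linear_combination -h3
    have hall : ∀ x, ℓ x = Real.pi * H₁ w x := by
      intro x
      have hx : x ∈ Submodule.span ℝ (Λ : Set V) := by rw [hs]; trivial
      induction hx using Submodule.span_induction with
      | mem b h => exact hb b h
      | zero => rw [map_zero, h_zero_right D₁.herm, mul_zero]
      | add x y _ _ hx hy => rw [map_add, h_add_right D₁.herm, hx, hy, mul_add]
      | smul a x _ hx =>
        rw [← Complex.coe_smul, map_smul, h_smul_right D₁.herm, Complex.conj_ofReal, hx,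
          smul_eq_mul]
        ring
    by_contra hne
    have h1 := hall (Complex.I • w)
    have h2 := hall w
    rw [map_smul, smul_eq_mul, h_smul_right D₁.herm, Complex.conj_I, h2] at h1
    have h3 : (2 * Complex.I * Real.pi) * H₁ w w = 0 := by linear_combination h1
    have h4 : (2 * Complex.I * Real.pi : ℂ) ≠ 0 := by simp [Real.pi_ne_zero]
    have h5 := (mul_eq_zero.1 h3).resolve_left h4
    have h6 := D₁.pos w hne
    rw [h5, Complex.zero_re] at h6
    exact lt_irrefl _ h6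

end Q47.FJ
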