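import Pool.Agent.Q47.FJ.Comb

/-!
# Adjoint line bundles on toric bundles: the reduction to the base
-/

set_option autoImplicit false

namespace Q47.FJ

open MvPolynomial Q47.TB

variable {E : Type*} [NormedAddCommGroup E] [NormedSpace ℂ E] {I K : Type*} {X : Atlas E I K}
  {ι : Type*} [Fintype ι] {n : ℕ} {u : ι → Fin n → ℤ} {S : Set (Set ι)} {c : ι → LB X}

omit [Fintype ι] in
theorem IsSecY.comb [Fintype ι] {M : LB X} {d : ι → ℤ} {F G : I → E → MvPolynomial ι ℂ}
    (hF : IsSecY u c d M F) (hG : IsSecY u c d M G) (a b : ℂ) :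
    IsSecY u c d M fun i z => C a * F i z - C b * G i z where
  holo i α := by
    simp only [coeff_sub, coeff_C_mul]
    exact ((hF.holo i α).const_mul a).sub ((hG.holo i α).const_mul b)
  deg i z hz α hα := by
    classical
    rw [mem_support_iff, coeff_sub, coeff_C_mul, coeff_C_mul] at hα
    by_cases h : coeff α (F i z) = 0
    · refine hG.deg i z hz α (mem_support_iff.2 fun h' => hα ?_)
      rw [h, h', mul_zero, mul_zero, sub_zero]
    · exact hF.deg i z hz α (mem_support_iff.2 h)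
  eq k z hz x := by
    simp only [map_sub, map_mul, eval_C]
    rw [hF.eq k z hz x, hG.eq k z hz x]
    ring

/-- If all sections of a globally generated line bundle which vanish at `p` vanish at `q` then the
values at `p` and `q` are proportional. -/
theorem GGY.prop {d : ι → ℤ} {M : LB X} (h : GGY u S c d M) {i i' : I} {z z' : E} {x x' : ι → ℂ}
    (hz : z ∈ X.U i) (hx : {l | x l = 0} ∈ S) (hz' : z' ∈ X.U i') (hx' : {l | x' l = 0} ∈ S)
    (H : ∀ F, IsSecY u c d M F → eval x (F i z) = 0 → eval x' (F i' z') = 0) :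
    ∃ μ : ℂ, μ ≠ 0 ∧ ∀ F, IsSecY u c d M F → eval x' (F i' z') = μ * eval x (F i z) := by
  obtain ⟨f, hf, hf0⟩ := h i z hz x hx
  have h1 : ∀ g, IsSecY u c d M g → eval x' (g i' z') =
      eval x' (f i' z') / eval x (f i z) * eval x (g i z) := fun g hg => by
    have h2 := H _ (hg.comb hf (eval x (f i z)) (eval x (g i z))) (by
      simp only [map_sub, map_mul, eval_C]
      ring)
    simp only [map_sub, map_mul, eval_C] at h2
    field_simp
    linear_combination h2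
  refine ⟨_, fun h0 => ?_, h1⟩
  obtain ⟨g, hg, hg0⟩ := h i' z' hz' x' hx'
  exact hg0 (by rw [h1 g hg, h0, zero_mul])

/-- Global generation of the adjoint line bundles. -/
theorem gg_adj (hS : IsSmoothFan u S) {Pic : Subgroup (LB X)} (hc : ∀ i, c i ∈ Pic) (κ : LB X)
    {k : ℕ} (hk : n + 1 ≤ k) {d : Fin k → ι → ℤ} {M : Fin k → LB X} (hM : ∀ j, M j ∈ Pic)
    (h : ∀ j, AmpleY u S c (d j) (M j))
    (hX : ∀ A : Fin k → LB X, (∀ j, A j ∈ Pic ∧ IsAmple (A j)) → GG (κ * ∏ j, A j)) :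
    GGY u S c (fun i => ∑ j, d j i - 1) (κ * (∏ i, c i)⁻¹ * ∏ j, M j) := by
  intro i z hz x hx
  obtain ⟨σ, hσ, hsub⟩ := exists_max hx
  obtain ⟨C, hC⟩ := exists_dual hS hσ
  obtain ⟨B, hB, hB1, hB2, -⟩ := exists_B hS hσ hC hk h hz
  have hγ : ∀ i, (∑ j, B j i - 1) + 1 = ∑ j, B j i := fun i => Nat.sub_add_cancel (hB2 i)
  obtain ⟨f, hf, hf0⟩ := hX (fun j => vb (M j) c (B j))
    (fun j => ⟨vb_mem (hM j) hc _, (hB j).2⟩) i z hz
  rw [← vb_adj κ M hγ] at hf
  refine ⟨_, mono_sec (linEquiv_sum (fun j => (hB j).1) hγ) hf, ?_⟩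
  rw [eval_mono]
  refine mul_ne_zero hf0 (Finset.prod_ne_zero_iff.2 fun l _ => ?_)
  by_cases hl : l ∈ σ
  · rw [hB1 l hl, Nat.sub_self, pow_zero]
    exact one_ne_zero
  · exact pow_ne_zero _ fun h0 => hl (hsub h0)

/-- The coordinates off the cone, as units. -/
noncomputable def off (σ : Set ι) (x : ι → ℂ) (hx : ∀ i, i ∉ σ → x i ≠ 0) (i : ι) : ℂˣ := by
  classical
  exact if h : i ∈ σ then 1 else Units.mk0 (x i) (hx i h)

omit [Fintype ι] in
theorem off_mem {σ : Set ι} {x : ι → ℂ} (hx : ∀ i, i ∉ σ → x i ≠ 0) {i : ι} (hi : i ∈ σ) :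
    off σ x hx i = 1 := by
  classical
  exact dif_pos hi

omit [Fintype ι] in
theorem off_notMem {σ : Set ι} {x : ι → ℂ} (hx : ∀ i, i ∉ σ → x i ≠ 0) {i : ι} (hi : i ∉ σ) :
    (off σ x hx i : ℂ) = x i := by
  classical
  rw [off, dif_neg hi]
  rfl

theorem mono_adj {σ : Set ι} {C : Fin n → ι → ℤ} (hC : Dual u σ C) {l : ι} (hl : l ∈ σ)
    {γ γ' : ι → ℕ} (hγ : ∀ i ∈ σ, γ i = 0) (hγ' : ∀ i, (γ' i : ℤ) = γ i + pr u C l i)
    {x : ι → ℂ} (hx : ∀ i, i ∉ σ → x i ≠ 0) :
    ∏ i, x i ^ γ' i = x l * (∏ i, x i ^ γ i) * ((∏ i, off σ x hx i ^ pr u C l i : ℂˣ) : ℂ) := by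
  classical
  have h0 : x l = ∏ i, if i = l then x i else 1 := by
    rw [Finset.prod_ite_eq' Finset.univ l x, if_pos (Finset.mem_univ l)]
  rw [h0, Units.coe_prod, ← Finset.prod_mul_distrib, ← Finset.prod_mul_distrib]
  refine Finset.prod_congr rfl fun i _ => ?_
  by_cases hi : i ∈ σ
  · rw [off_mem hx hi, one_zpow, Units.val_one, hγ i hi, pow_zero, mul_one, mul_one]
    have h1 := hγ' i
    rw [hγ i hi] at h1
    by_cases hil : i = l
    · rw [if_pos hil]
      rw [hil, pr, hC.one l hl] at h1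
      have : γ' l = 1 := by exact_mod_cast h1
      rw [hil, this, pow_one]
    · rw [if_neg hil]
      rw [pr, hC.dual i hi l fun e => hil e.symm] at h1
      have : γ' i = 0 := by exact_mod_cast h1
      rw [this, pow_zero]
  · rw [if_neg fun e : i = l => hi (by rw [e]; exact hl), one_mul, ← off_notMem hx hi, ← Units.val_pow_eq_pow_val,
      ← Units.val_pow_eq_pow_val, ← Units.val_mul, ← zpow_natCast, ← zpow_natCast, ← zpow_add,
      hγ' i]

omit [Fintype ι] in
theorem hasDerivAt_prod (T : Finset ι) {x : ι → ℂ} (hx : ∀ i ∈ T, x i ≠ 0) (ξ : ι → ℂ)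
    (α : ι → ℕ) : HasDerivAt (fun τ : ℂ => ∏ i ∈ T, (x i + τ * ξ i) ^ α i)
      ((∏ i ∈ T, x i ^ α i) * ∑ i ∈ T, α i * (ξ i / x i)) 0 := by
  classical
  induction T using Finset.induction_on with
  | empty =>
    simp only [Finset.prod_empty, Finset.sum_empty, mul_zero]
    exact hasDerivAt_const _ _
  | insert i T hi ih =>
    simp only [Finset.prod_insert hi, Finset.sum_insert hi]
    have h1 : HasDerivAt (fun τ : ℂ => x i + τ * ξ i) (ξ i) 0 := by
      have h2 : HasDerivAt (fun τ : ℂ => x i + τ * ξ i) (1 * ξ i) 0 :=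
        ((hasDerivAt_id (0 : ℂ)).mul_const (ξ i)).const_add (x i)
      rwa [one_mul] at h2
    have h3 := (h1.fun_pow (α i)).fun_mul (ih fun j hj => hx j (Finset.mem_insert_of_mem hj))
    refine h3.congr_deriv ?_
    simp only [zero_mul, add_zero]
    have h4 : (α i : ℂ) * x i ^ (α i - 1) * ξ i = x i ^ α i * (α i * (ξ i / x i)) := by
      have h5 := hx i (Finset.mem_insert_self i T)
      rcases Nat.eq_zero_or_pos (α i) with h0 | h0
      · rw [h0]
        simp
      · obtain ⟨a, ha⟩ := Nat.exists_eq_add_of_le' h0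
        rw [ha, Nat.add_sub_cancel, pow_succ]
        field_simp
    rw [h4]
    ring

/-- The data of the adjoint line bundle at a maximal cone. -/
theorem dat_adj (hS : IsSmoothFan u S) {Pic : Subgroup (LB X)} (hc : ∀ i, c i ∈ Pic) (κ : LB X)
    {k : ℕ} (hk : n + 2 ≤ k) {d : Fin k → ι → ℤ} {M : Fin k → LB X} (hM : ∀ j, M j ∈ Pic)
    (h : ∀ j, AmpleY u S c (d j) (M j))
    (hX : ∀ A : Fin k → LB X, (∀ j, A j ∈ Pic ∧ IsAmple (A j)) → VA (κ * ∏ j, A j))
    {σ : Set ι} (hσ : IsMax S σ) {C : Fin n → ι → ℤ} (hC : Dual u σ C) {i₀ : I} {z₀ : E}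
    (hz₀ : z₀ ∈ X.U i₀) : ∃ γ : ι → ℕ, (∀ i, γ i = 0 ↔ i ∈ σ) ∧
      LinEquiv u (fun i => (γ i : ℤ)) (fun i => ∑ j, d j i - 1) ∧
      VA (vb (κ * (∏ i, c i)⁻¹ * ∏ j, M j) c γ) ∧ ∀ l ∈ σ, ∃ γ' : ι → ℕ,
        (∀ i, (γ' i : ℤ) = γ i + pr u C l i) ∧
        LinEquiv u (fun i => (γ' i : ℤ)) (fun i => ∑ j, d j i - 1) ∧
        VA (vb (κ * (∏ i, c i)⁻¹ * ∏ j, M j) c γ') := by
  obtain ⟨B, hB, hB1, hB2, hB3⟩ := exists_B hS hσ hC (by omega) h hz₀
  obtain ⟨hB4, hB5⟩ := hB3 hk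
  have hγ : ∀ i, (∑ j, B j i - 1) + 1 = ∑ j, B j i := fun i => Nat.sub_add_cancel (hB2 i)
  refine ⟨fun i => ∑ j, B j i - 1, fun i => ⟨fun h0 => ?_, fun hi => ?_⟩,
    linEquiv_sum (fun j => (hB j).1) hγ, ?_, fun l hl => ?_⟩
  · by_contra hi
    have h1 := hB4 i hi
    have h2 : ∑ j, B j i - 1 = 0 := h0
    omega
  · change ∑ j, B j i - 1 = 0
    rw [hB1 i hi]
  · rw [vb_adj κ M hγ]
    exact hX _ fun j => ⟨vb_mem (hM j) hc _, (hB j).2⟩
  · obtain ⟨B', hB', hB'1, hB'2⟩ := hB5 l hl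
    have hγ' : ∀ i, (∑ j, B' j i - 1) + 1 = ∑ j, B' j i := fun i =>
      Nat.sub_add_cancel (hB'1 i)
    refine ⟨fun i => ∑ j, B' j i - 1, fun i => ?_, linEquiv_sum (fun j => (hB' j).1) hγ', ?_⟩
    · have e1 := hB'2 i
      have e2 := hB2 i
      have e3 := hB'1 i
      change ((∑ j, B' j i - 1 : ℕ) : ℤ) = ((∑ j, B j i - 1 : ℕ) : ℤ) + pr u C l i
      generalize (∑ j, B' j i) = a at *
      generalize (∑ j, B j i) = b at *
      omega
    · rw [vb_adj κ M hγ']
      exact hX _ fun j => ⟨vb_mem (hM j) hc _, (hB' j).2⟩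

theorem prod_zpow_sum {J : Type*} (T : Finset J) (g : ℂˣ) (a : J → ℤ) :
    ∏ l ∈ T, g ^ a l = g ^ ∑ l ∈ T, a l := by
  classical
  induction T using Finset.induction_on with
  | empty => simp
  | insert j T hj ih => rw [Finset.prod_insert hj, Finset.sum_insert hj, zpow_add, ih]

/-- Very ampleness of the adjoint line bundles. -/
theorem va_adj (hS : IsSmoothFan u S) {Pic : Subgroup (LB X)} (hc : ∀ i, c i ∈ Pic) (κ : LB X)
    {k : ℕ} (hk : n + 2 ≤ k) {d : Fin k → ι → ℤ} {M : Fin k → LB X} (hM : ∀ j, M j ∈ Pic)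
    (h : ∀ j, AmpleY u S c (d j) (M j))
    (hX : ∀ A : Fin k → LB X, (∀ j, A j ∈ Pic ∧ IsAmple (A j)) → VA (κ * ∏ j, A j)) :
    VAY u S c (fun i => ∑ j, d j i - 1) (κ * (∏ i, c i)⁻¹ * ∏ j, M j) := by
  classical
  have hgg := gg_adj hS hc κ (by omega) hM h fun A hA => (hX A hA).gg
  refine ⟨hgg, fun i z hz x hx i' z' hz' x' hx' H => ?_, fun i z hz x hx w ξ H => ?_⟩
  · obtain ⟨σ, hσ, hsub⟩ := exists_max hx
    obtain ⟨C, hC⟩ := exists_dual hS hσ
    obtain ⟨γ, hγ0, hγ, hA, hγ'⟩ := dat_adj hS hc κ hk hM h hX hσ hC hz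
    obtain ⟨μ, hμ, hprop⟩ := hgg.prop hz hx hz' hx' H
    set N := κ * (∏ i, c i)⁻¹ * ∏ j, M j with hN
    have hxσ : ∀ i, i ∉ σ → x i ≠ 0 := fun i hi h0 => hi (hsub h0)
    have hxγ : ∏ i, x i ^ γ i ≠ 0 := Finset.prod_ne_zero_iff.2 fun l _ => by
      by_cases hl : l ∈ σ
      · rw [(hγ0 l).2 hl, pow_zero]
        exact one_ne_zero
      · exact pow_ne_zero _ (hxσ l hl)
    obtain ⟨f, hf, hf0⟩ := hA.gg i z hz
    have e1 := hprop _ (mono_sec hγ hf)
    rw [eval_mono, eval_mono] at e1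
    have hx'γ : ∏ i, x' i ^ γ i ≠ 0 := fun h0 => by
      rw [h0, mul_zero] at e1
      exact mul_ne_zero hμ (mul_ne_zero hf0 hxγ) e1.symm
    have hx'σ : ∀ i, i ∉ σ → x' i ≠ 0 := fun i hi h0 => by
      refine hx'γ (Finset.prod_eq_zero (Finset.mem_univ i) ?_)
      rw [h0, zero_pow fun h1 => hi ((hγ0 i).1 h1)]
    obtain ⟨k₀, h1, h2, h3, h4⟩ := hA.pts i z hz i' z' hz' fun g hg hg0 => by
      have e2 := hprop _ (mono_sec hγ hg)
      rw [eval_mono, eval_mono, hg0, zero_mul, mul_zero] at e2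
      exact (mul_eq_zero.1 e2).resolve_right hx'γ
    subst h1 h2 h4
    refine ⟨k₀, rfl, rfl, h3, rfl, ?_⟩
    set y : ι → ℂ := fun l => x' l / ev (c l) k₀ z with hy
    have hyσ : ∀ i, i ∉ σ → y i ≠ 0 := fun i hi => div_ne_zero (hx'σ i hi) (ev_ne _ _ _)
    have key : ∀ α : ι → ℕ, LinEquiv u (fun i => (α i : ℤ)) (fun i => ∑ j, d j i - 1) →
        GG (vb N c α) → ev N k₀ z * ∏ i, y i ^ α i = μ * ∏ i, x i ^ α i := by
      intro α hα hGG
      obtain ⟨g, hg, hg0⟩ := hGG _ z hz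
      have e2 := hprop _ (mono_sec hα hg)
      rw [eval_mono, eval_mono, hg.eq k₀ z h3, ev_vb] at e2
      have e3 : ∏ i, y i ^ α i = (∏ i, ev (c i) k₀ z ^ α i)⁻¹ * ∏ i, x' i ^ α i := by
        simp only [hy, div_pow, Finset.prod_div_distrib]
        rw [div_eq_inv_mul]
      rw [e3]
      refine mul_right_cancel₀ hg0 ?_
      linear_combination e2
    have k1 := key γ hγ hA.gg
    -- the element of the torus
    set X₁ := off σ x hxσ with hX₁
    set Y₁ := off σ y hyσ with hY₁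
    set t' : ι → ℂˣ := fun i => Y₁ i / X₁ i with ht'
    refine ⟨fun l => t' l * ∏ j, t' j ^ (-pr u C l j), fun j => ?_, fun l => ?_⟩
    · have e2 : ∀ l, (t' l * ∏ i, t' i ^ (-pr u C l i)) ^ u l j
          = t' l ^ u l j * ∏ i, t' i ^ (-(pr u C l i * u l j)) := fun l => by
        rw [mul_zpow, ← Finset.prod_zpow]
        congr 1
        refine Finset.prod_congr rfl fun i _ => ?_
        rw [← zpow_mul, neg_mul]
      simp only [e2, Finset.prod_mul_distrib]
      rw [Finset.prod_comm]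
      have e3 : ∀ i, ∏ l, t' i ^ (-(pr u C l i * u l j)) = (t' i ^ u i j)⁻¹ := fun i => by
        rw [hC.expand i j, ← zpow_neg, ← Finset.sum_neg_distrib]
        exact prod_zpow_sum _ _ _
      simp only [e3, Finset.prod_inv_distrib]
      exact mul_inv_cancel _
    · have hc0 := ev_ne (c l) k₀ z
      have hyl : x' l = y l * ev (c l) k₀ z := by
        rw [hy]
        field_simp
      by_cases hl : l ∈ σ
      · obtain ⟨γ', hγ'1, hγ'2, hγ'3⟩ := hγ' l hl
        have k2 := key γ' hγ'2 hγ'3.gg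
        rw [mono_adj hC hl (fun i hi => (hγ0 i).2 hi) hγ'1 hyσ,
          mono_adj hC hl (fun i hi => (hγ0 i).2 hi) hγ'1 hxσ] at k2
        have k3 : y l * ((∏ i, Y₁ i ^ pr u C l i : ℂˣ) : ℂ)
            = x l * ((∏ i, X₁ i ^ pr u C l i : ℂˣ) : ℂ) := by
          refine mul_left_cancel₀ (mul_ne_zero hμ hxγ) ?_
          linear_combination k2 - (y l * ((∏ i, Y₁ i ^ pr u C l i : ℂˣ) : ℂ)) * k1
        have k4 : t' l * ∏ j, t' j ^ (-pr u C l j)
            = (∏ i, X₁ i ^ pr u C l i) / ∏ i, Y₁ i ^ pr u C l i := by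
          rw [ht']
          simp only [hX₁, hY₁, off_mem hxσ hl, off_mem hyσ hl, div_one, one_mul, zpow_neg, div_zpow,
            inv_div, Finset.prod_div_distrib]
        beta_reduce
        rw [k4, Units.val_div_eq_div_val, hyl]
        have k5 := (∏ i, Y₁ i ^ pr u C l i : ℂˣ).ne_zero
        field_simp
        linear_combination k3
      · have k4 : t' l * ∏ j, t' j ^ (-pr u C l j) = t' l := by
          rw [Finset.prod_eq_one fun j _ => by rw [hC.pr_zero hl j, neg_zero, zpow_zero], mul_one]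
        beta_reduce
        rw [k4, ht']
        simp only [Units.val_div_eq_div_val, hX₁, hY₁, off_notMem hxσ hl, off_notMem hyσ hl]
        rw [hyl]
        have k5 := hxσ l hl
        field_simp
  · obtain ⟨σ, hσ, hsub⟩ := exists_max hx
    obtain ⟨C, hC⟩ := exists_dual hS hσ
    obtain ⟨γ, hγ0, hγ, hA, hγ'⟩ := dat_adj hS hc κ hk hM h hX hσ hC hz
    set N := κ * (∏ i, c i)⁻¹ * ∏ j, M j with hN
    have hxσ : ∀ i, i ∉ σ → x i ≠ 0 := fun i hi h0 => hi (hsub h0)
    set T : Finset ι := Finset.univ.filter fun i => i ∉ σ with hT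
    have hTx : ∀ i ∈ T, x i ≠ 0 := fun i hi => hxσ i (Finset.mem_filter.1 hi).2
    have hTQ : ∀ α : ι → ℕ, ∏ i ∈ T, x i ^ α i ≠ 0 := fun α =>
      Finset.prod_ne_zero_iff.2 fun i hi => pow_ne_zero _ (hTx i hi)
    have hpγ : ∀ y : ι → ℂ, ∏ i, y i ^ γ i = ∏ i ∈ T, y i ^ γ i := fun y => by
      rw [hT]
      refine (Finset.prod_filter_of_ne (p := fun i => i ∉ σ) fun i _ h0 hi => h0 ?_).symm
      rw [(hγ0 i).2 hi, pow_zero]
    have hpγ' : ∀ l ∈ σ, ∀ γ' : ι → ℕ, (∀ i, (γ' i : ℤ) = γ i + pr u C l i) → ∀ y : ι → ℂ,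
        ∏ i, y i ^ γ' i = y l * ∏ i ∈ T, y i ^ γ' i := by
      intro l hl γ' hγ'1 y
      rw [hT, Finset.prod_filter]
      have h0 : y l = ∏ i, if i = l then y i else 1 := by
        rw [Finset.prod_ite_eq' Finset.univ l y, if_pos (Finset.mem_univ l)]
      conv_rhs => rw [h0]
      rw [← Finset.prod_mul_distrib]
      refine Finset.prod_congr rfl fun i _ => ?_
      by_cases hi : i ∈ σ
      · rw [if_neg (not_not.2 hi), mul_one]
        have h1 := hγ'1 i
        rw [(hγ0 i).2 hi] at h1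
        by_cases hil : i = l
        · rw [if_pos hil]
          rw [hil, pr, hC.one l hl] at h1
          have : γ' l = 1 := by exact_mod_cast h1
          rw [hil, this, pow_one]
        · rw [if_neg hil]
          rw [pr, hC.dual i hi l fun e => hil e.symm] at h1
          have : γ' i = 0 := by exact_mod_cast h1
          rw [this, pow_zero]
      · rw [if_pos hi, if_neg fun e : i = l => hi (by rw [e]; exact hl), one_mul]
    have hder : ∀ (α : ι → ℕ) (g : I → E → ℂ), DifferentiableAt ℂ (g i) z → ∀ D,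
        HasDerivAt (fun τ : ℂ => ∏ l, (x l + τ * ξ l) ^ α l) D 0 →
        HasDerivAt (fun τ : ℂ => eval (x + τ • ξ) (monomial (ex α) (g i (z + τ • w))))
          (fderiv ℂ (g i) z w * ∏ l, x l ^ α l + g i z * D) 0 := by
      intro α g hg D hD
      have h2 : HasDerivAt (fun τ : ℂ => z + τ • w) w 0 := by
        have h3 := ((hasDerivAt_id (0 : ℂ)).smul_const w).const_add z
        rwa [one_smul] at h3
      have h4 : HasFDerivAt (g i) (fderiv ℂ (g i) z) (z + (0 : ℂ) • w) := by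
        rw [zero_smul, add_zero]
        exact hg.hasFDerivAt
      have h5 := (h4.comp_hasDerivAt (0 : ℂ) h2).fun_mul hD
      simp only [Function.comp_apply, zero_smul, add_zero, zero_mul] at h5
      refine h5.congr_of_eventuallyEq (Filter.Eventually.of_forall fun τ => ?_)
      beta_reduce
      rw [eval_mono]
      rfl
    have hDγ := hasDerivAt_prod T hTx ξ γ
    have hDγ0 : HasDerivAt (fun τ : ℂ => ∏ l, (x l + τ * ξ l) ^ γ l)
        ((∏ i ∈ T, x i ^ γ i) * ∑ i ∈ T, γ i * (ξ i / x i)) 0 := by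
      simp only [hpγ fun i => x i + _ * ξ i]
      exact hDγ
    have hw : w = 0 := hA.tan i z hz w fun g hg hg0 => by
      have e1 := H _ (mono_sec hγ hg) (by rw [eval_mono, hg0, zero_mul])
      rw [dY, (hder γ g (hg.diff hz) _ hDγ0).deriv, hg0, zero_mul, add_zero, hpγ] at e1
      exact (mul_eq_zero.1 e1).resolve_right (hTQ γ)
    refine ⟨hw, ?_⟩
    subst hw
    obtain ⟨f, hf, hf0⟩ := hA.gg i z hz
    have hdf := hder γ f (hf.diff hz) _ hDγ0
    have hl0 : ∀ l ∈ σ, ξ l = -(∑ i ∈ T, (pr u C l i : ℂ) * (ξ i / x i)) * x l := by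
      intro l hl
      obtain ⟨γ', hγ'1, hγ'2, hγ'3⟩ := hγ' l hl
      obtain ⟨g, hg, hg0⟩ := hγ'3.gg i z hz
      have hDγ' : HasDerivAt (fun τ : ℂ => ∏ l, (x l + τ * ξ l) ^ γ' l)
          (ξ l * (∏ i ∈ T, x i ^ γ' i) + x l * ((∏ i ∈ T, x i ^ γ' i) *
            ∑ i ∈ T, γ' i * (ξ i / x i))) 0 := by
        simp only [hpγ' l hl γ' hγ'1 fun i => x i + _ * ξ i]
        have h2 : HasDerivAt (fun τ : ℂ => x l + τ * ξ l) (1 * ξ l) 0 :=
          ((hasDerivAt_id (0 : ℂ)).mul_const (ξ l)).const_add (x l)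
        rw [one_mul] at h2
        have h3 := h2.fun_mul (hasDerivAt_prod T hTx ξ γ')
        simp only [zero_mul, add_zero] at h3
        exact h3
      have hdg := hder γ' g (hg.diff hz) _ hDγ'
      set a := eval x (monomial (ex γ') (g i z)) with ha
      set b := eval x (monomial (ex γ) (f i z)) with hb
      have e1 := H _ ((mono_sec hγ hf).comb (mono_sec hγ'2 hg) a b) (by
        simp only [map_sub, map_mul, eval_C]
        rw [← ha, ← hb]
        ring)
      have e2 := (hdf.const_mul a).fun_sub (hdg.const_mul b)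
      rw [dY] at e1
      simp only [map_sub, map_mul, eval_C] at e1
      rw [e2.deriv, ha, hb, eval_mono, eval_mono, hpγ' l hl γ' hγ'1 x, hpγ x] at e1
      simp only [map_zero, zero_mul, zero_add] at e1
      have e3 : ∑ i ∈ T, (pr u C l i : ℂ) * (ξ i / x i)
          = ∑ i ∈ T, γ' i * (ξ i / x i) - ∑ i ∈ T, γ i * (ξ i / x i) := by
        rw [← Finset.sum_sub_distrib]
        refine Finset.sum_congr rfl fun i _ => ?_
        have e4 : (pr u C l i : ℂ) = γ' i - γ i := by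
          have e5 := hγ'1 i
          have e6 : ((γ' i : ℤ) : ℂ) = ((γ i + pr u C l i : ℤ) : ℂ) := by rw [e5]
          push_cast at e6
          rw [e6]
          ring
        rw [e4]
        ring
      rw [e3]
      refine mul_left_cancel₀ (mul_ne_zero (mul_ne_zero hf0 hg0) (mul_ne_zero (hTQ γ) (hTQ γ'))) ?_
      linear_combination -e1
    refine ⟨fun l => (if l ∈ σ then 0 else ξ l / x l) - ∑ j, (pr u C l j : ℂ) *
      (if j ∈ σ then 0 else ξ j / x j), fun j => ?_, fun l => ?_⟩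
    · simp only [sub_mul, Finset.sum_sub_distrib, Finset.sum_mul]
      rw [Finset.sum_comm, ← Finset.sum_sub_distrib]
      refine Finset.sum_eq_zero fun i _ => ?_
      have e1 : (u i j : ℂ) = ∑ l, (pr u C l i : ℂ) * u l j := by
        have := hC.expand i j
        exact_mod_cast this
      rw [e1, Finset.mul_sum, ← Finset.sum_sub_distrib]
      refine Finset.sum_eq_zero fun l _ => ?_
      ring
    · have e1 : ∑ j, (pr u C l j : ℂ) * (if j ∈ σ then 0 else ξ j / x j)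
          = ∑ i ∈ T, (pr u C l i : ℂ) * (ξ i / x i) := by
        rw [hT, Finset.sum_filter]
        refine Finset.sum_congr rfl fun i _ => ?_
        by_cases hi : i ∈ σ
        · rw [if_pos hi, if_neg (not_not.2 hi), mul_zero]
        · rw [if_neg hi, if_pos hi]
      beta_reduce
      rw [e1]
      by_cases hl : l ∈ σ
      · rw [if_pos hl, zero_sub]
        exact hl0 l hl
      · rw [if_neg hl, Finset.sum_eq_zero fun i _ => by rw [hC.pr_zero hl i, Int.cast_zero, zero_mul],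
          sub_zero, div_mul_cancel₀ _ (hxσ l hl)]

end Q47.FJ
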