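import Pool.Agent.Q47.FJ.T7
import Pool.Agent.Q47.FJ.Red

/-!
# Adjoint line bundles on toric bundles
-/

set_option autoImplicit false

namespace Q47.FJ

open Q47.TB

section Red

variable {E : Type*} [NormedAddCommGroup E] [NormedSpace ℂ E] {I K : Type*} {X : Atlas E I K}
  {ι : Type*} [Fintype ι] {n : ℕ} {u : ι → Fin n → ℤ} {S : Set (Set ι)} {c : ι → LB X}

theorem canonical_of {N : LB X} (hN : IsCanonicalY c N) : IsCanonical (N * ∏ i, c i) := by
  intro k z hz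
  rw [ev_mul, ev_prod]
  exact hN k z hz

theorem canonical_eq (N : LB X) : N * (∏ i, c i) * (∏ i, c i)⁻¹ = N :=
  mul_inv_cancel_right _ _

/-- Global generation of the adjoint line bundles. -/
theorem gg_red (hS : IsSmoothFan u S) (Pic : Subgroup (LB X)) (hc : ∀ i, c i ∈ Pic) {N : LB X}
    (hN : IsCanonicalY c N) {k : ℕ} (hk : n + 1 ≤ k) {d : Fin k → ι → ℤ} {M : Fin k → LB X}
    (hM : ∀ j, M j ∈ Pic) (h : ∀ j, AmpleY u S c (d j) (M j))
    (hX : ∀ κ : LB X, IsCanonical κ → ∀ A : Fin k → LB X, (∀ j, A j ∈ Pic ∧ IsAmple (A j)) →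
      GG (κ * ∏ j, A j)) :
    GGY u S c (fun i => ∑ j, d j i - 1) (N * ∏ j, M j) := by
  have := gg_adj hS hc (N * ∏ i, c i) hk hM h (hX _ (canonical_of hN))
  rwa [canonical_eq] at this

/-- Very ampleness of the adjoint line bundles. -/
theorem va_red (hS : IsSmoothFan u S) (Pic : Subgroup (LB X)) (hc : ∀ i, c i ∈ Pic) {N : LB X}
    (hN : IsCanonicalY c N) {k : ℕ} (hk : n + 2 ≤ k) {d : Fin k → ι → ℤ} {M : Fin k → LB X}
    (hM : ∀ j, M j ∈ Pic) (h : ∀ j, AmpleY u S c (d j) (M j))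
    (hX : ∀ κ : LB X, IsCanonical κ → ∀ A : Fin k → LB X, (∀ j, A j ∈ Pic ∧ IsAmple (A j)) →
      VA (κ * ∏ j, A j)) :
    VAY u S c (fun i => ∑ j, d j i - 1) (N * ∏ j, M j) := by
  have := va_adj hS hc (N * ∏ i, c i) hk hM h (hX _ (canonical_of hN))
  rwa [canonical_eq] at this

end Red

variable {V : Type*} [NormedAddCommGroup V] [NormedSpace ℂ V] {Λ : AddSubgroup V}

/-- The canonical line bundle of a torus is trivial. -/
theorem canonical_torus {κ : LB (torus Λ)} (h : IsCanonical κ) : κ = 1 := by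
  refine Subtype.ext (funext fun b => funext fun z => Units.ext ?_)
  have h1 := h b z (Set.mem_univ _)
  have h2 : fderiv ℂ ((torus Λ).φ b) z = ContinuousLinearMap.id ℂ V := by
    have h3 : (torus Λ).φ b = fun z => z + (b : V) := rfl
    rw [h3, fderiv_add_const, fderiv_fun_id]
  rw [h2] at h1
  have h3 : ((ContinuousLinearMap.id ℂ V : V →L[ℂ] V) : V →ₗ[ℂ] V) = LinearMap.id := rfl
  rw [h3, LinearMap.det_id, mul_one] at h1
  exact h1

theorem prod_ample {m : ℕ} {A : Fin (m + 1) → LB (torus Λ)}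
    (hA : ∀ j, A j ∈ cpic Λ ∧ IsAmple (A j)) : ∏ j, A j ∈ cpic Λ ∧ IsAmple (∏ j, A j) := by
  induction m with
  | zero =>
    rw [Fin.prod_univ_one]
    exact hA 0
  | succ m ih =>
    rw [Fin.prod_univ_succ]
    have h1 := ih (A := fun j => A j.succ) fun j => hA _
    exact ⟨(cpic Λ).mul_mem (hA 0).1 h1.1, (hA 0).2.mul h1.2⟩

variable [FiniteDimensional ℂ V]

/-- Products of ample line bundles on complex tori are globally generated. -/
theorem torus_gg (hd : DiscreteTopology Λ) (hs : Submodule.span ℝ (Λ : Set V) = ⊤) {k : ℕ}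
    (hk : 2 ≤ k) {A : Fin k → LB (torus Λ)} (hA : ∀ j, A j ∈ cpic Λ ∧ IsAmple (A j)) :
    GG (∏ j, A j) := by
  obtain ⟨m, rfl⟩ := Nat.exists_eq_add_of_le' hk
  rw [Fin.prod_univ_succ]
  have h1 := prod_ample (A := fun j => A j.succ) fun j => hA _
  obtain ⟨H₁, χ₁, F₁, D₁⟩ := exists_posData hs (hA 0).1 (hA 0).2
  obtain ⟨H₂, χ₂, F₂, D₂⟩ := exists_posData hs h1.1 h1.2
  exact gg_two hd hs D₁ D₂

/-- Products of ample line bundles on complex tori are very ample. -/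
theorem torus_va (hd : DiscreteTopology Λ) (hs : Submodule.span ℝ (Λ : Set V) = ⊤) {k : ℕ}
    (hk : 3 ≤ k) {A : Fin k → LB (torus Λ)} (hA : ∀ j, A j ∈ cpic Λ ∧ IsAmple (A j)) :
    VA (∏ j, A j) := by
  have hgg := torus_gg hd hs (by omega) hA
  obtain ⟨m, rfl⟩ := Nat.exists_eq_add_of_le' hk
  rw [Fin.prod_univ_succ, Fin.prod_univ_succ, ← mul_assoc] at hgg ⊢
  have h1 := prod_ample (A := fun j => A j.succ.succ) fun j => hA _
  obtain ⟨H₁, χ₁, F₁, D₁⟩ := exists_posData hs (hA 0).1 (hA 0).2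
  obtain ⟨H₂, χ₂, F₂, D₂⟩ := exists_posData hs (hA (Fin.succ 0)).1 (hA (Fin.succ 0)).2
  obtain ⟨H₃, χ₃, F₃, D₃⟩ := exists_posData hs h1.1 h1.2
  exact va_three hd hs D₁ D₂ D₃ hgg

variable {ι : Type*} [Fintype ι] {n : ℕ} {u : ι → Fin n → ℤ} {S : Set (Set ι)}
  {c : ι → LB (torus Λ)}

/-- Freeness for toric bundles over complex tori. -/
theorem gg_main (hd : DiscreteTopology Λ) (hs : Submodule.span ℝ (Λ : Set V) = ⊤)
    (hS : IsSmoothFan u S) (hc : ∀ i, ∃ H, IsChern (c i) H) {N : LB (torus Λ)}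
    (hN : IsCanonicalY c N) {k : ℕ} (hk : n + 1 ≤ k) (hk2 : 2 ≤ k) {d : Fin k → ι → ℤ}
    {M : Fin k → LB (torus Λ)} (hM : ∀ j, ∃ H, IsChern (M j) H)
    (h : ∀ j, AmpleY u S c (d j) (M j)) :
    GGY u S c (fun i => ∑ j, d j i - 1) (N * ∏ j, M j) :=
  gg_red hS (cpic Λ) hc hN hk hM h fun κ hκ A hA => by
    rw [canonical_torus hκ, one_mul]
    exact torus_gg hd hs hk2 hA

/-- Very ampleness for toric bundles over complex tori. -/
theorem va_main (hd : DiscreteTopology Λ) (hs : Submodule.span ℝ (Λ : Set V) = ⊤)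
    (hS : IsSmoothFan u S) (hc : ∀ i, ∃ H, IsChern (c i) H) {N : LB (torus Λ)}
    (hN : IsCanonicalY c N) {k : ℕ} (hk : n + 2 ≤ k) (hk3 : 3 ≤ k) {d : Fin k → ι → ℤ}
    {M : Fin k → LB (torus Λ)} (hM : ∀ j, ∃ H, IsChern (M j) H)
    (h : ∀ j, AmpleY u S c (d j) (M j)) :
    VAY u S c (fun i => ∑ j, d j i - 1) (N * ∏ j, M j) :=
  va_red hS (cpic Λ) hc hN hk hM h fun κ hκ A hA => by
    rw [canonical_torus hκ, one_mul]
    exact torus_va hd hs hk3 hA

end Q47.FJ
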