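import Pool.Agent.Q47.FJ.Defs

/-!
# Sections of line bundles on complex manifolds
-/

set_option autoImplicit false

namespace Q47.FJ

variable {E : Type*} [NormedAddCommGroup E] [NormedSpace ℂ E] {I K : Type*} {X : Atlas E I K}

theorem ev_ne (M : LB X) (k : K) (z : E) : ev M k z ≠ 0 := (M.1 k z).ne_zero

theorem ev_mul (M N : LB X) (k : K) (z : E) : ev (M * N) k z = ev M k z * ev N k z :=
  Units.val_mul _ _

theorem ev_one (k : K) (z : E) : ev (1 : LB X) k z = 1 := rfl

theorem ev_inv (M : LB X) (k : K) (z : E) : ev M⁻¹ k z = (ev M k z)⁻¹ :=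
  Units.val_inv_eq_inv_val _

theorem ev_pow (M : LB X) (m : ℕ) (k : K) (z : E) : ev (M ^ m) k z = ev M k z ^ m := by
  induction m with
  | zero => rw [pow_zero, pow_zero, ev_one]
  | succ m ih => rw [pow_succ, pow_succ, ev_mul, ih]

theorem ev_prod {J : Type*} (s : Finset J) (M : J → LB X) (k : K) (z : E) :
    ev (∏ j ∈ s, M j) k z = ∏ j ∈ s, ev (M j) k z := by
  classical
  induction s using Finset.induction_on with
  | empty => rw [Finset.prod_empty, Finset.prod_empty, ev_one]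
  | insert j s hj ih => rw [Finset.prod_insert hj, Finset.prod_insert hj, ev_mul, ih]

theorem IsSec.mul {M N : LB X} {f g : I → E → ℂ} (hf : IsSec M f) (hg : IsSec N g) :
    IsSec (M * N) fun i z => f i z * g i z where
  holo i := (hf.holo i).mul (hg.holo i)
  eq k z hz := by
    rw [hf.eq k z hz, hg.eq k z hz, ev_mul]
    ring

theorem IsSec.comb {M : LB X} {f g : I → E → ℂ} (hf : IsSec M f) (hg : IsSec M g) (a b : ℂ) :
    IsSec M fun i z => a * f i z - b * g i z where
  holo i := ((hf.holo i).const_mul a).sub ((hg.holo i).const_mul b)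
  eq k z hz := by
    rw [hf.eq k z hz, hg.eq k z hz]
    ring

theorem IsSec.one : IsSec (1 : LB X) fun _ _ => 1 where
  holo _ := differentiableOn_const _
  eq k z _ := by rw [ev_one, one_mul]

theorem IsSec.diff {M : LB X} {f : I → E → ℂ} (hf : IsSec M f) {i : I} {z : E} (hz : z ∈ X.U i) :
    DifferentiableAt ℂ (f i) z :=
  (hf.holo i).differentiableAt ((X.isOpen_U i).mem_nhds hz)

theorem GG.one : GG (1 : LB X) := fun _ _ _ => ⟨_, IsSec.one, one_ne_zero⟩

theorem GG.mul {M N : LB X} (hM : GG M) (hN : GG N) : GG (M * N) := fun i z hz => by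
  obtain ⟨f, hf, hf0⟩ := hM i z hz
  obtain ⟨g, hg, hg0⟩ := hN i z hz
  exact ⟨_, hf.mul hg, mul_ne_zero hf0 hg0⟩

theorem GG.pow {M : LB X} (hM : GG M) (m : ℕ) : GG (M ^ m) := by
  induction m with
  | zero => rw [pow_zero]; exact GG.one
  | succ m ih => rw [pow_succ]; exact ih.mul hM

theorem VA.mul {M N : LB X} (hM : VA M) (hN : GG N) : VA (M * N) where
  gg := hM.gg.mul hN
  pts i z hz i' z' hz' h := by
    refine hM.pts i z hz i' z' hz' fun f hf hf0 => ?_
    obtain ⟨g, hg, hg0⟩ := hN i' z' hz'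
    have h1 := h _ (hf.mul hg) (by rw [hf0, zero_mul])
    exact (mul_eq_zero.1 h1).resolve_right hg0
  tan i z hz w h := by
    refine hM.tan i z hz w fun f hf hf0 => ?_
    obtain ⟨g, hg, hg0⟩ := hN i z hz
    have h1 := h _ (hf.mul hg) (by rw [hf0, zero_mul])
    have h2 : fderiv ℂ (fun z => f i z * g i z) z = f i z • fderiv ℂ (g i) z
        + g i z • fderiv ℂ (f i) z := fderiv_fun_mul (hf.diff hz) (hg.diff hz)
    rw [h2, add_apply, smul_apply, smul_apply, hf0, smul_eq_mul, smul_eq_mul, zero_mul, zero_add] at h1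
    exact (mul_eq_zero.1 h1).resolve_left hg0

theorem VA.pow {M : LB X} (hM : VA M) {m : ℕ} (hm : 1 ≤ m) : VA (M ^ m) := by
  obtain ⟨m, rfl⟩ := Nat.exists_eq_add_of_le hm
  rw [pow_add, pow_one]
  exact hM.mul (hM.gg.pow m)

theorem IsAmple.mul {M N : LB X} (hM : IsAmple M) (hN : IsAmple N) : IsAmple (M * N) := by
  obtain ⟨a, ha, hMa⟩ := hM
  obtain ⟨b, hb, hNb⟩ := hN
  refine ⟨a * b, Nat.mul_pos ha hb, ?_⟩
  rw [mul_pow, pow_mul, mul_comm a b, pow_mul]
  exact (hMa.pow hb).mul (hNb.gg.pow a)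

theorem IsAmple.powMul {M N : LB X} (hM : IsAmple M) (hN : IsAmple N) (m : ℕ) :
    IsAmple (M ^ m * N) := by
  induction m with
  | zero => rwa [pow_zero, one_mul]
  | succ m ih =>
    rw [pow_succ', mul_assoc]
    exact hM.mul ih

theorem IsAmple.of_pow {M : LB X} {m : ℕ} (hm : 1 ≤ m) (h : IsAmple (M ^ m)) : IsAmple M := by
  obtain ⟨a, ha, hMa⟩ := h
  exact ⟨m * a, Nat.mul_pos hm ha, by rwa [pow_mul]⟩

/-- If all sections of a globally generated line bundle which vanish at `p` vanish at `q` then the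
values at `p` and `q` are proportional. -/
theorem GG.prop {M : LB X} (hM : GG M) {i i' : I} {z z' : E} (hz : z ∈ X.U i) (hz' : z' ∈ X.U i')
    (h : ∀ f, IsSec M f → f i z = 0 → f i' z' = 0) :
    ∃ μ : ℂ, μ ≠ 0 ∧ ∀ f, IsSec M f → f i' z' = μ * f i z := by
  obtain ⟨f, hf, hf0⟩ := hM i z hz
  have h1 : ∀ g, IsSec M g → g i' z' = f i' z' / f i z * g i z := fun g hg => by
    have h2 := h _ (hg.comb hf (f i z) (g i z)) (by ring)
    field_simp
    linear_combination h2
  refine ⟨_, fun h0 => ?_, h1⟩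
  obtain ⟨g, hg, hg0⟩ := hM i' z' hz'
  exact hg0 (by rw [h1 g hg, h0, zero_mul])

end Q47.FJ
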