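import Pool.Agent.Q47.FJ.Vert

/-!
# Ample line bundles on toric bundles
-/

set_option autoImplicit false

namespace Q47.FJ

open MvPolynomial Q47.TB

variable {E : Type*} [NormedAddCommGroup E] [NormedSpace ℂ E] {I K : Type*} {X : Atlas E I K}
  {ι : Type*} [Fintype ι] {n : ℕ} {u : ι → Fin n → ℤ} {S : Set (Set ι)} {c : ι → LB X}

/-- The restriction of a very ample line bundle to the section of `Y → X` given by a cone. -/
theorem va_vb {σ : Set ι} {C : Fin n → ι → ℤ} (hC : Dual u σ C) (hσ : σ ∈ S) {d : ι → ℤ}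
    {β : ι → ℕ} (hβ0 : ∀ i ∈ σ, β i = 0) (hβ : LinEquiv u (fun i => (β i : ℤ)) d) {M : LB X}
    (h : VAY u S c d M) : VA (vb M c β) := by
  have hz0 : {i | pt σ i = 0} ∈ S := by rwa [zeros_pt]
  have hev : ∀ (F : I → E → MvPolynomial ι ℂ), IsSecY u c d M F → ∀ i, ∀ z ∈ X.U i,
      eval (pt σ) (F i z) = coeff (ex β) (F i z) := fun F hF i z hz =>
    eval_pt hC hβ0 hβ (hF.deg i z hz)
  refine ⟨fun i z hz => ?_, fun i z hz i' z' hz' hf => ?_, fun i z hz w hf => ?_⟩
  · obtain ⟨F, hF, hF0⟩ := h.gg i z hz _ hz0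
    rw [hev F hF i z hz] at hF0
    exact ⟨_, coeff_sec hF β, hF0⟩
  · obtain ⟨k, h1, h2, h3, h4, -⟩ := h.pts i z hz _ hz0 i' z' hz' _ hz0 fun F hF hF0 => by
      rw [hev F hF i z hz] at hF0
      rw [hev F hF i' z' hz']
      exact hf _ (coeff_sec hF β) hF0
    exact ⟨k, h1, h2, h3, h4⟩
  · refine (h.tan i z hz _ hz0 w 0 fun F hF hF0 => ?_).1
    rw [hev F hF i z hz] at hF0
    have hs := coeff_sec hF β
    have h1 := hf _ hs hF0
    have h2 : HasDerivAt (fun τ : ℂ => z + τ • w) w 0 := by
      have h3 := ((hasDerivAt_id (0 : ℂ)).smul_const w).const_add z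
      rwa [one_smul] at h3
    have h4 : HasFDerivAt (fun z => coeff (ex β) (F i z))
        (fderiv ℂ (fun z => coeff (ex β) (F i z)) z) (z + (0 : ℂ) • w) := by
      rw [zero_smul, add_zero]
      exact (hs.diff hz).hasFDerivAt
    have h5 := h4.comp_hasDerivAt (0 : ℂ) h2
    rw [h1] at h5
    have h6 : (fun τ : ℂ => eval (pt σ + τ • (0 : ι → ℂ)) (F i (z + τ • w)))
        =ᶠ[nhds 0] (fun z => coeff (ex β) (F i z)) ∘ fun τ : ℂ => z + τ • w := by
      have h7 : ∀ᶠ τ in nhds (0 : ℂ), z + τ • w ∈ X.U i := by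
        refine h2.continuousAt.eventually_mem ((X.isOpen_U i).mem_nhds ?_)
        rwa [zero_smul, add_zero]
      filter_upwards [h7] with τ hτ
      rw [smul_zero, add_zero, hev F hF i _ hτ]
      rfl
    exact (h5.congr_of_eventuallyEq h6).deriv

/-- The divisors and line bundles which belong to the maximal cones. -/
theorem vertex (hS : IsSmoothFan u S) {σ : Set ι} (hσ : IsMax S σ) {d : ι → ℤ} {M : LB X}
    (h : AmpleY u S c d M) {i₀ : I} {z₀ : E} (hz₀ : z₀ ∈ X.U i₀) :
    ∃ β : ι → ℕ, (∀ i, β i = 0 ↔ i ∈ σ) ∧ LinEquiv u (fun i => (β i : ℤ)) d ∧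
      IsAmple (vb M c β) := by
  classical
  obtain ⟨N, hN, hva⟩ := h
  obtain ⟨C, hC⟩ := exists_dual hS hσ
  have hz0 : {i | pt σ i = 0} ∈ S := by rw [zeros_pt]; exact hσ.1
  -- a divisor of the class `N d` which vanishes on the cone
  obtain ⟨F, hF, hF0⟩ := hva.gg i₀ z₀ hz₀ _ hz0
  rw [eval_eq'] at hF0
  obtain ⟨α, hα, hα0⟩ := Finset.exists_ne_zero_of_sum_ne_zero hF0
  have hασ : ∀ i ∈ σ, α i = 0 := fun i hi => by
    by_contra hne
    apply right_ne_zero_of_mul hα0
    exact Finset.prod_eq_zero (Finset.mem_univ i) (by rw [pt_zero hi, zero_pow hne])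
  set δ : ι → ℤ := fun i => d i + ∑ k, (-∑ j, C k j * d j) * u i k with hδ
  have hδ0 : ∀ i ∈ σ, δ i = 0 := fun i hi => by
    have e1 : ∑ k, (-∑ j, C k j * d j) * u i k = -∑ j, d j * ∑ k, C k j * u i k := by
      simp only [neg_mul, Finset.sum_neg_distrib, Finset.sum_mul, Finset.mul_sum]
      rw [Finset.sum_comm]
      congr 1
      exact Finset.sum_congr rfl fun j _ => Finset.sum_congr rfl fun k _ => by ring
    simp only [hδ]
    rw [e1, Finset.sum_eq_single i, hC.one i hi]
    · ring
    · intro j _ hj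
      rw [hC.dual i hi j hj, mul_zero]
    · intro hh
      exact absurd (Finset.mem_univ i) hh
  have hδα : (fun i => (α i : ℤ)) = fun i => N * δ i := by
    obtain ⟨m, hm⟩ := hF.deg i₀ z₀ hz₀ α hα
    refine hC.linEquiv_unique ⟨fun k => m k + N * ∑ j, C k j * d j, fun i => ?_⟩ fun i hi => ?_
    · have e1 := hm i
      simp only at e1
      change (α i : ℤ) = N * δ i + ∑ k, (m k + N * ∑ j, C k j * d j) * u i k
      rw [e1, hδ]
      simp only [add_mul, neg_mul, Finset.sum_add_distrib, Finset.sum_neg_distrib]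
      have e2 : ∑ k, (N : ℤ) * (∑ j, C k j * d j) * u i k
          = N * ∑ k, (∑ j, C k j * d j) * u i k := by
        rw [Finset.mul_sum]
        exact Finset.sum_congr rfl fun k _ => by ring
      rw [e2]
      ring
    · simp [hασ i hi, hδ0 i hi]
  have hNpos : (0 : ℤ) < N := by exact_mod_cast hN
  have hδn : ∀ i, 0 ≤ δ i := fun i => by
    have : (α i : ℤ) = N * δ i := congrFun hδα i
    refine nonneg_of_mul_nonneg_right ?_ hNpos
    rw [← this]
    exact Int.natCast_nonneg _
  set β : ι → ℕ := fun i => (δ i).toNat with hβdef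
  have hβδ : ∀ i, (β i : ℤ) = δ i := fun i => Int.toNat_of_nonneg (hδn i)
  have hβ0 : ∀ i ∈ σ, β i = 0 := fun i hi => by
    have := hβδ i
    rw [hδ0 i hi] at this
    exact_mod_cast this
  have hβ : LinEquiv u (fun i => (β i : ℤ)) d :=
    ⟨fun k => -∑ j, C k j * d j, fun i => hβδ i⟩
  have hNβ : LinEquiv u (fun i => ((N * β i : ℕ) : ℤ)) fun i => N * d i := by
    obtain ⟨m, hm⟩ := hβ
    refine ⟨fun k => N * m k, fun i => ?_⟩
    have e1 := hm i
    simp only at e1
    push_cast
    rw [e1, mul_add, Finset.mul_sum]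
    congr 1
    exact Finset.sum_congr rfl fun k _ => by ring
  have hαβ : ∀ i, α i = N * β i := fun i => by
    have : (α i : ℤ) = N * δ i := congrFun hδα i
    rw [← hβδ i] at this
    exact_mod_cast this
  refine ⟨β, fun i => ⟨fun hi => ?_, hβ0 i⟩, hβ, N, hN, ?_⟩
  · by_contra hiσ
    -- the neighbours of the vertex
    have hnb : ∀ l ∈ σ, 0 ≤ pr u C l i := by
      intro l hl
      by_contra hneg
      have htan := hva.tan i₀ z₀ hz₀ _ hz0 0 (Pi.single l 1)
      have h1 : ¬ ZeroY (E := E) u (pt σ) 0 (Pi.single l 1) := by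
        rintro ⟨-, τ, -, hτ⟩
        have := hτ l
        rw [Pi.single_eq_same, pt_zero hl, mul_zero] at this
        exact one_ne_zero this
      refine h1 (htan fun G hG _ => ?_)
      have h2 : HasDerivAt (fun τ : ℂ => eval (pt σ + τ • Pi.single l (1 : ℂ))
          (G i₀ (z₀ + τ • (0 : E)))) (∑ j, (Pi.single l (1 : ℂ) : ι → ℂ) j *
            eval (pt σ) (pderiv j (G i₀ z₀))) 0 := by
        simp only [smul_zero, add_zero]
        exact hasDerivAt_eval _ _ _
      rw [dY, h2.deriv, Finset.sum_eq_single l]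
      · rw [Pi.single_eq_same, one_mul]
        have h3 : pderiv l (G i₀ z₀) = ∑ a ∈ (G i₀ z₀).support,
            monomial (a - Finsupp.single l 1) (coeff a (G i₀ z₀) * a l) := by
          conv_lhs => rw [(G i₀ z₀).as_sum]
          rw [map_sum]
          exact Finset.sum_congr rfl fun a _ => pderiv_monomial
        rw [h3, map_sum]
        refine Finset.sum_eq_zero fun a ha => ?_
        rw [eval_monomial, Finsupp.prod_fintype _ _ fun i => pow_zero _]
        by_cases hal : a l = 0
        · rw [hal]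
          simp
        have h4 : ∃ j ∈ σ, (a - Finsupp.single l 1 : ι →₀ ℕ) j ≠ 0 := by
          by_contra hc
          push Not at hc
          -- then `a` is a neighbour
          apply hneg
          have hal1 : a l = 1 := by
            have := hc l hl
            rw [Finsupp.tsub_apply, Finsupp.single_eq_same] at this
            omega
          obtain ⟨m, hm⟩ := hG.deg i₀ z₀ hz₀ a ha
          obtain ⟨m', hm'⟩ := hNβ
          have h5 := hC.linEquiv_unique (α := fun i => (a i : ℤ) - pr u C l i)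
            (β := fun i => ((N * β i : ℕ) : ℤ)) ⟨fun k => m k - m' k - C k l, fun i => by
              have e1 := hm i
              have e2 := hm' i
              simp only at e1 e2 ⊢
              rw [e1, e2, pr]
              simp only [sub_mul, Finset.sum_sub_distrib]
              ring⟩ fun j hj => by
                rw [hβ0 j hj]
                by_cases hjl : j = l
                · subst hjl
                  rw [hal1, pr, hC.one j hj]
                  simp
                · have := hc j hj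
                  rw [Finsupp.tsub_apply, Finsupp.single_eq_of_ne hjl] at this
                  have h0 : a j = 0 := by omega
                  rw [h0, pr, hC.dual j hj l fun e => hjl e.symm]
                  simp
          have h6 : (a i : ℤ) - pr u C l i = ((N * β i : ℕ) : ℤ) := congrFun h5 i
          rw [hi, mul_zero, Nat.cast_zero] at h6
          have : (0 : ℤ) ≤ a i := Int.natCast_nonneg _
          linarith
        obtain ⟨j, hj, hj0⟩ := h4
        have : ∏ i, pt σ i ^ (a - Finsupp.single l 1 : ι →₀ ℕ) i = 0 :=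
          Finset.prod_eq_zero (Finset.mem_univ j) (by rw [pt_zero hj, zero_pow hj0])
        rw [this, mul_zero]
      · intro j _ hj
        rw [Pi.single_eq_of_ne hj, zero_mul]
      · intro hh
        exact absurd (Finset.mem_univ l) hh
    have h1 : (fun j => (pr u C j i).toNat) = fun j => if j = i then 1 else 0 := by
      refine rep_unique hS (hS.face _ hσ.1 _ fun j hj => ?_) (hS.face _ (hS.ray i) _
        fun j hj => ?_) fun k => ?_
      · by_contra hn
        exact hj (by simp [hC.pr_zero hn i])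
      · by_contra hn
        exact hj (if_neg hn)
      · have e1 : ∀ j, ((pr u C j i).toNat : ℤ) = pr u C j i := fun j => by
          refine Int.toNat_of_nonneg ?_
          by_cases hj : j ∈ σ
          · exact hnb j hj
          · rw [hC.pr_zero hj]
        simp only [e1]
        rw [← hC.expand i k]
        simp
    have h2 := congrFun h1 i
    simp [hC.pr_zero hiσ i] at h2
  · rw [vb_pow]
    refine va_vb hC hσ.1 (fun i hi => ?_) hNβ hva
    rw [hβ0 i hi, mul_zero]

theorem vb_mul (M N : LB X) (β β' : ι → ℕ) :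
    vb M c β * vb N c β' = vb (M * N) c fun i => β i + β' i := by
  simp only [vb, pow_add, Finset.prod_mul_distrib, mul_inv]
  exact mul_mul_mul_comm _ _ _ _

/-- The divisors and line bundles which belong to the points next to the vertices. -/
theorem edge (hS : IsSmoothFan u S) {σ : Set ι} (hσ : IsMax S σ) {C : Fin n → ι → ℤ}
    (hC : Dual u σ C) {l : ι} (hl : l ∈ σ) {d : ι → ℤ} {M : LB X} (h : AmpleY u S c d M) {i₀ : I}
    {z₀ : E} (hz₀ : z₀ ∈ X.U i₀) {β : ι → ℕ} (hβ0 : ∀ i, β i = 0 ↔ i ∈ σ)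
    (hβ : LinEquiv u (fun i => (β i : ℤ)) d) (hA : IsAmple (vb M c β)) :
    ∃ β' : ι → ℕ, (∀ i, (β' i : ℤ) = β i + pr u C l i) ∧ IsAmple (vb M c β') := by
  obtain ⟨τ, hτ, hlτ, hστ⟩ := exists_adj hS hσ hl
  obtain ⟨γ, hγ0, hγ, hB⟩ := vertex hS hτ h hz₀
  have hq : 1 ≤ γ l := Nat.one_le_iff_ne_zero.2 fun h0 => hlτ ((hγ0 l).1 h0)
  have h1 : (fun i => (γ i : ℤ)) = fun i => β i + γ l * pr u C l i := by
    obtain ⟨m, hm⟩ := hβ
    obtain ⟨m', hm'⟩ := hγ
    refine hC.linEquiv_unique ⟨fun k => m' k - m k - γ l * C k l, fun i => ?_⟩ fun i hi => ?_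
    · have e1 := hm i
      have e2 := hm' i
      simp only at e1 e2
      change (γ i : ℤ) = β i + γ l * pr u C l i + ∑ k, (m' k - m k - γ l * C k l) * u i k
      rw [e1, e2, pr]
      simp only [sub_mul, Finset.sum_sub_distrib, mul_assoc, ← Finset.mul_sum]
      ring
    · rw [(hβ0 i).2 hi]
      by_cases hil : i = l
      · subst hil
        rw [pr, hC.one i hi]
        simp
      · rw [(hγ0 i).2 (hστ i hi hil), pr, hC.dual i hi l fun e => hil e.symm]
        simp
  have h2 : ∀ i, (γ i : ℤ) = β i + γ l * pr u C l i := fun i => congrFun h1 i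
  have hq0 : (0 : ℤ) < γ l := by exact_mod_cast hq
  have h3 : ∀ i, 0 ≤ (β i : ℤ) + pr u C l i := fun i => by
    refine nonneg_of_mul_nonneg_right ?_ hq0
    have e1 : (γ l : ℤ) * (β i + pr u C l i) = (γ l - 1) * β i + γ i := by
      rw [h2 i]
      ring
    rw [e1]
    have e2 : (0 : ℤ) ≤ β i := Int.natCast_nonneg _
    have e3 : (0 : ℤ) ≤ γ i := Int.natCast_nonneg _
    have e4 : (0 : ℤ) ≤ γ l - 1 := by linarith
    positivity
  refine ⟨fun i => ((β i : ℤ) + pr u C l i).toNat, fun i => Int.toNat_of_nonneg (h3 i), ?_⟩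
  refine IsAmple.of_pow hq ?_
  have h4 : vb M c (fun i => ((β i : ℤ) + pr u C l i).toNat) ^ γ l
      = vb M c β ^ (γ l - 1) * vb M c γ := by
    rw [vb_pow, vb_pow, vb_mul, ← pow_succ, Nat.sub_add_cancel hq]
    congr 1
    funext i
    have e1 := Int.toNat_of_nonneg (h3 i)
    have e2 : ((γ l * ((β i : ℤ) + pr u C l i).toNat : ℕ) : ℤ)
        = (((γ l - 1) * β i + γ i : ℕ) : ℤ) := by
      push_cast [Nat.cast_sub hq]
      rw [e1, h2 i]
      ring
    exact_mod_cast e2
  rw [h4]
  exact hA.powMul hB _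

end Q47.FJ
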