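import Pool.Agent.Q47.FJ.Ample

/-!
# The vertices of the polytopes of adjoint line bundles
-/

set_option autoImplicit false

namespace Q47.FJ

open MvPolynomial Q47.TB

variable {E : Type*} [NormedAddCommGroup E] [NormedSpace ℂ E] {I K : Type*} {X : Atlas E I K}
  {ι : Type*} [Fintype ι] {n : ℕ} {u : ι → Fin n → ℤ} {S : Set (Set ι)} {c : ι → LB X}

omit [Fintype ι] in
/-- Sums of divisors. -/
theorem linEquiv_sum {k : ℕ} {B : Fin k → ι → ℕ} {d : Fin k → ι → ℤ}
    (h : ∀ j, LinEquiv u (fun i => (B j i : ℤ)) (d j)) {γ : ι → ℕ}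
    (hγ : ∀ i, γ i + 1 = ∑ j, B j i) :
    LinEquiv u (fun i => (γ i : ℤ)) fun i => ∑ j, d j i - 1 := by
  choose m hm using h
  refine ⟨fun k => ∑ j, m j k, fun i => ?_⟩
  have e1 : ((γ i : ℤ)) = ∑ j, (B j i : ℤ) - 1 := by
    have := hγ i
    have e2 : ((γ i + 1 : ℕ) : ℤ) = ((∑ j, B j i : ℕ) : ℤ) := by rw [this]
    push_cast at e2
    linarith
  have e3 : ∀ j, (B j i : ℤ) = d j i + ∑ k, m j k * u i k := fun j => hm j i
  change (γ i : ℤ) = ∑ j, d j i - 1 + ∑ k, (∑ j, m j k) * u i k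
  simp only [e1, e3, Finset.sum_add_distrib, Finset.sum_mul]
  rw [Finset.sum_comm]
  ring

/-- The line bundle on the base. -/
theorem vb_adj {k : ℕ} (κ : LB X) (M : Fin k → LB X) {B : Fin k → ι → ℕ} {γ : ι → ℕ}
    (hγ : ∀ i, γ i + 1 = ∑ j, B j i) :
    vb (κ * (∏ i, c i)⁻¹ * ∏ j, M j) c γ = κ * ∏ j, vb (M j) c (B j) := by
  have h1 : (∏ i, c i) * ∏ i, c i ^ γ i = ∏ j, ∏ i, c i ^ B j i := by
    rw [← Finset.prod_mul_distrib, Finset.prod_comm]
    refine Finset.prod_congr rfl fun i _ => ?_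
    rw [Finset.prod_pow_eq_pow_sum, ← hγ i, pow_succ']
  simp only [vb, Finset.prod_mul_distrib, Finset.prod_inv_distrib]
  rw [← h1, mul_inv]
  simp only [mul_assoc, mul_left_comm, mul_comm]

theorem vb_mem {Pic : Subgroup (LB X)} {M : LB X} (hM : M ∈ Pic) (hc : ∀ i, c i ∈ Pic)
    (β : ι → ℕ) : vb M c β ∈ Pic :=
  Pic.mul_mem hM (Pic.inv_mem (Pic.prod_mem fun i _ => Pic.pow_mem (hc i) _))

/-- The combinatorial data of the line bundles `L_j` at a maximal cone. -/
theorem exists_B (hS : IsSmoothFan u S) {σ : Set ι} (hσ : IsMax S σ) {C : Fin n → ι → ℤ}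
    (hC : Dual u σ C) {k : ℕ} (hk : n + 1 ≤ k) {d : Fin k → ι → ℤ} {M : Fin k → LB X}
    (h : ∀ j, AmpleY u S c (d j) (M j)) {i₀ : I} {z₀ : E} (hz₀ : z₀ ∈ X.U i₀) :
    ∃ B : Fin k → ι → ℕ, (∀ j, LinEquiv u (fun i => (B j i : ℤ)) (d j) ∧
      IsAmple (vb (M j) c (B j))) ∧ (∀ i ∈ σ, ∑ j, B j i = 1) ∧ (∀ i, 1 ≤ ∑ j, B j i) ∧
      (n + 2 ≤ k → (∀ i, i ∉ σ → 2 ≤ ∑ j, B j i) ∧
        ∀ l ∈ σ, ∃ B' : Fin k → ι → ℕ, (∀ j, LinEquiv u (fun i => (B' j i : ℤ)) (d j) ∧
          IsAmple (vb (M j) c (B' j))) ∧ (∀ i, 1 ≤ ∑ j, B' j i) ∧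
          ∀ i, ((∑ j, B' j i : ℕ) : ℤ) = (∑ j, B j i : ℕ) + pr u C l i) := by
  classical
  choose b hb0 hb hbA using fun j => vertex hS hσ (h j) hz₀
  choose b' hb' hb'A using fun (j : Fin k) (l : σ) => edge hS hσ hC l.2 (h j) hz₀ (hb0 j) (hb j)
    (hbA j)
  have hb'L : ∀ j l, LinEquiv u (fun i => (b' j l i : ℤ)) (d j) := fun j l => by
    obtain ⟨m, hm⟩ := hb j
    refine ⟨fun k => m k + C k l, fun i => ?_⟩
    have e1 := hm i
    simp only at e1
    change (b' j l i : ℤ) = d j i + ∑ k, (m k + C k l) * u i k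
    rw [hb', e1, pr]
    simp only [add_mul, Finset.sum_add_distrib]
    ring
  have hcard : Fintype.card σ ≤ n := card_le hS hσ
  obtain ⟨e⟩ : Nonempty (σ ⊕ Fin (k - n) ↪ Fin k) := by
    refine Function.Embedding.nonempty_of_card_le ?_
    rw [Fintype.card_sum, Fintype.card_fin, Fintype.card_fin]
    omega
  have hdec : ∀ j : Fin k, ∃ B : ι → ℕ, (∀ i, (B i : ℤ) = b j i +
      ∑ l : σ, if e (Sum.inl l) = j then pr u C l i else 0) ∧
      LinEquiv u (fun i => (B i : ℤ)) (d j) ∧ IsAmple (vb (M j) c B) := by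
    intro j
    by_cases hj : ∃ l : σ, e (Sum.inl l) = j
    · obtain ⟨l, rfl⟩ := hj
      refine ⟨b' (e (Sum.inl l)) l, fun i => ?_, hb'L _ l, hb'A _ l⟩
      rw [hb', Finset.sum_eq_single l]
      · rw [if_pos rfl]
      · intro l' _ hne
        rw [if_neg]
        intro h'
        exact hne (Sum.inl_injective (e.injective h'))
      · intro h'
        exact absurd (Finset.mem_univ l) h'
    · push Not at hj
      refine ⟨b j, fun i => ?_, hb j, hbA j⟩
      rw [Finset.sum_eq_zero fun l _ => if_neg (hj l), add_zero]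
  choose B hB hBL hBA using hdec
  have hsum : ∀ i, ((∑ j, B j i : ℕ) : ℤ) = ∑ j, (b j i : ℤ) + ∑ l : σ, pr u C l i := fun i => by
    push_cast
    simp only [hB, Finset.sum_add_distrib]
    congr 1
    rw [Finset.sum_comm]
    refine Finset.sum_congr rfl fun l _ => ?_
    rw [Finset.sum_ite_eq Finset.univ (e (Sum.inl l)) fun _ => pr u C l i,
      if_pos (Finset.mem_univ _)]
  have hprσ : ∀ i ∈ σ, ∑ l : σ, pr u C l i = 1 := fun i hi => by
    rw [Finset.sum_eq_single (⟨i, hi⟩ : σ)]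
    · exact hC.one i hi
    · intro l _ hl
      exact hC.dual i hi l fun e => hl (Subtype.ext e)
    · intro h'
      exact absurd (Finset.mem_univ _) h'
  have h1 : ∀ i ∈ σ, ∑ j, B j i = 1 := fun i hi => by
    have h2 := hsum i
    have h0 : ∑ j, (b j i : ℤ) = 0 := Finset.sum_eq_zero fun j _ => by
      rw [(hb0 j i).2 hi]
      rfl
    rw [hprσ i hi, h0, zero_add] at h2
    exact_mod_cast h2
  -- the free indices
  have hfree : ∀ (q : Fin (k - n)) i, B (e (Sum.inr q)) i = b (e (Sum.inr q)) i := fun q i => by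
    have := hB (e (Sum.inr q)) i
    rw [Finset.sum_eq_zero fun l _ => if_neg fun h' => by
      have := e.injective h'
      simp at this, add_zero] at this
    exact_mod_cast this
  have hfree1 : ∀ (q : Fin (k - n)) i, i ∉ σ → 1 ≤ B (e (Sum.inr q)) i := fun q i hi => by
    rw [hfree]
    exact Nat.one_le_iff_ne_zero.2 fun h0 => hi ((hb0 _ i).1 h0)
  refine ⟨B, fun j => ⟨hBL j, hBA j⟩, h1, fun i => ?_, fun hk2 => ⟨fun i hi => ?_, ?_⟩⟩
  · by_cases hi : i ∈ σ
    · exact (h1 i hi).ge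
    · exact (hfree1 ⟨0, by omega⟩ i hi).trans
        (Finset.single_le_sum (f := fun j => B j i) (fun j _ => Nat.zero_le _)
          (Finset.mem_univ _))
  · have hne : e (Sum.inr ⟨0, by omega⟩) ≠ e (Sum.inr ⟨1, by omega⟩) := fun h' => by
      have := e.injective h'
      simp at this
    have h2 : ∑ j ∈ {e (Sum.inr ⟨0, by omega⟩), e (Sum.inr ⟨1, by omega⟩)}, B j i
        ≤ ∑ j, B j i := Finset.sum_le_sum_of_subset (Finset.subset_univ _)
    rw [Finset.sum_pair hne] at h2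
    have h3 := hfree1 ⟨0, by omega⟩ i hi
    have h4 := hfree1 ⟨1, by omega⟩ i hi
    omega
  · have hne : e (Sum.inr ⟨1, by omega⟩) ≠ e (Sum.inr ⟨0, by omega⟩) := fun h' => by
      have := e.injective h'
      simp at this
    set j₀ := e (Sum.inr ⟨0, by omega⟩) with hj₀
    intro l hl
    have hdec : ∀ j : Fin k, ∃ B' : ι → ℕ, (∀ i, (B' i : ℤ) = B j i +
        if j₀ = j then pr u C l i else 0) ∧ LinEquiv u (fun i => (B' i : ℤ)) (d j) ∧
        IsAmple (vb (M j) c B') := by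
      intro j
      by_cases hj : j₀ = j
      · refine ⟨b' j ⟨l, hl⟩, fun i => ?_, hb'L _ _, hb'A _ _⟩
        rw [hb', if_pos hj, ← hj, hj₀, hfree]
      · refine ⟨B j, fun i => ?_, hBL j, hBA j⟩
        rw [if_neg hj, add_zero]
    choose B' hB' hB'L hB'A using hdec
    have hs : ∀ i, ((∑ j, B' j i : ℕ) : ℤ) = (∑ j, B j i : ℕ) + pr u C l i := fun i => by
      push_cast
      simp only [hB', Finset.sum_add_distrib]
      congr 1
      rw [Finset.sum_ite_eq Finset.univ j₀ fun _ => pr u C l i, if_pos (Finset.mem_univ _)]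
    refine ⟨B', fun j => ⟨hB'L j, hB'A j⟩, fun i => ?_, hs⟩
    by_cases hi : i ∈ σ
    · have e1 := hs i
      rw [h1 i hi] at e1
      have e2 : 0 ≤ pr u C l i := by
        by_cases hil : i = l
        · subst hil
          rw [pr, hC.one i hi]
          norm_num
        · rw [pr, hC.dual i hi l fun e => hil e.symm]
      have e3 : (1 : ℤ) ≤ ((∑ j, B' j i : ℕ) : ℤ) := by
        rw [e1]
        push_cast
        linarith
      exact_mod_cast e3
    · refine le_trans ?_ (Finset.single_le_sum (f := fun j => B' j i)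
        (fun j _ => Nat.zero_le _) (Finset.mem_univ (e (Sum.inr ⟨1, by omega⟩))))
      have e1 := hB' (e (Sum.inr ⟨1, by omega⟩)) i
      rw [if_neg hne.symm, add_zero] at e1
      have e2 := hfree1 ⟨1, by omega⟩ i hi
      have e3 : B' (e (Sum.inr ⟨1, by omega⟩)) i = B (e (Sum.inr ⟨1, by omega⟩)) i := by
        exact_mod_cast e1
      rw [e3]
      exact e2

end Q47.FJ
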