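import Pool.Agent.Q47.TB.Defs

/-!
# Toric bundles over complex manifolds: definitions

A complex manifold `X` is given by open subsets `U i` of a complex vector space `E` (the charts) and
by the transition maps between them (`Atlas`). A toric bundle `Y → X` is given by a smooth complete
fan, with the rays `u i ∈ ℤ^n` and the cones `σ ∈ S`, and by line bundles `c i` on `X`: it is the
quotient of the set of all `(p, x)`, `p` a point of a chart, `x ∈ ℂ^ι`, `{i | x i = 0}` a cone, by
`(p, x) ~ (φ(p), (c_i(p) x_i)_i)` for the transition maps `φ` and by the group of all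
`t ∈ (ℂ^*)^ι` with `∏ t_i ^ (u_i)_j = 1` for all `j`, which acts on the Cox coordinates `x_i`. The
fibres are isomorphic to the smooth complete toric variety `F` of the fan, and `dim Y = dim X + n`.
Every bundle with the fibre `F` and with the torus as structure group is of this form.
-/

set_option autoImplicit false

namespace Q47.FJ

open MvPolynomial Q47.TB

/-- A complex manifold `X` (connected or not): the charts are the open subsets `U i` of `E`, and the
transition map `φ k` is a holomorphic map from the open subset `D k` of the chart `U (s k)` to the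
chart `U (t k)`. Two points of charts give the same point of `X` if a transition map maps one to the
other; this is an equivalence relation. -/
structure Atlas (E : Type*) [NormedAddCommGroup E] [NormedSpace ℂ E] (I K : Type*) where
  U : I → Set E
  isOpen_U : ∀ i, IsOpen (U i)
  s : K → I
  t : K → I
  D : K → Set E
  isOpen_D : ∀ k, IsOpen (D k)
  sub : ∀ k, D k ⊆ U (s k)
  φ : K → E → E
  holo : ∀ k, DifferentiableOn ℂ (φ k) (D k)
  maps : ∀ k, ∀ z ∈ D k, φ k z ∈ U (t k)
  refl : ∀ i, ∀ z ∈ U i, ∃ k, s k = i ∧ t k = i ∧ z ∈ D k ∧ φ k z = z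
  symm : ∀ k, ∀ z ∈ D k, ∃ l, s l = t k ∧ t l = s k ∧ φ k z ∈ D l ∧ φ l (φ k z) = z
  trans : ∀ k l, s l = t k → ∀ z ∈ D k, φ k z ∈ D l →
    ∃ m, s m = s k ∧ t m = t l ∧ z ∈ D m ∧ φ m z = φ l (φ k z)

variable {E : Type*} [NormedAddCommGroup E] [NormedSpace ℂ E] {I K : Type*}

/-- The points `z` of the chart `i` and `z'` of the chart `i'` are the same point of `X`. -/
def Atlas.Same (X : Atlas E I K) (i : I) (z : E) (i' : I) (z' : E) : Prop :=
  ∃ k, X.s k = i ∧ X.t k = i' ∧ z ∈ X.D k ∧ X.φ k z = z'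

/-- The group of the cocycles of nowhere vanishing holomorphic functions `M k` on the `D k`. -/
def cocycles (X : Atlas E I K) : Subgroup (K → E → ℂˣ) where
  carrier := {M | (∀ k, DifferentiableOn ℂ (fun z => (M k z : ℂ)) (X.D k)) ∧
    ∀ k l m z, z ∈ X.D k → X.φ k z ∈ X.D l → z ∈ X.D m → X.s l = X.t k → X.s m = X.s k →
      X.t m = X.t l → X.φ m z = X.φ l (X.φ k z) → M m z = M l (X.φ k z) * M k z}
  one_mem' := ⟨fun k => differentiableOn_const (1 : ℂ), fun _ _ _ _ _ _ _ _ _ _ _ =>
    (mul_one 1).symm⟩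
  mul_mem' := by
    rintro M N ⟨hM, hM'⟩ ⟨hN, hN'⟩
    refine ⟨fun k => ((hM k).mul (hN k)).congr fun z _ => by simp,
      fun k l m z h1 h2 h3 h4 h5 h6 h7 => ?_⟩
    simp only [Pi.mul_apply]
    rw [hM' k l m z h1 h2 h3 h4 h5 h6 h7, hN' k l m z h1 h2 h3 h4 h5 h6 h7]
    exact mul_mul_mul_comm _ _ _ _
  inv_mem' := by
    rintro M ⟨hM, hM'⟩
    refine ⟨fun k => ?_, fun k l m z h1 h2 h3 h4 h5 h6 h7 => ?_⟩
    · have h := (hM k).inv fun z _ => (M k z).ne_zero
      refine h.congr fun z _ => ?_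
      simp
    · simp only [Pi.inv_apply]
      rw [hM' k l m z h1 h2 h3 h4 h5 h6 h7, mul_inv]

/-- The group of the line bundles on `X` (which are trivial on the charts): the line bundles are given
by their cocycles, and the product is the tensor product. -/
def LB (X : Atlas E I K) : Type _ := cocycles X

instance instLB (X : Atlas E I K) : CommGroup (LB X) := (cocycles X).toCommGroup

variable {X : Atlas E I K}

/-- The value of the cocycle. -/
def ev (M : LB X) (k : K) (z : E) : ℂ := (M.1 k z : ℂ)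

/-- `f` is a global section of the line bundle `M` on `X`. -/
structure IsSec (M : LB X) (f : I → E → ℂ) : Prop where
  holo : ∀ i, DifferentiableOn ℂ (f i) (X.U i)
  eq : ∀ k, ∀ z ∈ X.D k, f (X.t k) (X.φ k z) = ev M k z * f (X.s k) z

/-- The line bundle `M` on `X` is globally generated. -/
def GG (M : LB X) : Prop := ∀ i, ∀ z ∈ X.U i, ∃ f, IsSec M f ∧ f i z ≠ 0

/-- The line bundle `M` on `X` is very ample: it is globally generated, and its sections separate
points and tangent vectors. (For compact `X` this means that they define an embedding.) -/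
structure VA (M : LB X) : Prop where
  gg : GG M
  pts : ∀ i, ∀ z ∈ X.U i, ∀ i', ∀ z' ∈ X.U i',
    (∀ f, IsSec M f → f i z = 0 → f i' z' = 0) → X.Same i z i' z'
  tan : ∀ i, ∀ z ∈ X.U i, ∀ w : E,
    (∀ f, IsSec M f → f i z = 0 → fderiv ℂ (f i) z w = 0) → w = 0

/-- The line bundle `M` on the compact complex manifold `X` is ample. -/
def IsAmple (M : LB X) : Prop := ∃ N : ℕ, 1 ≤ N ∧ VA (M ^ N)

variable {ι : Type*} [Fintype ι] {n : ℕ}

/-- `F` is a global section of the line bundle `O_Y(d; M)` on `Y`: a polynomial in the Cox coordinates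
whose coefficients are holomorphic functions on the charts, homogeneous of the class of the divisor
`∑ d_i D_i`. (`D_i` is the divisor `x_i = 0`; the coordinate `x_i` is a section of
`O_Y(D_i) = O_Y(e_i; c_i)`.) -/
structure IsSecY (u : ι → Fin n → ℤ) (c : ι → LB X) (d : ι → ℤ) (M : LB X)
    (F : I → E → MvPolynomial ι ℂ) : Prop where
  holo : ∀ i α, DifferentiableOn ℂ (fun z => coeff α (F i z)) (X.U i)
  deg : ∀ i, ∀ z ∈ X.U i, ∀ α ∈ (F i z).support, LinEquiv u (fun j => (α j : ℤ)) d
  eq : ∀ k, ∀ z ∈ X.D k, ∀ x : ι → ℂ, eval (fun j => ev (c j) k z * x j) (F (X.t k) (X.φ k z)) =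
    ev M k z * eval x (F (X.s k) z)

/-- The points `(z, x)` over the chart `i` and `(z', x')` over the chart `i'` are the same point of
`Y`. -/
def SameY (X : Atlas E I K) (u : ι → Fin n → ℤ) (c : ι → LB X) (i : I) (z : E) (x : ι → ℂ) (i' : I)
    (z' : E) (x' : ι → ℂ) : Prop :=
  ∃ k, X.s k = i ∧ X.t k = i' ∧ z ∈ X.D k ∧ X.φ k z = z' ∧
    ∃ t : ι → ℂˣ, (∀ j, ∏ l, t l ^ u l j = 1) ∧ ∀ l, x' l = t l * (ev (c l) k z * x l)

/-- The vector `(w, ξ)` at the point `(z, x)` is zero as a tangent vector of `Y`: it is tangent to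
the orbit of the group acting on the Cox coordinates. -/
def ZeroY (u : ι → Fin n → ℤ) (x : ι → ℂ) (w : E) (ξ : ι → ℂ) : Prop :=
  w = 0 ∧ ∃ τ : ι → ℂ, (∀ j, ∑ l, τ l * u l j = 0) ∧ ∀ l, ξ l = τ l * x l

/-- The derivative of the section `F` at the point `(z, x)` over the chart `i`, in the direction
`(w, ξ)`. -/
noncomputable def dY (F : I → E → MvPolynomial ι ℂ) (i : I) (z : E) (x : ι → ℂ) (w : E)
    (ξ : ι → ℂ) : ℂ :=
  deriv (fun τ : ℂ => eval (x + τ • ξ) (F i (z + τ • w))) 0

/-- The line bundle `O_Y(d; M)` is globally generated. -/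
def GGY (u : ι → Fin n → ℤ) (S : Set (Set ι)) (c : ι → LB X) (d : ι → ℤ) (M : LB X) : Prop :=
  ∀ i, ∀ z ∈ X.U i, ∀ x : ι → ℂ, {l | x l = 0} ∈ S → ∃ F, IsSecY u c d M F ∧ eval x (F i z) ≠ 0

/-- The line bundle `O_Y(d; M)` is very ample: it is globally generated, and its sections separate
points and tangent vectors. -/
structure VAY (u : ι → Fin n → ℤ) (S : Set (Set ι)) (c : ι → LB X) (d : ι → ℤ) (M : LB X) :
    Prop where
  gg : GGY u S c d M
  pts : ∀ i, ∀ z ∈ X.U i, ∀ x : ι → ℂ, {l | x l = 0} ∈ S →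
    ∀ i', ∀ z' ∈ X.U i', ∀ x' : ι → ℂ, {l | x' l = 0} ∈ S →
    (∀ F, IsSecY u c d M F → eval x (F i z) = 0 → eval x' (F i' z') = 0) →
      SameY X u c i z x i' z' x'
  tan : ∀ i, ∀ z ∈ X.U i, ∀ x : ι → ℂ, {l | x l = 0} ∈ S → ∀ (w : E) (ξ : ι → ℂ),
    (∀ F, IsSecY u c d M F → eval x (F i z) = 0 → dY F i z x w ξ = 0) → ZeroY u x w ξ

/-- The line bundle `O_Y(d; M)` is ample. -/
def AmpleY (u : ι → Fin n → ℤ) (S : Set (Set ι)) (c : ι → LB X) (d : ι → ℤ) (M : LB X) : Prop :=
  ∃ N : ℕ, 1 ≤ N ∧ VAY u S c (fun l => N * d l) (M ^ N)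

end Q47.FJ
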