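import Pool.Agent.Q47.FJ.Defs
import Pool.Agent.W594.SYZ.TQDefs

/-!
# Complex tori, and canonical line bundles
-/

set_option autoImplicit false

namespace Q47.FJ

open Pool.Agent.W594.SYZ2

/-- `κ` is the canonical line bundle `K_X` (the line bundle of the holomorphic `m`-forms, where
`m = dim E` is the dimension of `X`): the function `f` on a chart stands for the form
`f dz_1 ∧ ... ∧ dz_m`, and `f_t(φ(z)) det(φ'(z)) = f_s(z)` for the transition maps. -/
def IsCanonical {E : Type*} [NormedAddCommGroup E] [NormedSpace ℂ E] {I K : Type*} {X : Atlas E I K}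
    (κ : LB X) : Prop :=
  ∀ k, ∀ z ∈ X.D k, ev κ k z * LinearMap.det (fderiv ℂ (X.φ k) z : E →ₗ[ℂ] E) = 1

/-- `O_Y(-1, ..., -1; N)` is the canonical line bundle `K_Y` of the toric bundle `Y → X` given by the
line bundles `c i`: for a local section `G` of it, the form `G dz_1 ∧ ... ∧ dz_m ∧ Ω` is invariant
under the transition maps and the group of the `t`, where the form
`Ω = ∑_J ± det(u_j)_{j ∈ J} (∏_{i ∉ J} x_i) (∧_{j ∈ J} dx_j)`, `|J| = n`, in the Cox coordinates is
multiplied with `∏ c_i` by the transition maps. -/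
def IsCanonicalY {E : Type*} [NormedAddCommGroup E] [NormedSpace ℂ E] {I K : Type*} {X : Atlas E I K}
    {ι : Type*} [Fintype ι] (c : ι → LB X) (N : LB X) : Prop :=
  ∀ k, ∀ z ∈ X.D k, ev N k z * (∏ i, ev (c i) k z) *
    LinearMap.det (fderiv ℂ (X.φ k) z : E →ₗ[ℂ] E) = 1

variable {V : Type*} [NormedAddCommGroup V] [NormedSpace ℂ V]

/-- The complex torus `V / Λ`, with the chart `V` and the transition maps `z ↦ z + b`, `b ∈ Λ`. -/
def torus (Λ : AddSubgroup V) : Atlas V Unit Λ where
  U _ := Set.univ
  isOpen_U _ := isOpen_univ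
  s _ := ()
  t _ := ()
  D _ := Set.univ
  isOpen_D _ := isOpen_univ
  sub _ := Set.subset_univ _
  φ b z := z + b
  holo b := (differentiable_id.add_const (b : V)).differentiableOn
  maps _ _ _ := Set.mem_univ _
  refl _ z _ := ⟨0, rfl, rfl, Set.mem_univ _, add_zero z⟩
  symm b z _ := ⟨-b, rfl, rfl, Set.mem_univ _, add_neg_cancel_right z (b : V)⟩
  trans b c _ z _ _ := ⟨b + c, rfl, rfl, Set.mem_univ _, (add_assoc z (b : V) (c : V)).symm⟩

/-- The hermitian form `H` is the first Chern form of the line bundle `M` on the torus: for some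
holomorphic function `F` on `V`, `|s(z)|² exp (- π H(z,z) - 2 Re F(z))` defines a hermitian metric on
`M` (its curvature is the constant form given by `H`). By the theorem of Appell and Humbert each line
bundle on a complex torus has a Chern form. -/
def IsChern {Λ : AddSubgroup V} (M : LB (torus Λ)) (H : V → V → ℂ) : Prop :=
  IsHermitian H ∧ ∃ F : V → ℂ, Differentiable ℂ F ∧ ∀ (b : Λ) (z : V),
    ‖ev M b z‖ ^ 2 = Real.exp (Real.pi * (H (z + b) (z + b)).re + 2 * (F (z + b)).re
      - (Real.pi * (H z z).re + 2 * (F z).re))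

end Q47.FJ
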