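import Pool.Agent.Q47.TB.Hull

/-!
# Smooth complete fans: maximal cones, dual bases, adjacent cones
-/

set_option autoImplicit false

namespace Q47.FJ

open Q47.TB Finset

variable {ι : Type*} [Fintype ι] {n : ℕ} {u : ι → Fin n → ℤ} {S : Set (Set ι)}

/-- Uniqueness of the representations. -/
theorem rep_unique (hS : IsSmoothFan u S) {a b : ι → ℕ} (ha : {i | a i ≠ 0} ∈ S)
    (hb : {i | b i ≠ 0} ∈ S) (h : ∀ k, ∑ i, (a i : ℤ) * u i k = ∑ i, (b i : ℤ) * u i k) :
    a = b := by
  obtain ⟨c, -, hc⟩ := hS.rep fun k => ∑ i, (b i : ℤ) * u i k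
  rw [hc a ⟨ha, h⟩, hc b ⟨hb, fun k => rfl⟩]

/-- The cones around a cone. -/
theorem star (hS : IsSmoothFan u S) {σ : Set ι} (hσ : σ ∈ S) [DecidablePred (· ∈ σ)]
    (w : Fin n → ℤ) : ∃ (N : ℕ) (a : ι → ℕ), {i | a i ≠ 0} ∈ S ∧ σ ⊆ {i | a i ≠ 0} ∧
      ∀ k, ∑ i, (a i : ℤ) * u i k = ∑ i, (if i ∈ σ then (N : ℤ) else 0) * u i k + w k := by
  choose f hf hfu using fun N : ℕ => hS.rep
    fun k => ∑ i, (if i ∈ σ then (N : ℤ) else 0) * u i k + w k
  obtain ⟨m, N, hmN, hle⟩ := wellQuasiOrdered_le f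
  refine ⟨N, f N, (hf N).1, ?_, (hf N).2⟩
  have h1 : (fun i => f N i - f m i) = fun i => if i ∈ σ then N - m else 0 := by
    refine rep_unique hS (hS.face _ (hf N).1 _ fun i hi => ?_) (hS.face _ hσ _ fun i hi => ?_)
      fun k => ?_
    · intro h0
      have : f N i - f m i ≠ 0 := hi
      omega
    · by_contra hc
      exact hi (if_neg hc)
    · have e1 : ∀ i, ((f N i - f m i : ℕ) : ℤ) = f N i - f m i := fun i =>
        Int.ofNat_sub (hle i)
      have e2 : ∀ i, ((if i ∈ σ then N - m else 0 : ℕ) : ℤ)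
          = (if i ∈ σ then (N : ℤ) else 0) - (if i ∈ σ then (m : ℤ) else 0) := fun i => by
        split_ifs
        · exact Int.ofNat_sub hmN.le
        · simp
      simp only [e1, e2, sub_mul, Finset.sum_sub_distrib]
      rw [(hf N).2 k, (hf m).2 k]
      ring
  intro i hi h0
  have h2 := congrFun h1 i
  simp only [if_pos hi] at h2
  have h3 : f N i = 0 := h0
  omega

/-- The maximal cones. -/
def IsMax (S : Set (Set ι)) (σ : Set ι) : Prop := σ ∈ S ∧ ∀ τ ∈ S, σ ⊆ τ → τ = σ

omit [Fintype ι] in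
theorem exists_max [Finite ι] {σ : Set ι} (hσ : σ ∈ S) : ∃ τ, IsMax S τ ∧ σ ⊆ τ := by
  obtain ⟨τ, hle, hτ⟩ := (Set.toFinite S).exists_le_maximal hσ
  exact ⟨τ, ⟨hτ.prop, fun ρ hρ h => le_antisymm (hτ.le_of_ge hρ h) h⟩, hle⟩

/-- The coordinates with respect to the rays of a maximal cone. -/
theorem exists_coord (hS : IsSmoothFan u S) {σ : Set ι} (hσ : IsMax S σ) (w : Fin n → ℤ) :
    ∃ c : ι → ℤ, (∀ i, i ∉ σ → c i = 0) ∧ ∀ k, ∑ i, c i * u i k = w k := by
  classical
  obtain ⟨N, a, ha, hsub, hw⟩ := star hS hσ.1 w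
  have hs := hσ.2 _ ha hsub
  refine ⟨fun i => a i - (if i ∈ σ then (N : ℤ) else 0), fun i hi => ?_, fun k => ?_⟩
  · have : a i = 0 := by
      by_contra h
      exact hi (hs ▸ h)
    simp [this, hi]
  · simp only [sub_mul, Finset.sum_sub_distrib]
    rw [hw k]
    ring

/-- The rays of a cone are linearly independent. -/
theorem coord_unique (hS : IsSmoothFan u S) {σ : Set ι} (hσ : σ ∈ S) {c c' : ι → ℤ}
    (hc : ∀ i, i ∉ σ → c i = 0) (hc' : ∀ i, i ∉ σ → c' i = 0)
    (h : ∀ k, ∑ i, c i * u i k = ∑ i, c' i * u i k) : c = c' := by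
  have h1 : (fun i => (c i - c' i).toNat) = fun i => (c' i - c i).toNat := by
    refine rep_unique hS (hS.face _ hσ _ fun i hi => ?_) (hS.face _ hσ _ fun i hi => ?_)
      fun k => ?_
    · by_contra hn
      exact hi (by simp [hc i hn, hc' i hn])
    · by_contra hn
      exact hi (by simp [hc i hn, hc' i hn])
    · have e : ∀ i, (((c i - c' i).toNat : ℕ) : ℤ)
          = ((c' i - c i).toNat : ℕ) + (c i - c' i) := fun i => by omega
      simp only [e, add_mul, sub_mul, Finset.sum_add_distrib, Finset.sum_sub_distrib]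
      rw [h k]
      ring
  funext i
  have h2 : (c i - c' i).toNat = (c' i - c i).toNat := congrFun h1 i
  omega

/-- A dual basis: `C k` are the coordinates of the `k`-th unit vector. -/
structure Dual (u : ι → Fin n → ℤ) (σ : Set ι) (C : Fin n → ι → ℤ) : Prop where
  zero : ∀ k i, i ∉ σ → C k i = 0
  eq : ∀ j k, ∑ i, C j i * u i k = if j = k then 1 else 0
  one : ∀ l ∈ σ, ∑ k, C k l * u l k = 1
  dual : ∀ i ∈ σ, ∀ l, l ≠ i → ∑ k, C k l * u i k = 0

theorem exists_dual (hS : IsSmoothFan u S) {σ : Set ι} (hσ : IsMax S σ) :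
    ∃ C, Dual u σ C := by
  classical
  choose C hC0 hC using fun j : Fin n => exists_coord hS hσ fun k => if j = k then 1 else 0
  suffices h : ∀ i ∈ σ, ∀ l, ∑ k, C k l * u i k = if i = l then 1 else 0 by
    refine ⟨C, hC0, hC, fun l hl => by rw [h l hl, if_pos rfl], fun i hi l hne => ?_⟩
    rw [h i hi, if_neg fun e => hne e.symm]
  intro i hi l
  have h1 : (fun l => ∑ k, C k l * u i k) = fun l => if i = l then 1 else 0 := by
    refine coord_unique hS hσ.1 (fun j hj => ?_) (fun j hj => ?_) fun k => ?_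
    · exact Finset.sum_eq_zero fun k _ => by rw [hC0 k j hj, zero_mul]
    · rw [if_neg]
      rintro rfl
      exact hj hi
    · simp only [Finset.sum_mul]
      rw [Finset.sum_comm]
      have e : ∀ j : Fin n, ∑ l, C j l * u i j * u l k = u i j * if j = k then 1 else 0 := by
        intro j
        rw [← hC j k, Finset.mul_sum]
        exact Finset.sum_congr rfl fun l _ => by ring
      simp only [e, mul_ite, mul_one, mul_zero, ite_mul, one_mul, zero_mul]
      simp
  exact congrFun h1 l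

/-- The pairing of the dual vector `l` with the ray `i`. -/
def pr (u : ι → Fin n → ℤ) (C : Fin n → ι → ℤ) (l i : ι) : ℤ := ∑ k, C k l * u i k

theorem Dual.expand {σ : Set ι} {C : Fin n → ι → ℤ} (hC : Dual u σ C) (j : ι) (k : Fin n) :
    u j k = ∑ l, pr u C l j * u l k := by
  have h1 : ∀ l, pr u C l j * u l k = ∑ k', u j k' * (C k' l * u l k) := fun l => by
    rw [pr, Finset.sum_mul]
    exact Finset.sum_congr rfl fun k' _ => by ring
  simp only [h1]
  rw [Finset.sum_comm]
  simp only [← Finset.mul_sum, hC.eq, mul_ite, mul_one, mul_zero]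
  simp

theorem Dual.pr_zero {σ : Set ι} {C : Fin n → ι → ℤ} (hC : Dual u σ C) {l : ι} (hl : l ∉ σ)
    (i : ι) : pr u C l i = 0 :=
  Finset.sum_eq_zero fun k _ => by rw [hC.zero k l hl, zero_mul]

/-- A linear form is determined by its values at the rays of the cone. -/
theorem Dual.form {σ : Set ι} {C : Fin n → ι → ℤ} (hC : Dual u σ C) (m : Fin n → ℤ) (k : Fin n) :
    m k = ∑ i, C k i * ∑ k', m k' * u i k' := by
  simp only [Finset.mul_sum]
  rw [Finset.sum_comm]
  have h1 : ∀ k', ∑ i, C k i * (m k' * u i k') = m k' * if k = k' then 1 else 0 := fun k' => by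
    rw [← hC.eq, Finset.mul_sum]
    exact Finset.sum_congr rfl fun i _ => by ring
  simp only [h1, mul_ite, mul_one, mul_zero]
  simp

/-- Divisors of the same class which agree on the cone are equal. -/
theorem Dual.linEquiv_unique {σ : Set ι} {C : Fin n → ι → ℤ} (hC : Dual u σ C) {α β : ι → ℤ}
    (h : LinEquiv u α β) (h0 : ∀ i ∈ σ, α i = β i) : α = β := by
  obtain ⟨m, hm⟩ := h
  have h1 : ∀ k, m k = 0 := fun k => by
    rw [hC.form m k]
    refine Finset.sum_eq_zero fun i _ => ?_
    by_cases hi : i ∈ σ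
    · have := hm i
      rw [h0 i hi] at this
      rw [show ∑ k', m k' * u i k' = 0 by linarith, mul_zero]
    · rw [hC.zero k i hi, zero_mul]
  funext i
  rw [hm i]
  simp [h1]

/-- The adjacent maximal cone. -/
theorem exists_adj (hS : IsSmoothFan u S) {σ : Set ι} (hσ : IsMax S σ) {l : ι} (hl : l ∈ σ) :
    ∃ τ, IsMax S τ ∧ l ∉ τ ∧ ∀ i ∈ σ, i ≠ l → i ∈ τ := by
  classical
  set σ' : Set ι := σ \ {l} with hσ'
  have hσ'S : σ' ∈ S := hS.face σ hσ.1 _ Set.sdiff_subset
  obtain ⟨N, a, ha, hsub, hw⟩ := star hS hσ'S fun k => -u l k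
  -- the vector is not in the cone `σ`
  have key : ∀ ρ : Set ι, {i | a i ≠ 0} ⊆ ρ → ρ ⊆ σ → False := by
    intro ρ h1 h2
    have h3 : (fun i => a i + if i = l then 1 else 0) = fun i => if i ∈ σ' then N else 0 := by
      refine rep_unique hS (hS.face _ hσ.1 _ fun i hi => ?_) (hS.face _ hσ'S _ fun i hi => ?_)
        fun k => ?_
      · by_cases h : i = l
        · rwa [h]
        · refine h2 (h1 fun h0 => hi ?_)
          simp [h0, h]
      · by_contra hc
        exact hi (if_neg hc)
      · have e1 : ∀ i, ((a i + if i = l then 1 else 0 : ℕ) : ℤ)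
            = a i + if i = l then (1 : ℤ) else 0 := fun i => by
          push_cast
          rfl
        have e2 : ∀ i, ((if i ∈ σ' then N else 0 : ℕ) : ℤ) = if i ∈ σ' then (N : ℤ) else 0 :=
          fun i => by split_ifs <;> rfl
        simp only [e1, e2, add_mul, Finset.sum_add_distrib, ite_mul, one_mul, zero_mul]
        rw [Finset.sum_ite_eq' Finset.univ l fun i => u i k, if_pos (Finset.mem_univ l), hw k]
        simp only [ite_mul, zero_mul]
        ring
    have h4 := congrFun h3 l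
    simp [hσ'] at h4
  obtain ⟨τ, hτ, hle⟩ := exists_max ha
  have hsub' : ∀ i ∈ σ, i ≠ l → i ∈ τ := fun i hi hne => hle (hsub ⟨hi, hne⟩)
  refine ⟨τ, hτ, fun hlτ => ?_, hsub'⟩
  have h1 : σ ⊆ τ := fun i hi => by
    by_cases h : i = l
    · rwa [h]
    · exact hsub' i hi h
  exact key τ hle (hσ.2 τ hτ.1 h1).le

/-- The number of the rays of a cone. -/
theorem card_le (hS : IsSmoothFan u S) {σ : Set ι} (hσ : IsMax S σ) [Fintype σ] :
    Fintype.card σ ≤ n := by
  classical
  obtain ⟨C, hC⟩ := exists_dual hS hσ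
  have hli : LinearIndependent ℤ fun i : σ => u i := by
    rw [Fintype.linearIndependent_iff]
    intro g hg l
    have h1 : ∀ k, ∑ i : σ, g i * u i k = 0 := fun k => by
      have := congrFun hg k
      simpa using this
    have h2 : ∑ i : σ, g i * ∑ k, C k l * u i k = 0 := by
      simp only [Finset.mul_sum]
      rw [Finset.sum_comm]
      refine Finset.sum_eq_zero fun k _ => ?_
      rw [← mul_zero (C k l), ← h1 k, Finset.mul_sum]
      exact Finset.sum_congr rfl fun i _ => by ring
    have h3 : ∀ i : σ, g i * ∑ k, C k l * u i k = if i = l then g i else 0 := fun i => by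
      split_ifs with h
      · rw [h, hC.one l l.2, mul_one]
      · rw [hC.dual i i.2 l fun e => h (Subtype.ext e.symm), mul_zero]
    simp only [h3] at h2
    simpa using h2
  simpa using hli.fintype_card_le_finrank

end Q47.FJ
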