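import Pool.Agent.Helper857.A1

/-!
# Entire functions and Fourier series
-/

set_option autoImplicit false

namespace Q47.FJ

open Filter Topology

section Entire

variable {V : Type*} [NormedAddCommGroup V] [NormedSpace ℂ V]

/-- `f` is an entire function which is not identically zero. -/
structure NZ (f : V → ℂ) : Prop where
  holo : Differentiable ℂ f
  ne : ∃ x, f x ≠ 0

theorem NZ.mul {f g : V → ℂ} (hf : NZ f) (hg : NZ g) : NZ fun x => f x * g x := by
  refine ⟨hf.holo.mul hg.holo, ?_⟩
  obtain ⟨a, ha⟩ := hf.ne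
  obtain ⟨b, hb⟩ := hg.ne
  by_contra hcon
  push Not at hcon
  have hline : Differentiable ℂ fun z : ℂ => a + z • (b - a) :=
    (differentiable_id.smul_const (b - a)).const_add a
  have h1 : AnalyticOnNhd ℂ (fun z : ℂ => f (a + z • (b - a))) Set.univ :=
    fun z _ => (hf.holo.comp hline).analyticAt z
  have h2 : AnalyticOnNhd ℂ (fun z : ℂ => g (a + z • (b - a))) Set.univ :=
    fun z _ => (hg.holo.comp hline).analyticAt z
  rcases AnalyticOnNhd.eq_zero_or_eq_zero_of_mul_eq_zero h1 h2 (fun z _ => hcon _)
    isPreconnected_univ with h | h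
  · apply ha
    have := h 0 (Set.mem_univ _)
    simpa using this
  · apply hb
    have := h 1 (Set.mem_univ _)
    simpa using this

theorem NZ.comp {f : V → ℂ} (hf : NZ f) {e : V → V} (he : Differentiable ℂ e)
    (hs : Function.Surjective e) : NZ fun x => f (e x) := by
  refine ⟨hf.holo.comp he, ?_⟩
  obtain ⟨a, ha⟩ := hf.ne
  obtain ⟨x, rfl⟩ := hs a
  exact ⟨x, ha⟩

/-- Cancellation. -/
theorem NZ.cancel {f g : V → ℂ} (hf : NZ f) (hg : Differentiable ℂ g)
    (h : ∀ x, g x * f x = 0) : ∀ x, g x = 0 := by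
  by_contra hcon
  push Not at hcon
  obtain ⟨x, hx⟩ := (NZ.mul ⟨hg, hcon⟩ hf).ne
  exact hx (h x)

/-- The identity theorem. -/
theorem entire_eq {f g : V → ℂ} (hf : Differentiable ℂ f) (hg : Differentiable ℂ g) {x : V}
    (h : ∀ᶠ y in 𝓝 x, f y = g y) : ∀ y, f y = g y := by
  intro y
  have hline : Differentiable ℂ fun z : ℂ => x + z • (y - x) :=
    (differentiable_id.smul_const (y - x)).const_add x
  have h1 : AnalyticOnNhd ℂ (fun z : ℂ => f (x + z • (y - x))) Set.univ :=
    fun z _ => (hf.comp hline).analyticAt z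
  have h2 : AnalyticOnNhd ℂ (fun z : ℂ => g (x + z • (y - x))) Set.univ :=
    fun z _ => (hg.comp hline).analyticAt z
  have h3 : Tendsto (fun z : ℂ => x + z • (y - x)) (𝓝 0) (𝓝 x) := by
    have := hline.continuous.tendsto 0
    simpa using this
  have h4 := h1.eqOn_of_preconnected_of_eventuallyEq h2 isPreconnected_univ (Set.mem_univ 0)
    (h3.eventually h)
  have := h4 (Set.mem_univ 1)
  simpa using this

end Entire

section Fourier

/-- The mean value of a character over the points `t / N`. -/
theorem mean_exp {N : ℕ} (hN : N ≠ 0) (n : ℤ) :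
    (∑ t ∈ Finset.range N, Complex.exp (2 * Real.pi * Complex.I * ((t : ℂ) / N * n))) / N
      = if (N : ℤ) ∣ n then 1 else 0 := by
  have hN' : (N : ℂ) ≠ 0 := by exact_mod_cast hN
  set ζ : ℂ := Complex.exp (2 * Real.pi * Complex.I * (n / N)) with hζ
  have h1 : ∀ t : ℕ, Complex.exp (2 * Real.pi * Complex.I * ((t : ℂ) / N * n)) = ζ ^ t := by
    intro t
    rw [hζ, ← Complex.exp_nat_mul]
    congr 1
    ring
  simp only [h1]
  split_ifs with h
  · obtain ⟨m, rfl⟩ := h
    have : ζ = 1 := by
      rw [hζ, Complex.exp_eq_one_iff]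
      refine ⟨m, ?_⟩
      push_cast
      field_simp
    simp [this, hN']
  · have hne : ζ ≠ 1 := by
      intro h0
      apply h
      rw [hζ, Complex.exp_eq_one_iff] at h0
      obtain ⟨m, hm⟩ := h0
      refine ⟨m, ?_⟩
      have h2 : (2 * Real.pi * Complex.I : ℂ) ≠ 0 := by simp [Real.pi_ne_zero]
      have h3 : (n : ℂ) / N = m := by
        refine mul_left_cancel₀ h2 ?_
        rw [hm]
        ring
      have h4 : (n : ℂ) = N * m := by
        rw [← h3]
        field_simp
      exact_mod_cast h4
    have h5 : ζ ^ N = 1 := by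
      rw [hζ, ← Complex.exp_nat_mul, Complex.exp_eq_one_iff]
      refine ⟨n, ?_⟩
      field_simp
    rw [geom_sum_eq hne, h5]
    simp

/-- The vanishing of the constant term of a vanishing Fourier series. -/
theorem fourier_zero {J T : Type*} [Fintype T] {c : J → ℂ} (hc : Summable fun j => ‖c j‖)
    (n : J → T → ℤ)
    (h : ∀ t : T → ℝ, ∑' j, c j * Complex.exp (2 * Real.pi * Complex.I *
      ∑ i, (t i : ℂ) * n j i) = 0) : ∑' j, (if n j = 0 then c j else 0) = 0 := by
  classical
  have h1 : ∀ N : ℕ, N ≠ 0 → ∑' j, c j * (if ∀ i, (N : ℤ) ∣ n j i then 1 else 0) = 0 := by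
    intro N hN
    have h2 : ∀ j, c j * (if ∀ i, (N : ℤ) ∣ n j i then (1 : ℂ) else 0) =
        (∑ t ∈ Fintype.piFinset fun _ : T => Finset.range N, c j * Complex.exp
          (2 * Real.pi * Complex.I * ∑ i, (((t i : ℝ) / N : ℝ) : ℂ) * n j i)) /
            N ^ Fintype.card T := by
      intro j
      rw [← Finset.mul_sum, mul_div_assoc]
      congr 1
      have h3 : ∀ t : T → ℕ, Complex.exp
          (2 * Real.pi * Complex.I * ∑ i, (((t i : ℝ) / N : ℝ) : ℂ) * n j i) =
          ∏ i, Complex.exp (2 * Real.pi * Complex.I * ((t i : ℂ) / N * n j i)) := by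
        intro t
        rw [← Complex.exp_sum, Finset.mul_sum]
        congr 1
        refine Finset.sum_congr rfl fun i _ => ?_
        push_cast
        ring
      simp only [h3]
      rw [← Finset.prod_univ_sum (fun _ : T => Finset.range N)
        fun i t => Complex.exp (2 * Real.pi * Complex.I * ((t : ℂ) / N * n j i))]
      have h4 : (N : ℂ) ^ Fintype.card T = ∏ _i : T, (N : ℂ) := by
        rw [Finset.prod_const, Finset.card_univ]
      rw [h4, ← Finset.prod_div_distrib]
      simp only [mean_exp hN]
      by_cases h5 : ∀ i, (N : ℤ) ∣ n j i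
      · rw [if_pos h5]
        exact (Finset.prod_eq_one fun i _ => if_pos (h5 i)).symm
      · rw [if_neg h5]
        push Not at h5
        obtain ⟨i, hi⟩ := h5
        exact (Finset.prod_eq_zero (Finset.mem_univ i) (if_neg hi)).symm
    simp only [h2]
    rw [tsum_div_const, Summable.tsum_finsetSum]
    · rw [Finset.sum_eq_zero fun t _ => h fun i => (t i : ℝ) / N, zero_div]
    · intro t _
      refine Summable.of_norm (hc.congr fun j => ?_)
      rw [norm_mul]
      have h3 : (2 * Real.pi * Complex.I * ∑ i, (((t i : ℝ) / N : ℝ) : ℂ) * n j i : ℂ)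
          = ((2 * Real.pi * ∑ i, ((t i : ℝ) / N) * n j i : ℝ) : ℂ) * Complex.I := by
        push_cast
        ring
      rw [h3, Complex.norm_exp_ofReal_mul_I, mul_one]
  have h2 : Tendsto (fun N : ℕ => ∑' j, c j * (if ∀ i, (N : ℤ) ∣ n j i then (1 : ℂ) else 0))
      atTop (𝓝 (∑' j, (if n j = 0 then c j else 0))) := by
    refine tendsto_tsum_of_dominated_convergence hc (fun j => ?_)
      (Filter.Eventually.of_forall fun N j => ?_)
    · refine tendsto_const_nhds.congr' ?_
      by_cases h0 : n j = 0
      · refine Filter.Eventually.of_forall fun N => ?_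
        simp [h0]
      · have h3 : ∃ i, n j i ≠ 0 := by
          by_contra hcon
          push Not at hcon
          exact h0 (funext hcon)
        obtain ⟨i, hi⟩ := h3
        filter_upwards [eventually_gt_atTop (n j i).natAbs] with N hN
        rw [if_neg h0, if_neg, mul_zero]
        intro h4
        have h5 := Int.natAbs_dvd_natAbs.2 (h4 i)
        rw [Int.natAbs_natCast] at h5
        exact absurd (Nat.le_of_dvd (Int.natAbs_pos.2 hi) h5) (not_le.2 hN)
    · rw [norm_mul]
      refine mul_le_of_le_one_right (norm_nonneg _) ?_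
      split_ifs
      · rw [norm_one]
      · rw [norm_zero]
        exact zero_le_one
  have h3 : Tendsto (fun N : ℕ => ∑' j, c j * (if ∀ i, (N : ℤ) ∣ n j i then (1 : ℂ) else 0))
      atTop (𝓝 0) := by
    refine tendsto_const_nhds.congr' ?_
    filter_upwards [eventually_ne_atTop 0] with N hN
    exact (h1 N hN).symm
  exact tendsto_nhds_unique h2 h3

end Fourier

end Q47.FJ
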