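import Pool.Agent.Q47.FJ.DefsT
import Pool.Agent.Q47.FJ.Sec
import Pool.Agent.Q47.FJ.T1
import Pool.Agent.Y167.Theta

/-!
# Line bundles on complex tori
-/

set_option autoImplicit false

namespace Q47.FJ

open Pool.Agent.W594.SYZ2 Pool.Agent.W594.SYZ2.TQ

variable {V : Type*} [NormedAddCommGroup V] [NormedSpace ℂ V] {Λ : AddSubgroup V}
  {H H' : V → V → ℂ}

theorem IsHermitian.add (hH : IsHermitian H) (hH' : IsHermitian H') :
    IsHermitian fun v w => H v w + H' v w where
  add_left u v w := by rw [hH.add_left, hH'.add_left]; ring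
  smul_left a v w := by rw [hH.smul_left, hH'.smul_left]; ring
  symm v w := by rw [hH.symm v w, hH'.symm v w, map_add]

theorem IsHermitian.neg (hH : IsHermitian H) : IsHermitian fun v w => -H v w where
  add_left u v w := by rw [hH.add_left]; ring
  smul_left a v w := by rw [hH.smul_left]; ring
  symm v w := by rw [hH.symm v w, map_neg]

theorem IsHermitian.nsmul (hH : IsHermitian H) (N : ℕ) : IsHermitian fun v w => N * H v w where
  add_left u v w := by rw [hH.add_left]; ring
  smul_left a v w := by rw [hH.smul_left]; ring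
  symm v w := by rw [hH.symm v w, map_mul, map_natCast]

theorem IsHermitian.zero : IsHermitian fun _ _ : V => (0 : ℂ) where
  add_left _ _ _ := (add_zero 0).symm
  smul_left a _ _ := (mul_zero a).symm
  symm _ _ := (map_zero _).symm

theorem IsChern.one : IsChern (1 : LB (torus Λ)) fun _ _ => 0 := by
  refine ⟨IsHermitian.zero, fun _ => 0, differentiable_const _, fun b z => ?_⟩
  rw [ev_one]
  simp

theorem IsChern.mul {M N : LB (torus Λ)} (hM : IsChern M H) (hN : IsChern N H') :
    IsChern (M * N) fun v w => H v w + H' v w := by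
  obtain ⟨h1, F, hF, hM⟩ := hM
  obtain ⟨h2, F', hF', hN⟩ := hN
  refine ⟨IsHermitian.add h1 h2, fun z => F z + F' z, hF.add hF', fun b z => ?_⟩
  rw [ev_mul, norm_mul, mul_pow, hM, hN, ← Real.exp_add]
  congr 1
  simp only [Complex.add_re]
  ring

theorem IsChern.inv {M : LB (torus Λ)} (hM : IsChern M H) :
    IsChern M⁻¹ fun v w => -H v w := by
  obtain ⟨h1, F, hF, hM⟩ := hM
  refine ⟨IsHermitian.neg h1, fun z => -F z, hF.neg, fun b z => ?_⟩
  rw [ev_inv, norm_inv, inv_pow, hM, ← Real.exp_neg]
  congr 1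
  simp only [Complex.neg_re]
  ring

theorem IsChern.pow {M : LB (torus Λ)} (hM : IsChern M H) (N : ℕ) :
    IsChern (M ^ N) fun v w => N * H v w := by
  obtain ⟨h1, F, hF, hM⟩ := hM
  refine ⟨IsHermitian.nsmul h1 N, fun z => N * F z, hF.const_mul _, fun b z => ?_⟩
  rw [ev_pow, norm_pow, pow_right_comm, hM, ← Real.exp_nat_mul]
  congr 1
  simp only [Complex.mul_re, Complex.natCast_re, Complex.natCast_im, zero_mul, sub_zero]
  ring

/-- The group of the line bundles on the torus which have a Chern form. -/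
def cpic (Λ : AddSubgroup V) : Subgroup (LB (torus Λ)) where
  carrier := {M | ∃ H, IsChern M H}
  one_mem' := ⟨_, IsChern.one⟩
  mul_mem' := by
    rintro M N ⟨H, hM⟩ ⟨H', hN⟩
    exact ⟨_, hM.mul hN⟩
  inv_mem' := by
    rintro M ⟨H, hM⟩
    exact ⟨_, hM.inv⟩

/-- The exponent of the factor of automorphy. -/
noncomputable def lex (H : V → V → ℂ) (b z : V) : ℂ := Real.pi * H z b + Real.pi / 2 * H b b

/-- `χ` is a semicharacter for `H`. -/
structure Semi (Λ : AddSubgroup V) (H : V → V → ℂ) (χ : Λ → ℂ) : Prop where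
  norm : ∀ b, ‖χ b‖ = 1
  add : ∀ b c : Λ, χ (b + c) = χ b * χ c * Complex.exp (Real.pi / 2 * (H b c - H c b))

/-- Theta functions. -/
structure IsTh (Λ : AddSubgroup V) (H : V → V → ℂ) (χ : Λ → ℂ) (s : V → ℂ) : Prop where
  holo : Differentiable ℂ s
  eq : ∀ (b : Λ) (z : V), s (z + b) = χ b * Complex.exp (lex H b z) * s z

/-- The cocycle relation. -/
theorem ev_add (M : LB (torus Λ)) (b c : Λ) (z : V) :
    ev M (b + c) z = ev M c (z + b) * ev M b z := by
  have h1 := M.2.2 b c (b + c) z (Set.mem_univ _) (Set.mem_univ _) (Set.mem_univ _) rfl rfl rfl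
    (add_assoc z (b : V) (c : V)).symm
  have h2 := congrArg (fun x : ℂˣ => (x : ℂ)) h1
  rw [Units.val_mul] at h2
  exact h2

theorem ev_holo (M : LB (torus Λ)) (b : Λ) : Differentiable ℂ fun z => ev M b z :=
  differentiableOn_univ.1 (M.2.1 b)

theorem herm_holo [FiniteDimensional ℂ V] (hH : IsHermitian H) (b : V) :
    Differentiable ℂ fun z => H z b :=
  (LinearMap.toContinuousLinearMap (hl hH b)).differentiable

/-- The normal form of the line bundles. -/
theorem normal [FiniteDimensional ℂ V] {M : LB (torus Λ)} (hM : IsChern M H) : ∃ (χ : Λ → ℂ) (F : V → ℂ),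
    Semi Λ H χ ∧ Differentiable ℂ F ∧ ∀ (b : Λ) (z : V),
      ev M b z = χ b * Complex.exp (lex H b z) * Complex.exp (F (z + b) - F z) := by
  obtain ⟨hH, F, hF, hM⟩ := hM
  set g : Λ → V → ℂ := fun b z => ev M b z * Complex.exp (-(lex H b z + (F (z + b) - F z)))
    with hg
  have hg1 : ∀ b, Differentiable ℂ (g b) := fun b => by
    have h1 : Differentiable ℂ fun z => lex H b z := ((herm_holo hH b).const_mul _).add_const _
    have h2 : Differentiable ℂ fun z : V => F (z + b) := hF.comp (differentiable_id.add_const _)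
    exact (ev_holo M b).mul (h1.add (h2.sub hF)).neg.cexp
  have hg2 : ∀ b z, ‖g b z‖ = 1 := fun b z => by
    have h1 : ‖g b z‖ ^ 2 = 1 := by
      rw [hg]
      simp only [norm_mul, mul_pow]
      rw [hM, Complex.norm_exp, ← Real.exp_nat_mul, ← Real.exp_add, Real.exp_eq_one_iff]
      rw [h_diag_add hH, lex]
      have h2 : (Real.pi / 2 * H (b : V) b : ℂ) = ((Real.pi / 2 : ℝ) : ℂ) * H (b : V) b := by
        push_cast
        ring
      simp only [Complex.neg_re, Complex.add_re, Complex.sub_re, h2, Complex.re_ofReal_mul]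
      push_cast
      ring
    have h2 : (‖g b z‖ - 1) * (‖g b z‖ + 1) = 0 := by linear_combination h1
    rcases mul_eq_zero.1 h2 with h | h
    · linarith
    · have := norm_nonneg (g b z)
      linarith
  have hg3 : ∀ b z, g b z = g b 0 := fun b z => by
    refine (hg1 b).apply_eq_apply_of_bounded ?_ z 0
    refine (Metric.isBounded_closedBall (x := (0 : ℂ)) (r := 1)).subset ?_
    rintro _ ⟨z, rfl⟩
    rw [mem_closedBall_zero_iff, hg2]
  have hev : ∀ (b : Λ) (z : V), ev M b z = g b 0 * Complex.exp (lex H b z) *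
      Complex.exp (F (z + b) - F z) := fun b z => by
    rw [← hg3 b z, hg]
    simp only
    rw [mul_assoc, mul_assoc, ← Complex.exp_add, ← Complex.exp_add,
      show -(lex H b z + (F (z + b) - F z)) + (lex H b z + (F (z + b) - F z)) = 0 by ring,
      Complex.exp_zero, mul_one]
  refine ⟨fun b => g b 0, F, ⟨fun b => hg2 b 0, fun b c => ?_⟩, hF, hev⟩
  have h1 := ev_add M b c 0
  rw [hev, hev, hev] at h1
  have h3 : ((b + c : Λ) : V) = b + c := rfl
  have h4 : (0 : V) + (b + c) = 0 + b + c := (add_assoc _ _ _).symm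
  rw [h3, h4] at h1
  have h5 : lex H (c : V) (0 + b) + lex H (b : V) 0
      = Real.pi / 2 * (H (b : V) c - H (c : V) b) + lex H ((b : V) + c) 0 := by
    simp only [lex, zero_add, h_zero_left hH, hH.add_left, h_add_right hH]
    ring
  have e1 := Complex.exp_ne_zero (lex H ((b : V) + c) 0 + (F (0 + b + c) - F 0))
  have e2 : Complex.exp (lex H (c : V) (0 + b)) * Complex.exp (F (0 + b + c) - F (0 + b)) *
      (Complex.exp (lex H (b : V) 0) * Complex.exp (F (0 + b) - F 0)) =
      Complex.exp (Real.pi / 2 * (H (b : V) c - H (c : V) b)) *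
        Complex.exp (lex H ((b : V) + c) 0 + (F (0 + b + c) - F 0)) := by
    simp only [← Complex.exp_add]
    congr 1
    linear_combination h5
  refine mul_right_cancel₀ e1 ?_
  rw [Complex.exp_add] at e2 ⊢
  linear_combination h1 + g c 0 * g b 0 * e2

omit [NormedSpace ℂ V] in
/-- The semicharacter determines the symplectic form on the lattice modulo `2`. -/
theorem Semi.symm {χ : Λ → ℂ} (hχ : Semi Λ H χ) (b c : Λ) :
    Complex.exp (Real.pi * (H (b : V) c - H (c : V) b)) = 1 := by
  have h1 := hχ.add b c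
  have h2 := hχ.add c b
  rw [add_comm c b, h1] at h2
  have h3 : χ b ≠ 0 := fun h => by
    have := hχ.norm b
    rw [h, norm_zero] at this
    exact zero_ne_one this
  have h4 : χ c ≠ 0 := fun h => by
    have := hχ.norm c
    rw [h, norm_zero] at this
    exact zero_ne_one this
  have h5 : Complex.exp (Real.pi / 2 * (H (b : V) c - H (c : V) b))
      = Complex.exp (Real.pi / 2 * (H (c : V) b - H (b : V) c)) := by
    refine mul_left_cancel₀ (mul_ne_zero h3 h4) ?_
    linear_combination h2
  have h6 : (Real.pi * (H (b : V) c - H (c : V) b) : ℂ)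
      = Real.pi / 2 * (H (b : V) c - H (c : V) b) - Real.pi / 2 * (H (c : V) b - H (b : V) c) := by
    ring
  rw [h6, Complex.exp_sub, h5, div_self (Complex.exp_ne_zero _)]

theorem Semi.zero {χ : Λ → ℂ} (hχ : Semi Λ H χ) (hH : IsHermitian H) : χ 0 = 1 := by
  have h1 := hχ.add 0 0
  rw [add_zero] at h1
  have h2 : ((0 : Λ) : V) = 0 := rfl
  rw [h2, h_zero_left hH, sub_self, mul_zero, Complex.exp_zero, mul_one] at h1
  have h3 : χ 0 ≠ 0 := fun h => by
    have := hχ.norm 0
    rw [h, norm_zero] at this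
    exact zero_ne_one this
  exact (mul_left_cancel₀ h3 (by rw [mul_one]; exact h1)).symm

end Q47.FJ
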