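import Pool.Agent.Q47.FJ.T2
import Pool.Agent.Y167.Eff

/-!
# The kernel function of a positive line bundle on a complex torus
-/

set_option autoImplicit false

namespace Q47.FJ

open Pool.Agent.W594.SYZ2 Pool.Agent.W594.SYZ2.TQ Pool.Agent.Y167

variable {V : Type*} [NormedAddCommGroup V] [NormedSpace ℂ V] {Λ : AddSubgroup V}
  {H : V → V → ℂ} {χ : Λ → ℂ}

/-- The terms of the kernel function. -/
noncomputable def kt (H : V → V → ℂ) (χ : Λ → ℂ) (w : V) (b : Λ) (v : V) : ℂ :=
  χ b * Complex.exp (-(Real.pi * H b w)) * tht H b v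

/-- The kernel function. -/
noncomputable def kn (H : V → V → ℂ) (χ : Λ → ℂ) (w v : V) : ℂ :=
  Complex.exp (Real.pi * H v w) * ∑' b : Λ, kt H χ w b v

theorem kt_norm (hH : IsHermitian H) (hχ : Semi Λ H χ) (w : V) (b : Λ) (v : V) :
    ‖kt H χ w b v‖ = ‖tht H b (v - w)‖ := by
  rw [kt, norm_mul, norm_mul, hχ.norm, one_mul, tht, tht, ← norm_mul, ← Complex.exp_add,
    Complex.norm_exp, Complex.norm_exp, h_sub_left hH]
  congr 1
  simp only [Complex.add_re, Complex.neg_re, Complex.sub_re, Complex.re_ofReal_mul]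
  rw [h_re_symm hH w b]
  ring

variable [FiniteDimensional ℂ V]

theorem good (hd : DiscreteTopology Λ) (hH : IsHermitian H) (hp : IsPositiveForm H) :
    Good H Λ := by
  refine ⟨hH, hd, ?_⟩
  obtain ⟨c, hc, h⟩ := coercive hH ⊤ fun v _ hv => hp v hv
  exact ⟨c, hc, fun w _ => h w Submodule.mem_top⟩

theorem kt_summable (hd : DiscreteTopology Λ) (hH : IsHermitian H) (hp : IsPositiveForm H)
    (hχ : Semi Λ H χ) (w v : V) : Summable fun b => ‖kt H χ w b v‖ := by
  obtain ⟨u, hu, hb⟩ := (good hd hH hp).bound (‖v - w‖ + 1) (by positivity)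
  refine Summable.of_nonneg_of_le (fun _ => norm_nonneg _) (fun b => ?_) hu
  rw [kt_norm hH hχ]
  exact (hb b _ (by linarith)).1

theorem kn_holo (hd : DiscreteTopology Λ) (hH : IsHermitian H) (hp : IsPositiveForm H)
    (hχ : Semi Λ H χ) (w : V) : Differentiable ℂ (kn H χ w) := by
  have h0 : Differentiable ℂ fun v : V => Complex.exp (Real.pi * H v w) :=
    ((herm_holo hH w).const_mul _).cexp
  refine h0.mul fun x => ?_
  obtain ⟨u, hu, hb⟩ := (good hd hH hp).bound (‖x - w‖ + 1) (by positivity)
  have h1 := hasFDerivAt_tsum_of_isPreconnected (f := fun (b : Λ) (x : V) => kt H χ w b x)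
    (f' := fun (b : Λ) (x : V) =>
      kt H χ w b x • ((Real.pi : ℂ) • LinearMap.toContinuousLinearMap (hl hH (b : V))))
    hu (s := Metric.ball w (‖x - w‖ + 1)) Metric.isOpen_ball
    (convex_ball w _).isPreconnected (fun b y _ => ?_)
    (fun b y hy => ?_) (x₀ := w) (x := x)
    (Metric.mem_ball_self (by positivity)) (kt_summable hd hH hp hχ w w).of_norm
    (by rw [mem_ball_iff_norm]; linarith)
  · exact h1.differentiableAt
  · have h2 : HasFDerivAt (fun y : V => (Real.pi : ℂ) * H y b - Real.pi / 2 * H (b : V) b)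
        ((Real.pi : ℂ) • LinearMap.toContinuousLinearMap (hl hH (b : V))) y := by
      have h3 : HasFDerivAt (fun y : V => H y b)
          (LinearMap.toContinuousLinearMap (hl hH (b : V))) y :=
        (LinearMap.toContinuousLinearMap (hl hH (b : V))).hasFDerivAt
      exact (h3.const_mul (Real.pi : ℂ)).sub_const _
    have h4 := h2.cexp.const_mul (χ b * Complex.exp (-(Real.pi * H b w)))
    rw [smul_smul] at h4
    exact h4
  · have h2 : ‖y - w‖ < ‖x - w‖ + 1 := by rwa [mem_ball_iff_norm] at hy
    have h3 := (hb b (y - w) h2).2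
    rw [norm_smul] at h3 ⊢
    rw [kt_norm hH hχ]
    exact h3

/-- The kernel function is a theta function. -/
theorem kn_th (hd : DiscreteTopology Λ) (hH : IsHermitian H) (hp : IsPositiveForm H)
    (hχ : Semi Λ H χ) (w : V) : IsTh Λ H χ (kn H χ w) := by
  refine ⟨kn_holo hd hH hp hχ w, fun c z => ?_⟩
  rw [kn, kn, ← tsum_mul_left, ← tsum_mul_left, ← (Equiv.addRight c).tsum_eq, ← tsum_mul_left]
  refine tsum_congr fun b => ?_
  have h1 : (((Equiv.addRight c) b : Λ) : V) = b + c := rfl
  have h2 : (Equiv.addRight c) b = b + c := rfl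
  rw [kt, kt, h1, h2, hχ.add b c]
  have h3 : Complex.exp (Real.pi * H (z + c) w) * (Complex.exp (Real.pi / 2 * (H b c - H c b)) *
      Complex.exp (-(Real.pi * H (b + c) w)) * tht H (b + c) (z + c)) =
      Complex.exp (lex H c z) * (Complex.exp (Real.pi * H z w) *
        (Complex.exp (-(Real.pi * H b w)) * tht H b z)) := by
    simp only [tht, lex, ← Complex.exp_add]
    congr 1
    simp only [hH.add_left, h_add_right hH]
    ring
  linear_combination χ b * χ c * h3

/-- The kernel function at the diagonal. -/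
theorem kn_diag (hH : IsHermitian H) (u v : V) : kn H χ v (v + u) =
    Complex.exp (Real.pi * (H v v + H u v)) * ∑' b : Λ,
      χ b * Complex.exp (Real.pi * H u b - Real.pi / 2 * H (b : V) b) *
        Complex.exp (2 * Real.pi * Complex.I * (H v b).im) := by
  rw [kn, hH.add_left]
  congr 1
  refine tsum_congr fun b => ?_
  have h1 : H v b - H (b : V) v = 2 * Complex.I * (H v b).im := by
    rw [hH.symm v b]
    apply Complex.ext
    · simp
    · simp
      ring
  rw [kt, tht, mul_assoc, mul_assoc, ← Complex.exp_add, ← Complex.exp_add]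
  congr 2
  rw [hH.add_left]
  linear_combination (Real.pi : ℂ) * h1

end Q47.FJ
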