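import Pool.Agent.Q47.FJ.T3

/-!
# Translations of theta functions
-/

set_option autoImplicit false

namespace Q47.FJ

open Pool.Agent.W594.SYZ2 Pool.Agent.W594.SYZ2.TQ Pool.Agent.Y167

variable {V : Type*} [NormedAddCommGroup V] [NormedSpace ℂ V] {Λ : AddSubgroup V}
  {H : V → V → ℂ} {χ : Λ → ℂ}

/-- The symplectic form is integral on the lattice. -/
theorem Semi.int (hH : IsHermitian H) (hχ : Semi Λ H χ) (b c : Λ) :
    ∃ n : ℤ, (H (b : V) c).im = n := by
  have h1 := hχ.symm b c
  rw [Complex.exp_eq_one_iff] at h1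
  obtain ⟨n, hn⟩ := h1
  refine ⟨n, ?_⟩
  have h2 := congrArg Complex.im hn
  have h3 : ((n : ℂ) * (2 * Real.pi * Complex.I)) = ((n * (2 * Real.pi) : ℝ) : ℂ) * Complex.I := by
    push_cast
    ring
  rw [Complex.im_ofReal_mul, Complex.sub_im, h_im_symm hH (b : V) c, h3, Complex.im_ofReal_mul,
    Complex.I_im, mul_one] at h2
  have h4 : Real.pi ≠ 0 := Real.pi_ne_zero
  refine mul_left_cancel₀ (mul_ne_zero two_ne_zero h4) ?_
  linarith

omit [NormedSpace ℂ V] in
theorem re_smul_eq [NormedSpace ℂ V] (hH : IsHermitian H) (t : ℝ) (v w : V) :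
    (H (t • v) w).im = t * (H v w).im := by
  rw [← Complex.coe_smul, hH.smul_left, Complex.im_ofReal_mul]

variable [FiniteDimensional ℂ V]

/-- The vanishing of the constant term. -/
theorem four (hs : Submodule.span ℝ (Λ : Set V) = ⊤) (hH : IsHermitian H)
    (hp : IsPositiveForm H) {J : Type*} {c : J → ℂ} (hc : Summable fun j => ‖c j‖) (g : J → V)
    (hg : ∀ j, ∀ b ∈ Λ, ∃ n : ℤ, (H b (g j)).im = n)
    (h : ∀ v, ∑' j, c j * Complex.exp (2 * Real.pi * Complex.I * (H v (g j)).im) = 0)
    [∀ j, Decidable (g j = 0)] : ∑' j, (if g j = 0 then c j else 0) = 0 := by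
  classical
  have : FiniteDimensional ℝ V := FiniteDimensional.complexToReal V
  obtain ⟨t, ht, hspan, hli⟩ := exists_linearIndependent ℝ (Λ : Set V)
  have : Finite t := hli.finite
  have : Fintype t := Fintype.ofFinite t
  choose n hn using fun (j : J) (i : t) => hg j i (ht i.2)
  have h0 : ∀ j, n j = 0 ↔ g j = 0 := by
    intro j
    constructor
    · intro hnj
      have h1 : ∀ v, (H v (g j)).im = 0 := by
        intro v
        have hv : v ∈ Submodule.span ℝ t := by rw [hspan, hs]; trivial
        induction hv using Submodule.span_induction with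
        | mem x hx =>
          rw [hn j ⟨x, hx⟩, hnj]
          simp
        | zero => rw [h_zero_left hH, Complex.zero_im]
        | add x y _ _ hx hy => rw [hH.add_left, Complex.add_im, hx, hy, add_zero]
        | smul a x _ hx => rw [re_smul_eq hH, hx, mul_zero]
      by_contra hne
      have h2 := h1 (Complex.I • g j)
      rw [hH.smul_left, Complex.I_mul_im] at h2
      exact (hp _ hne).ne' h2
    · intro hgj
      funext i
      have := hn j i
      rw [hgj, h_zero_right hH, Complex.zero_im] at this
      exact_mod_cast this.symm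
  have h2 := fourier_zero hc n fun s => by
    rw [← h (∑ i, s i • (i : V))]
    refine tsum_congr fun j => ?_
    congr 3
    have h3 : (H (∑ i, s i • (i : V)) (g j)).im = ∑ i, s i * n j i := by
      have h4 : ∀ F : Finset t, (H (∑ i ∈ F, s i • (i : V)) (g j)).im
          = ∑ i ∈ F, s i * n j i := by
        intro F
        induction F using Finset.induction_on with
        | empty => rw [Finset.sum_empty, Finset.sum_empty, h_zero_left hH, Complex.zero_im]
        | insert i F hi ih =>
          rw [Finset.sum_insert hi, Finset.sum_insert hi, hH.add_left, Complex.add_im, ih,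
            re_smul_eq hH, hn j i]
      exact h4 Finset.univ
    rw [h3]
    push_cast
    rfl
  refine Eq.trans (tsum_congr fun j => ?_) h2
  by_cases hj : g j = 0
  · rw [if_pos hj, if_pos ((h0 j).2 hj)]
  · rw [if_neg hj, if_neg fun h' => hj ((h0 j).1 h')]


omit [FiniteDimensional ℂ V] in
theorem kt_zero (hH : IsHermitian H) (χ : Λ → ℂ) (u : V) (b : Λ) : kt H χ 0 b u =
    χ b * Complex.exp (Real.pi * H u b - Real.pi / 2 * H (b : V) b) := by
  rw [kt, h_zero_right hH, mul_zero, neg_zero, Complex.exp_zero, mul_one]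
  rfl

theorem sum_kt (hd : DiscreteTopology Λ) (hH : IsHermitian H) (hp : IsPositiveForm H)
    (hχ : Semi Λ H χ) (u : V) : Summable fun b : Λ =>
      ‖χ b * Complex.exp (Real.pi * H u b - Real.pi / 2 * H (b : V) b)‖ := by
  simpa only [kt_zero hH χ u] using kt_summable hd hH hp hχ 0 u

/-- There are theta functions. -/
theorem exists_th (hd : DiscreteTopology Λ) (hs : Submodule.span ℝ (Λ : Set V) = ⊤)
    (hH : IsHermitian H) (hp : IsPositiveForm H) (hχ : Semi Λ H χ) :
    ∃ s, IsTh Λ H χ s ∧ NZ s := by
  classical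
  by_contra hcon
  push Not at hcon
  have h1 : ∀ w v, kn H χ w v = 0 := fun w v => by
    by_contra hne
    exact hcon _ (kn_th hd hH hp hχ w) ⟨kn_holo hd hH hp hχ w, v, hne⟩
  have h2 := four hs hH hp (J := Λ) (c := fun b : Λ =>
    χ b * Complex.exp (Real.pi * H 0 b - Real.pi / 2 * H (b : V) b))
    (sum_kt hd hH hp hχ 0)
    (fun b => (b : V)) (fun b c hc => hχ.int hH ⟨c, hc⟩ b) fun v => by
      have h3 := h1 v (v + 0)
      rw [kn_diag hH] at h3
      exact (mul_eq_zero.1 h3).resolve_left (Complex.exp_ne_zero _)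
  refine absurd h2 ?_
  rw [tsum_eq_single (0 : Λ)]
  · simp [hχ.zero hH, h_zero_left hH]
  · intro b hb
    exact if_neg fun h0 => hb (Subtype.ext h0)

/-- A translation which acts as a scalar on the kernel functions is trivial. -/
theorem mem_of_trans (hd : DiscreteTopology Λ) (hs : Submodule.span ℝ (Λ : Set V) = ⊤)
    (hH : IsHermitian H) (hp : IsPositiveForm H) (hχ : Semi Λ H χ) {u : V}
    (hu : ∀ b ∈ Λ, ∃ n : ℤ, (H b u).im = n) {C : ℂ}
    (h : ∀ v, kn H χ v (v + u) = C * Complex.exp (Real.pi * H v u) * kn H χ v v) : u ∈ Λ := by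
  classical
  by_contra hne
  set c₁ : V → Λ → ℂ := fun u b =>
    χ b * Complex.exp (Real.pi * H u b - Real.pi / 2 * H (b : V) b) with hc₁
  set c : Λ ⊕ Λ → ℂ := Sum.elim (c₁ u) (fun b => -C * c₁ 0 b) with hc
  set g : Λ ⊕ Λ → V := Sum.elim (fun b => b) (fun b => b + u) with hg
  have hsum : ∀ u : V, Summable fun b : Λ => ‖c₁ u b‖ := fun u => sum_kt hd hH hp hχ u
  have hsumc : Summable fun j => ‖c j‖ := by
    refine Summable.sum _ (hsum u) ?_
    refine ((hsum 0).mul_left ‖C‖).congr fun b => ?_
    simp [hc]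
  have h2 := four hs hH hp (J := Λ ⊕ Λ) (c := c) hsumc g ?_ ?_
  · refine absurd h2 ?_
    rw [tsum_eq_single (Sum.inl 0)]
    · rw [if_pos (show g (Sum.inl 0) = 0 from rfl)]
      change c₁ u 0 ≠ 0
      simp [hc₁, hχ.zero hH, h_zero_left hH, h_zero_right hH]
    · rintro (b | b) hb
      · refine if_neg fun h0 => hb ?_
        rw [show b = 0 from Subtype.ext h0]
      · refine if_neg fun h0 => hne ?_
        have h3 : (b : V) + u = 0 := h0
        rw [← neg_eq_of_add_eq_zero_right h3]
        exact Λ.neg_mem b.2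
  · rintro (b | b) b' hb'
    · exact hχ.int hH ⟨b', hb'⟩ b
    · obtain ⟨n, hn⟩ := hχ.int hH ⟨b', hb'⟩ b
      obtain ⟨m, hm⟩ := hu b' hb'
      refine ⟨n + m, ?_⟩
      change (H b' (b + u)).im = _
      rw [h_add_right hH, Complex.add_im, hm]
      push_cast
      rw [← hn]
  · intro v
    have hphase : ∀ (r : ℝ), ‖Complex.exp (2 * Real.pi * Complex.I * r)‖ = 1 := fun r => by
      have h3 : (2 * Real.pi * Complex.I * r : ℂ) = ((2 * Real.pi * r : ℝ) : ℂ) * Complex.I := by
        push_cast
        ring
      rw [h3, Complex.norm_exp_ofReal_mul_I]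
    have hsumF : ∀ (u : V) (r : Λ → ℝ),
        Summable fun b => c₁ u b * Complex.exp (2 * Real.pi * Complex.I * r b) := fun u r => by
      refine Summable.of_norm ((hsum u).congr fun b => ?_)
      rw [norm_mul (c₁ u b), hphase, mul_one]
    have h3 := h v
    have h4 := kn_diag (χ := χ) hH u v
    have h5 := kn_diag (χ := χ) hH 0 v
    rw [add_zero, h_zero_left hH, add_zero] at h5
    rw [h4, h5] at h3
    have h6 : H v u - H u v = 2 * Complex.I * (H v u).im := by
      rw [hH.symm v u]
      apply Complex.ext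
      · simp
      · simp
        ring
    have h7 : Complex.exp (Real.pi * H v u) * Complex.exp (Real.pi * H v v) =
        Complex.exp (Real.pi * (H v v + H u v)) *
          Complex.exp (2 * Real.pi * Complex.I * (H v u).im) := by
      rw [← Complex.exp_add, ← Complex.exp_add]
      congr 1
      linear_combination (Real.pi : ℂ) * h6
    have h8 : ∑' b, c₁ u b * Complex.exp (2 * Real.pi * Complex.I * (H v b).im) =
        C * (Complex.exp (2 * Real.pi * Complex.I * (H v u).im) *
          ∑' b, c₁ 0 b * Complex.exp (2 * Real.pi * Complex.I * (H v b).im)) := by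
      refine mul_left_cancel₀ (Complex.exp_ne_zero (Real.pi * (H v v + H u v))) ?_
      refine h3.trans ?_
      linear_combination C * (∑' b, c₁ 0 b *
        Complex.exp (2 * Real.pi * Complex.I * (H v b).im)) * h7
    have h9 : ∀ b : Λ, -C * c₁ 0 b * Complex.exp (2 * Real.pi * Complex.I * (H v (b + u)).im) =
        -(C * Complex.exp (2 * Real.pi * Complex.I * (H v u).im)) *
          (c₁ 0 b * Complex.exp (2 * Real.pi * Complex.I * (H v b).im)) := by
      intro b
      rw [h_add_right hH, Complex.add_im]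
      have : (2 * Real.pi * Complex.I * (((H v b).im + (H v u).im : ℝ) : ℂ) : ℂ) =
          2 * Real.pi * Complex.I * (H v u).im + 2 * Real.pi * Complex.I * (H v b).im := by
        push_cast
        ring
      rw [this, Complex.exp_add]
      ring
    rw [Summable.tsum_sum]
    · change ∑' b, c₁ u b * Complex.exp (2 * Real.pi * Complex.I * (H v b).im) +
        ∑' b : Λ, -C * c₁ 0 b * Complex.exp (2 * Real.pi * Complex.I * (H v (b + u)).im) = 0
      simp only [h9]
      rw [tsum_mul_left, h8]
      ring
    · exact hsumF u fun b => (H v b).im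
    · change Summable fun b : Λ =>
        -C * c₁ 0 b * Complex.exp (2 * Real.pi * Complex.I * (H v (b + u)).im)
      simp only [h9]
      exact (hsumF 0 fun b => (H v b).im).mul_left _

end Q47.FJ
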