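import Pool.Agent.Q47.FJ.T4

/-!
# Ample line bundles on complex tori
-/

set_option autoImplicit false

namespace Q47.FJ

open Pool.Agent.W594.SYZ2 Pool.Agent.W594.SYZ2.TQ Pool.Agent.Y167 Pool.Agent.TH735.AQ

variable {V : Type*} [NormedAddCommGroup V] [NormedSpace ℂ V] {Λ : AddSubgroup V}
  {H : V → V → ℂ} {χ : Λ → ℂ} {F : V → ℂ} {M N : LB (torus Λ)}

/-- Sections and theta functions. -/
theorem sec_th (hn : ∀ (b : Λ) (z : V),
      ev M b z = χ b * Complex.exp (lex H b z) * Complex.exp (F (z + b) - F z))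
    (hF : Differentiable ℂ F) {f : Unit → V → ℂ} (hf : IsSec M f) :
    IsTh Λ H χ fun z => f () z * Complex.exp (-F z) := by
  refine ⟨(differentiableOn_univ.1 (hf.holo ())).mul hF.neg.cexp, fun b z => ?_⟩
  have h1 : f () (z + b) = ev M b z * f () z := hf.eq b z (Set.mem_univ _)
  rw [h1, hn]
  have h2 : Complex.exp (F (z + b) - F z) * Complex.exp (-F (z + b)) = Complex.exp (-F z) := by
    rw [← Complex.exp_add]
    congr 1
    ring
  linear_combination χ b * Complex.exp (lex H b z) * f () z * h2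

/-- Sections up to a character. -/
structure TwSec (M : LB (torus Λ)) (ρ : Λ → ℂ) (f : V → ℂ) : Prop where
  holo : Differentiable ℂ f
  eq : ∀ (b : Λ) (z : V), f (z + b) = ev M b z * ρ b * f z

theorem TwSec.mul {ρ σ : Λ → ℂ} {f g : V → ℂ} (hf : TwSec M ρ f) (hg : TwSec N σ g) :
    TwSec (M * N) (fun b => ρ b * σ b) fun z => f z * g z where
  holo := hf.holo.mul hg.holo
  eq b z := by
    rw [hf.eq, hg.eq, ev_mul]
    ring

theorem TwSec.sec {ρ : Λ → ℂ} {f : V → ℂ} (hf : TwSec M ρ f) (hρ : ∀ b, ρ b = 1) :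
    IsSec M fun _ => f where
  holo _ := hf.holo.differentiableOn
  eq b z _ := by
    have h1 := hf.eq b z
    rw [hρ b, mul_one] at h1
    exact h1

/-- The translates of a theta function. -/
theorem IsTh.tw (hn : ∀ (b : Λ) (z : V),
      ev M b z = χ b * Complex.exp (lex H b z) * Complex.exp (F (z + b) - F z))
    (hF : Differentiable ℂ F) (hH : IsHermitian H) {s : V → ℂ} (hs : IsTh Λ H χ s) (a : V) :
    TwSec M (fun b => Complex.exp (Real.pi * H a b)) fun z => s (z + a) * Complex.exp (F z) where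
  holo := (hs.holo.comp (differentiable_id.add_const a)).mul hF.cexp
  eq b z := by
    rw [add_right_comm, hs.eq, hn]
    have h2 : Complex.exp (lex H b (z + a)) * Complex.exp (F (z + b)) =
        Complex.exp (lex H b z) * Complex.exp (F (z + b) - F z) * Complex.exp (Real.pi * H a b) *
          Complex.exp (F z) := by
      simp only [← Complex.exp_add]
      congr 1
      simp only [lex, hH.add_left]
      ring
    linear_combination χ b * s (z + a) * h2

variable [FiniteDimensional ℂ V]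

/-- The Chern form of a very ample line bundle is positive. -/
theorem pos_of_va (hs : Submodule.span ℝ (Λ : Set V) = ⊤) (hM : IsChern M H) (hva : VA M) :
    IsPositiveForm H := by
  have : ProperSpace V := FiniteDimensional.proper ℂ V
  intro w hw
  by_contra hneg
  push Not at hneg
  obtain ⟨χ, F, hχ, hF, hn⟩ := normal hM
  have hH := hM.1
  have h1 : ∃ f, IsSec M f ∧ f () 0 = 0 ∧ fderiv ℂ (f ()) 0 w ≠ 0 := by
    by_contra hcon
    push Not at hcon
    exact hw (hva.tan () 0 (Set.mem_univ _) w hcon)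
  obtain ⟨f, hf, hf0, hfw⟩ := h1
  set t : V → ℂ := fun z => f () z * Complex.exp (-F z) with ht
  have hth : IsTh Λ H χ t := sec_th hn hF hf
  -- the norm is periodic
  let φ : V → ℝ := fun v => ‖t v‖ ^ 2 * Real.exp (-(Real.pi * (H v v).re))
  have hper : ∀ b ∈ Λ, ∀ v, φ (b + v) = φ v := by
    intro b hb v
    simp only [φ]
    rw [add_comm b v, hth.eq ⟨b, hb⟩ v, norm_mul, norm_mul, hχ.norm, one_mul, mul_pow,
      Complex.norm_exp, ← Real.exp_nat_mul, mul_right_comm, ← Real.exp_add, mul_comm (Real.exp _)]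
    congr 2
    rw [h_diag_add hH, lex]
    have h2 : (Real.pi / 2 * H b b : ℂ) = ((Real.pi / 2 : ℝ) : ℂ) * H b b := by
      push_cast
      ring
    simp only [Complex.add_re, h2, Complex.re_ofReal_mul]
    push_cast
    ring
  have hcont : Continuous φ := by
    have h2 : Continuous fun v => (H v v).re := diag_continuous hH
    exact (hth.holo.continuous.norm.pow 2).mul
      (Real.continuous_exp.comp (continuous_const.mul h2).neg)
  obtain ⟨R, hR⟩ := cobounded Λ hs
  obtain ⟨C, hC⟩ : ∃ C, ∀ v ∈ Metric.closedBall (0 : V) R, ‖φ v‖ ≤ C :=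
    (isCompact_closedBall _ _).exists_bound_of_continuousOn hcont.continuousOn
  have hC' : ∀ v, φ v ≤ C := fun v => by
    obtain ⟨b, hb, hbR⟩ := hR v
    rw [← hper b hb v]
    exact (le_abs_self _).trans (hC _ (by rwa [mem_closedBall_zero_iff]))
  -- a bounded entire function
  have hline : Differentiable ℂ fun τ : ℂ => τ • w := differentiable_id.smul_const w
  have hbd : ∀ τ : ℂ, ‖t (τ • w)‖ ^ 2 ≤ C := fun τ => by
    have h2 := hC' (τ • w)
    simp only [φ] at h2
    refine le_trans (le_mul_of_one_le_right (by positivity) (Real.one_le_exp ?_)) h2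
    rw [h_diag_smul hH]
    have := mul_nonneg Real.pi_pos.le (mul_nonneg (sq_nonneg ‖τ‖) (neg_nonneg.2 hneg))
    linarith
  have hconst : ∀ τ : ℂ, t (τ • w) = t ((0 : ℂ) • w) := fun τ => by
    refine (hth.holo.comp hline).apply_eq_apply_of_bounded ?_ τ 0
    refine (Metric.isBounded_closedBall (x := (0 : ℂ)) (r := C + 1)).subset ?_
    rintro _ ⟨z, rfl⟩
    rw [mem_closedBall_zero_iff]
    have h2 := hbd z
    have h3 : ‖t (z • w)‖ ≤ ‖t (z • w)‖ ^ 2 + 1 := by nlinarith [sq_nonneg (‖t (z • w)‖ - 1)]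
    exact h3.trans (by linarith)
  have hd1 : HasDerivAt (fun τ : ℂ => t (τ • w)) 0 0 := by
    simp only [hconst]
    exact hasDerivAt_const _ _
  have hd2 : HasDerivAt (fun τ : ℂ => t (τ • w)) (fderiv ℂ t 0 w) 0 := by
    have h2 : HasDerivAt (fun τ : ℂ => τ • w) w 0 := by
      have h3 := (hasDerivAt_id (0 : ℂ)).smul_const w
      rwa [one_smul] at h3
    have h4 : HasFDerivAt t (fderiv ℂ t 0) ((0 : ℂ) • w) := by
      rw [zero_smul]
      exact (hth.holo 0).hasFDerivAt
    exact h4.comp_hasDerivAt (0 : ℂ) h2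
  have h2 := hd2.unique hd1
  have h3 : fderiv ℂ t 0 w = fderiv ℂ (f ()) 0 w * Complex.exp (-F 0) := by
    have h4 : fderiv ℂ t 0 = f () 0 • fderiv ℂ (fun z => Complex.exp (-F z)) 0
        + Complex.exp (-F 0) • fderiv ℂ (f ()) 0 :=
      fderiv_fun_mul ((differentiableOn_univ.1 (hf.holo ())) 0) (hF.neg.cexp 0)
    rw [h4, add_apply, smul_apply, smul_apply, hf0, smul_eq_mul, smul_eq_mul, zero_mul, zero_add,
      mul_comm]
  rw [h3] at h2
  exact (mul_ne_zero hfw (Complex.exp_ne_zero _)) h2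

/-- The Chern form of an ample line bundle is positive. -/
theorem pos_of_ample (hs : Submodule.span ℝ (Λ : Set V) = ⊤) (hM : IsChern M H)
    (ha : IsAmple M) : IsPositiveForm H := by
  obtain ⟨N, hN, hva⟩ := ha
  intro v hv
  have h1 := pos_of_va hs (hM.pow N) hva v hv
  rw [show (N : ℂ) = ((N : ℝ) : ℂ) by push_cast; rfl, Complex.re_ofReal_mul] at h1
  exact (mul_pos_iff_of_pos_left (by exact_mod_cast hN)).1 h1

/-- The data of a positive line bundle. -/
structure PosData (M : LB (torus Λ)) (H : V → V → ℂ) (χ : Λ → ℂ) (F : V → ℂ) : Prop where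
  herm : IsHermitian H
  pos : IsPositiveForm H
  semi : Semi Λ H χ
  holo : Differentiable ℂ F
  eq : ∀ (b : Λ) (z : V),
    ev M b z = χ b * Complex.exp (lex H b z) * Complex.exp (F (z + b) - F z)

theorem exists_posData (hs : Submodule.span ℝ (Λ : Set V) = ⊤) {M : LB (torus Λ)}
    (hM : M ∈ cpic Λ) (ha : IsAmple M) : ∃ H χ F, PosData M H χ F := by
  obtain ⟨H, hH⟩ := hM
  obtain ⟨χ, F, hχ, hF, hn⟩ := normal hH
  exact ⟨H, χ, F, hH.1, pos_of_ample hs hH ha, hχ, hF, hn⟩

/-- The endomorphism which belongs to two forms. -/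
theorem exists_end {H H₁ : V → V → ℂ} (hH : IsHermitian H) (hp : IsPositiveForm H)
    (hH₁ : IsHermitian H₁) : ∃ φ : V →ₗ[ℂ] V, ∀ a w, H (φ a) w = H₁ a w := by
  have : FiniteDimensional ℝ V := FiniteDimensional.complexToReal V
  have hB : ∀ {D : V → V → ℂ}, IsHermitian D → ∃ B : V →ₗ[ℝ] Module.Dual ℝ V,
      ∀ v w, B v w = (D v w).re := by
    intro D hD
    refine ⟨LinearMap.mk₂ ℝ (fun x y => (D x y).re)
      (fun x x' y => by rw [hD.add_left, Complex.add_re])
      (fun c x y => by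
        have : c • x = (c : ℂ) • x := (Complex.coe_smul c x).symm
        rw [this, hD.smul_left, Complex.re_ofReal_mul, smul_eq_mul])
      (fun x y y' => by rw [h_add_right hD, Complex.add_re])
      (fun c x y => by
        have : c • y = (c : ℂ) • y := (Complex.coe_smul c y).symm
        rw [this, h_smul_right hD, Complex.conj_ofReal, Complex.re_ofReal_mul, smul_eq_mul]),
      fun v w => rfl⟩
  obtain ⟨B, hBe⟩ := hB hH
  obtain ⟨B₁, hB₁e⟩ := hB hH₁
  have hinj : Function.Injective B := by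
    rw [injective_iff_map_eq_zero]
    intro v hv
    by_contra hne
    have h1 := hBe v v
    rw [hv] at h1
    exact (hp v hne).ne h1
  have hsurj : Function.Surjective B := by
    refine (LinearMap.injective_iff_surjective_of_finrank_eq_finrank ?_).1 hinj
    exact (Subspace.dual_finrank_eq).symm
  choose φ hφ using fun a => hsurj (B₁ a)
  have hre : ∀ a w, (H (φ a) w).re = (H₁ a w).re := fun a w => by
    rw [← hBe, hφ, hB₁e]
  have hcplx : ∀ a w, H (φ a) w = H₁ a w := fun a w => by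
    apply Complex.ext
    · exact hre a w
    · have h1 := hre a (Complex.I • w)
      rw [h_smul_right hH, h_smul_right hH₁, Complex.conj_I] at h1
      simpa using h1
  have huniq : ∀ x y, (∀ w, H x w = H y w) → x = y := fun x y h => by
    by_contra hne
    have h1 := hp (x - y) (sub_ne_zero.2 hne)
    rw [h_sub_left hH, h, sub_self, Complex.zero_re] at h1
    exact lt_irrefl _ h1
  exact ⟨{ toFun := φ
           map_add' := fun a b => huniq _ _ fun w => by
             rw [hcplx, hH₁.add_left, hH.add_left, hcplx, hcplx]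
           map_smul' := fun c a => huniq _ _ fun w => by
             rw [hcplx, hH₁.smul_left, RingHom.id_apply, hH.smul_left, hcplx] }, hcplx⟩

omit [FiniteDimensional ℂ V] in
theorem end_inj {H H₁ : V → V → ℂ} (hH : IsHermitian H)
    (hp₁ : IsPositiveForm H₁) {φ : V →ₗ[ℂ] V} (hφ : ∀ a w, H (φ a) w = H₁ a w) :
    Function.Injective φ := by
  rw [injective_iff_map_eq_zero]
  intro a ha
  by_contra hne
  have h1 := hp₁ a hne
  rw [← hφ, ha, h_zero_left hH, Complex.zero_re] at h1
  exact lt_irrefl _ h1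

theorem end_surj {H H₁ : V → V → ℂ} (hH : IsHermitian H)
    (hp₁ : IsPositiveForm H₁) {φ : V →ₗ[ℂ] V} (hφ : ∀ a w, H (φ a) w = H₁ a w) :
    Function.Surjective φ :=
  LinearMap.surjective_of_injective (end_inj hH hp₁ hφ)

/-- The product of two positive line bundles is globally generated. -/
theorem gg_two (hd : DiscreteTopology Λ) (hs : Submodule.span ℝ (Λ : Set V) = ⊤)
    {M₁ M₂ : LB (torus Λ)} {H₁ H₂ : V → V → ℂ} {χ₁ χ₂ : Λ → ℂ} {F₁ F₂ : V → ℂ}
    (D₁ : PosData M₁ H₁ χ₁ F₁) (D₂ : PosData M₂ H₂ χ₂ F₂) : GG (M₁ * M₂) := by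
  intro _ z _
  obtain ⟨s₁, hs₁, hn₁⟩ := exists_th hd hs D₁.herm D₁.pos D₁.semi
  obtain ⟨s₂, hs₂, hn₂⟩ := exists_th hd hs D₂.herm D₂.pos D₂.semi
  obtain ⟨φ, hφ⟩ := exists_end D₂.herm D₂.pos D₁.herm
  have hφs := end_surj D₂.herm D₁.pos hφ
  have hφc : Differentiable ℂ fun x => φ x := (LinearMap.toContinuousLinearMap φ).differentiable
  have h1 : NZ fun a => s₁ (z + a) := hn₁.comp (differentiable_id.const_add z) fun y =>
    ⟨y - z, add_sub_cancel z y⟩
  have h2 : NZ fun a => s₂ (z - φ a) := hn₂.comp (hφc.const_sub z) fun y => by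
    obtain ⟨a, ha⟩ := hφs (z - y)
    exact ⟨a, by rw [ha, sub_sub_cancel]⟩
  obtain ⟨a, ha⟩ := (h1.mul h2).ne
  have h3 := (hs₁.tw D₁.eq D₁.holo D₁.herm a).mul (hs₂.tw D₂.eq D₂.holo D₂.herm (-φ a))
  refine ⟨_, h3.sec fun b => ?_, ?_⟩
  · rw [← Complex.exp_add, h_neg_left D₂.herm, hφ, mul_neg, add_neg_cancel, Complex.exp_zero]
  · rw [← sub_eq_add_neg]
    have h4 := Complex.exp_ne_zero (F₁ z)
    have h5 := Complex.exp_ne_zero (F₂ z)
    exact mul_ne_zero (mul_ne_zero (left_ne_zero_of_mul ha) h4)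
      (mul_ne_zero (right_ne_zero_of_mul ha) h5)

end Q47.FJ
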