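import Pool.Agent.Q47.FJ.T5

/-!
# Functional equations
-/

set_option autoImplicit false

namespace Q47.FJ

open Filter Topology

variable {V : Type*} [NormedAddCommGroup V] [NormedSpace ℂ V] [FiniteDimensional ℂ V]

omit [FiniteDimensional ℂ V] in
theorem hasDerivAt_line (x h : V) : HasDerivAt (fun τ : ℂ => x + τ • h) h 0 := by
  have h1 := ((hasDerivAt_id (0 : ℂ)).smul_const h).const_add x
  rwa [one_smul] at h1

omit [FiniteDimensional ℂ V] in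
theorem hasDerivAt_along {f : V → ℂ} {x : V} (hf : DifferentiableAt ℂ f x) (h : V) :
    HasDerivAt (fun τ : ℂ => f (x + τ • h)) (fderiv ℂ f x h) 0 := by
  have h4 : HasFDerivAt f (fderiv ℂ f x) (x + (0 : ℂ) • h) := by
    rw [zero_smul, add_zero]
    exact hf.hasFDerivAt
  exact h4.comp_hasDerivAt (0 : ℂ) (hasDerivAt_line x h)

omit [FiniteDimensional ℂ V] in
/-- Functions with the same logarithmic derivative are proportional. -/
theorem quot_const {A B : V → ℂ} (hA : Differentiable ℂ A) (hB : Differentiable ℂ B) {x₀ : V}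
    (h : ∀ᶠ x in 𝓝 x₀, B x ≠ 0 ∧ ∀ h, fderiv ℂ A x h * B x = A x * fderiv ℂ B x h) :
    ∀ x, A x = A x₀ / B x₀ * B x := by
  obtain ⟨r, hr, hball⟩ := Metric.eventually_nhds_iff_ball.1 h
  have hd : ∀ x ∈ Metric.ball x₀ r, DifferentiableAt ℂ (fun x => A x / B x) x := fun x hx => by
    simp only [div_eq_mul_inv]
    exact (hA x).fun_mul ((hB x).inv (hball x hx).1)
  have hc : ∀ x ∈ Metric.ball x₀ r, A x / B x = A x₀ / B x₀ := fun x hx => by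
    refine Metric.isOpen_ball.is_const_of_fderiv_eq_zero (𝕜 := ℂ) (f := fun x => A x / B x)
      (convex_ball x₀ r).isPreconnected
      (fun x hx => (hd x hx).differentiableWithinAt) (fun y hy => ?_) hx
      (Metric.mem_ball_self hr)
    ext h
    have e1 := hasDerivAt_along (hd y hy) h
    have e2 := (hasDerivAt_along (hA y) h).fun_div (hasDerivAt_along (hB y) h) (by
      rw [zero_smul, add_zero]
      exact (hball y hy).1)
    simp only [zero_smul, add_zero] at e2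
    rw [(hball y hy).2 h, sub_self, zero_div] at e2
    exact e1.unique e2
  refine entire_eq hA (hB.const_mul _) (x := x₀) ?_
  filter_upwards [Metric.ball_mem_nhds x₀ hr] with x hx
  rw [← hc x hx, div_mul_cancel₀ _ (hball x hx).1]

/-- The direction in which the third argument is fixed. -/
theorem exists_dir {φ₁ φ₂ : V →ₗ[ℂ] V} (h₂ : Function.Bijective φ₂) :
    ∃ ψ : V →L[ℂ] V, ∀ h, φ₂ (ψ h) = φ₁ h := by
  set e := LinearEquiv.ofBijective φ₂ h₂ with he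
  refine ⟨LinearMap.toContinuousLinearMap (e.symm.toLinearMap ∘ₗ φ₁), fun h => ?_⟩
  exact e.apply_symm_apply (φ₁ h)

/-- Translations: if the products of the translates are proportional then the factors are, up to
an exponential function. -/
theorem sep_key {s₁ s₂ s₃ : V → ℂ} (n₁ : NZ s₁) (n₂ : NZ s₂) (n₃ : NZ s₃)
    {φ₁ φ₂ : V →ₗ[ℂ] V} (h₂ : Function.Bijective φ₂) {v₀ v₁ : V} {μ : ℂ}
    (hE : ∀ a₁ a₂, s₁ (v₁ + a₁) * s₂ (v₁ + a₂) * s₃ (v₁ - φ₁ a₁ - φ₂ a₂) =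
      μ * (s₁ (v₀ + a₁) * s₂ (v₀ + a₂) * s₃ (v₀ - φ₁ a₁ - φ₂ a₂))) :
    ∃ (C : ℂ) (ℓ : V →L[ℂ] ℂ), C ≠ 0 ∧
      ∀ x, s₁ (x + (v₁ - v₀)) = C * Complex.exp (ℓ x) * s₁ x := by
  have hφ₁ : Differentiable ℂ fun x => φ₁ x := (LinearMap.toContinuousLinearMap φ₁).differentiable
  have hφ₂ : Differentiable ℂ fun x => φ₂ x := (LinearMap.toContinuousLinearMap φ₂).differentiable
  have hsh : ∀ v : V, Function.Surjective fun x : V => v + x := fun v y =>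
    ⟨y - v, add_sub_cancel v y⟩
  have hP : ∀ (s : V → ℂ), NZ s → ∀ v : V, NZ fun x => s (v + x) := fun s hs v =>
    hs.comp (differentiable_id.const_add v) (hsh v)
  obtain ⟨ψ, hψ⟩ := exists_dir (φ₁ := φ₁) h₂
  obtain ⟨x₀, hx₀⟩ := ((hP s₁ n₁ v₀).mul (hP s₁ n₁ v₁)).ne
  have hR : ∀ v : V, NZ fun y => s₃ (v - φ₁ x₀ - φ₂ y) := fun v =>
    n₃.comp (hφ₂.const_sub _) fun y => by
      obtain ⟨a, ha⟩ := h₂.2 (v - φ₁ x₀ - y)
      exact ⟨a, by rw [ha]; abel⟩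
  obtain ⟨y₀, hy₀⟩ := (((hP s₂ n₂ v₀).mul (hP s₂ n₂ v₁)).mul ((hR v₀).mul (hR v₁))).ne
  have hx₀0 := left_ne_zero_of_mul hx₀
  have hx₀1 := right_ne_zero_of_mul hx₀
  have hy₀0 := left_ne_zero_of_mul (left_ne_zero_of_mul hy₀)
  have hy₀1 := right_ne_zero_of_mul (left_ne_zero_of_mul hy₀)
  have hz₀0 := left_ne_zero_of_mul (right_ne_zero_of_mul hy₀)
  have hz₀1 := right_ne_zero_of_mul (right_ne_zero_of_mul hy₀)
  set P : V → ℂ := fun x => s₁ (v₀ + x) with hPd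
  set P' : V → ℂ := fun x => s₁ (v₁ + x) with hP'd
  set Q : V → ℂ := fun x => s₂ (v₀ + x) with hQd
  set Q' : V → ℂ := fun x => s₂ (v₁ + x) with hQ'd
  have hPh : Differentiable ℂ P := (hP s₁ n₁ v₀).holo
  have hP'h : Differentiable ℂ P' := (hP s₁ n₁ v₁).holo
  have hQh : Differentiable ℂ Q := (hP s₂ n₂ v₀).holo
  have hQ'h : Differentiable ℂ Q' := (hP s₂ n₂ v₁).holo
  set R : V → ℂ := fun x => s₃ (v₀ - φ₁ x - φ₂ y₀) with hRd
  set R' : V → ℂ := fun x => s₃ (v₁ - φ₁ x - φ₂ y₀) with hR'd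
  have hRh : Differentiable ℂ R := n₃.holo.comp ((hφ₁.const_sub _).sub_const _)
  have hR'h : Differentiable ℂ R' := n₃.holo.comp ((hφ₁.const_sub _).sub_const _)
  set ℓ : V →L[ℂ] ℂ := ((Q' y₀)⁻¹ • fderiv ℂ Q' y₀ - (Q y₀)⁻¹ • fderiv ℂ Q y₀).comp ψ with hℓ
  -- a ball on which nothing vanishes
  have hcont : Continuous fun x => P x * P' x * (R x * R' x) :=
    (hPh.continuous.mul hP'h.continuous).mul (hRh.continuous.mul hR'h.continuous)
  have hev : ∀ᶠ x in 𝓝 x₀, P x * P' x * (R x * R' x) ≠ 0 :=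
    hcont.continuousAt.eventually_ne
      (mul_ne_zero (mul_ne_zero hx₀0 hx₀1) (mul_ne_zero hz₀0 hz₀1))
  have hfix : ∀ x h : V, ∀ τ : ℂ, ∀ v : V, v - φ₁ (x + τ • h) - φ₂ (y₀ + τ • (-ψ h))
      = v - φ₁ x - φ₂ y₀ := fun x h τ v => by
    rw [map_add, map_add, map_smul, map_smul, map_neg, hψ, smul_neg]
    abel
  have hder : ∀ x h : V,
      (fderiv ℂ P' x h * Q' y₀ + P' x * fderiv ℂ Q' y₀ (-ψ h)) * R' x =
        μ * ((fderiv ℂ P x h * Q y₀ + P x * fderiv ℂ Q y₀ (-ψ h)) * R x) := by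
    intro x h
    have e1 := ((hasDerivAt_along (hP'h x) h).fun_mul
      (hasDerivAt_along (hQ'h y₀) (-ψ h))).mul_const (R' x)
    have e2 := (((hasDerivAt_along (hPh x) h).fun_mul
      (hasDerivAt_along (hQh y₀) (-ψ h))).mul_const (R x)).const_mul μ
    simp only [zero_smul, add_zero] at e1 e2
    refine e1.unique (e2.congr_of_eventuallyEq (Eventually.of_forall fun τ => ?_))
    have e3 := hE (x + τ • h) (y₀ + τ • (-ψ h))
    rw [hfix, hfix] at e3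
    exact e3
  have hlog : ∀ x, P x * P' x * (R x * R' x) ≠ 0 → ∀ h,
      fderiv ℂ P' x h * P x - P' x * fderiv ℂ P x h = ℓ h * (P x * P' x) := by
    intro x e0 h
    have e4 := right_ne_zero_of_mul (right_ne_zero_of_mul e0)
    have e5 : P' x * Q' y₀ * R' x = μ * (P x * Q y₀ * R x) := hE x y₀
    have e6 := hder x h
    rw [map_neg, map_neg] at e6
    have e7 : ℓ h = (Q' y₀)⁻¹ * fderiv ℂ Q' y₀ (ψ h) - (Q y₀)⁻¹ * fderiv ℂ Q y₀ (ψ h) := rfl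
    have e8 : Q y₀ ≠ 0 := hy₀0
    have e9 : Q' y₀ ≠ 0 := hy₀1
    rw [e7]
    field_simp
    refine mul_right_cancel₀ e4 ?_
    linear_combination (Q y₀ * P x) * e6 + (P x * fderiv ℂ Q y₀ (ψ h) - Q y₀ * fderiv ℂ P x h) * e5
  have hBh : Differentiable ℂ fun x => P x * Complex.exp (ℓ x) := hPh.mul ℓ.differentiable.cexp
  have hfin := quot_const (A := P') (B := fun x => P x * Complex.exp (ℓ x)) hP'h hBh (x₀ := x₀) (by
    filter_upwards [hev] with x hx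
    refine ⟨mul_ne_zero (left_ne_zero_of_mul (left_ne_zero_of_mul hx)) (Complex.exp_ne_zero _),
      fun h => ?_⟩
    have e1 : fderiv ℂ (fun x => P x * Complex.exp (ℓ x)) x h
        = P x * (Complex.exp (ℓ x) * ℓ h) + Complex.exp (ℓ x) * fderiv ℂ P x h := by
      have e2 := ((hPh x).hasFDerivAt.mul (ℓ.hasFDerivAt (x := x)).cexp).fderiv
      have e3 : (fun x => P x * Complex.exp (ℓ x)) = P * fun x => Complex.exp (ℓ x) := rfl
      rw [e3, e2]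
      rfl
    rw [e1]
    linear_combination Complex.exp (ℓ x) * hlog x hx h)
  refine ⟨P' x₀ / (P x₀ * Complex.exp (ℓ x₀)) * Complex.exp (-ℓ v₀), ℓ,
    mul_ne_zero (div_ne_zero hx₀1 (mul_ne_zero hx₀0 (Complex.exp_ne_zero _)))
      (Complex.exp_ne_zero _), fun x => ?_⟩
  have e1 := hfin (x - v₀)
  have e2 : P' (x - v₀) = s₁ (x + (v₁ - v₀)) := by
    rw [hP'd]
    simp only
    congr 1
    abel
  have e3 : P (x - v₀) = s₁ x := by
    rw [hPd]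
    simp only
    congr 1
    abel
  rw [e2, e3, map_sub, sub_eq_add_neg (ℓ x), Complex.exp_add] at e1
  rw [e1]
  ring

/-- Tangent vectors. -/
theorem tan_key {S₁ S₂ S₃ T₁ T₂ T₃ : V → ℂ} (n₁ : NZ S₁) (n₂ : NZ S₂) (n₃ : NZ S₃)
    (t₁ : Differentiable ℂ T₁) (t₂ : Differentiable ℂ T₂)
    {φ₁ φ₂ : V →ₗ[ℂ] V} (h₂ : Function.Bijective φ₂) {κ : ℂ}
    (hE : ∀ a₁ a₂, T₁ a₁ * S₂ a₂ * S₃ (-φ₁ a₁ - φ₂ a₂) + S₁ a₁ * T₂ a₂ * S₃ (-φ₁ a₁ - φ₂ a₂)
      + S₁ a₁ * S₂ a₂ * T₃ (-φ₁ a₁ - φ₂ a₂) = κ * (S₁ a₁ * S₂ a₂ * S₃ (-φ₁ a₁ - φ₂ a₂))) :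
    ∃ (ℓ : V →L[ℂ] ℂ) (c : ℂ), ∀ x, T₁ x = (ℓ x + c) * S₁ x := by
  have hφ₁ : Differentiable ℂ fun x => φ₁ x := (LinearMap.toContinuousLinearMap φ₁).differentiable
  have hφ₂ : Differentiable ℂ fun x => φ₂ x := (LinearMap.toContinuousLinearMap φ₂).differentiable
  obtain ⟨ψ, hψ⟩ := exists_dir (φ₁ := φ₁) h₂
  obtain ⟨x₀, hx₀⟩ := n₁.ne
  have hR : NZ fun y => S₃ (-φ₁ x₀ - φ₂ y) := n₃.comp (hφ₂.const_sub _) fun y => by
    obtain ⟨a, ha⟩ := h₂.2 (-φ₁ x₀ - y)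
    exact ⟨a, by rw [ha]; abel⟩
  obtain ⟨y₀, hy₀⟩ := (n₂.mul hR).ne
  have hy₀0 : S₂ y₀ ≠ 0 := left_ne_zero_of_mul hy₀
  have hz₀0 : S₃ (-φ₁ x₀ - φ₂ y₀) ≠ 0 := right_ne_zero_of_mul hy₀
  set ℓ : V →L[ℂ] ℂ := ((S₂ y₀)⁻¹ • fderiv ℂ T₂ y₀ - (T₂ y₀ * (S₂ y₀)⁻¹ ^ 2) • fderiv ℂ S₂ y₀).comp ψ
    with hℓ
  have hRh : Differentiable ℂ fun x => S₃ (-φ₁ x - φ₂ y₀) :=
    n₃.holo.comp (hφ₁.neg.sub_const _)
  have hcont : Continuous fun x => S₁ x * S₃ (-φ₁ x - φ₂ y₀) :=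
    n₁.holo.continuous.mul hRh.continuous
  have hev : ∀ᶠ x in 𝓝 x₀, S₁ x * S₃ (-φ₁ x - φ₂ y₀) ≠ 0 :=
    hcont.continuousAt.eventually_ne (mul_ne_zero hx₀ hz₀0)
  have hfix : ∀ x h : V, ∀ τ : ℂ, -φ₁ (x + τ • h) - φ₂ (y₀ + τ • (-ψ h))
      = -φ₁ x - φ₂ y₀ := fun x h τ => by
    rw [map_add, map_add, map_smul, map_smul, map_neg, hψ, smul_neg]
    abel
  have hlog : ∀ x, S₁ x * S₃ (-φ₁ x - φ₂ y₀) ≠ 0 → ∀ h,
      fderiv ℂ T₁ x h * S₁ x - T₁ x * fderiv ℂ S₁ x h = ℓ h * S₁ x ^ 2 := by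
    intro x e0 h
    have e4 := right_ne_zero_of_mul e0
    have d1 := hasDerivAt_along (t₁ x) h
    have d2 := hasDerivAt_along (t₂ y₀) (-ψ h)
    have d3 := hasDerivAt_along (n₁.holo x) h
    have d4 := hasDerivAt_along (n₂.holo y₀) (-ψ h)
    have e5 := hE x y₀
    set Z := S₃ (-φ₁ x - φ₂ y₀) with hZ
    set Z' := T₃ (-φ₁ x - φ₂ y₀) with hZ'
    have f1 := (((d1.fun_mul d4).mul_const Z).fun_add ((d3.fun_mul d2).mul_const Z)).fun_add
      ((d3.fun_mul d4).mul_const Z')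
    have f2 := ((d3.fun_mul d4).mul_const Z).const_mul κ
    simp only [zero_smul, add_zero] at f1 f2
    have e6 := f1.unique (f2.congr_of_eventuallyEq (Eventually.of_forall fun τ => by
      have e3 := hE (x + τ • h) (y₀ + τ • (-ψ h))
      rw [hfix] at e3
      exact e3))
    rw [map_neg, map_neg] at e6
    have e7 : ℓ h = (S₂ y₀)⁻¹ * fderiv ℂ T₂ y₀ (ψ h)
        - (T₂ y₀ * (S₂ y₀)⁻¹ ^ 2) * fderiv ℂ S₂ y₀ (ψ h) := rfl
    rw [e7]
    field_simp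
    refine mul_right_cancel₀ e4 ?_
    linear_combination (S₁ x * S₂ y₀) * e6 -
      (fderiv ℂ S₁ x h * S₂ y₀ - S₁ x * fderiv ℂ S₂ y₀ (ψ h)) * e5
  have hAh : Differentiable ℂ fun x => T₁ x - ℓ x * S₁ x := t₁.sub (ℓ.differentiable.mul n₁.holo)
  have hfin := quot_const (A := fun x => T₁ x - ℓ x * S₁ x) (B := S₁) hAh n₁.holo (x₀ := x₀) (by
    filter_upwards [hev] with x hx
    refine ⟨left_ne_zero_of_mul hx, fun h => ?_⟩
    have e1 : fderiv ℂ (fun x => T₁ x - ℓ x * S₁ x) x h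
        = fderiv ℂ T₁ x h - (ℓ x * fderiv ℂ S₁ x h + S₁ x * ℓ h) := by
      have e2 := ((t₁ x).hasFDerivAt.sub
        ((ℓ.hasFDerivAt (x := x)).mul (n₁.holo x).hasFDerivAt)).fderiv
      have e3 : (fun x => T₁ x - ℓ x * S₁ x) = T₁ - (fun x => ℓ x) * S₁ := rfl
      rw [e3, e2]
      rfl
    rw [e1]
    linear_combination hlog x hx h)
  refine ⟨ℓ, (T₁ x₀ - ℓ x₀ * S₁ x₀) / S₁ x₀, fun x => ?_⟩
  have e1 := hfin x
  linear_combination e1

end Q47.FJ
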