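import Pool.Agent.Q47.FJ.Sec
import Pool.Agent.Q47.FJ.Fan
import Pool.Agent.Q47.TB.Coef

/-!
# The line bundles on the base which belong to the cones
-/

set_option autoImplicit false

namespace Q47.FJ

open MvPolynomial Q47.TB

section Deriv

variable {ι : Type*} [Fintype ι]

/-- The derivative of a polynomial along a line. -/
theorem hasDerivAt_eval (p : MvPolynomial ι ℂ) (x ξ : ι → ℂ) :
    HasDerivAt (fun τ : ℂ => eval (x + τ • ξ) p) (∑ l, ξ l * eval x (pderiv l p)) 0 := by
  classical
  induction p using MvPolynomial.induction_on with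
  | C a =>
    simp only [eval_C, pderiv_C, map_zero, mul_zero, Finset.sum_const_zero]
    exact hasDerivAt_const _ _
  | add p q hp hq =>
    simp only [map_add, mul_add, Finset.sum_add_distrib]
    exact hp.fun_add hq
  | mul_X p j hp =>
    have h1 : HasDerivAt (fun τ : ℂ => (x + τ • ξ) j) (ξ j) 0 := by
      have h2 : HasDerivAt (fun τ : ℂ => x j + τ * ξ j) (1 * ξ j) 0 :=
        ((hasDerivAt_id (0 : ℂ)).mul_const (ξ j)).const_add (x j)
      rw [one_mul] at h2
      exact h2
    have h3 := hp.fun_mul h1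
    simp only [map_mul, eval_X]
    refine h3.congr_deriv ?_
    simp only [zero_smul, add_zero, Derivation.leibniz, pderiv_X, smul_eq_mul, map_add, map_mul,
      eval_X, mul_add, Finset.sum_add_distrib]
    rw [Finset.sum_mul, add_comm]
    congr 1
    · rw [Finset.sum_eq_single j]
      · rw [Pi.single_eq_same, map_one]
        ring
      · intro b _ hb
        rw [Pi.single_eq_of_ne hb.symm, map_zero, mul_zero, mul_zero]
      · intro h
        exact absurd (Finset.mem_univ j) h
    · exact Finset.sum_congr rfl fun l _ => by ring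

end Deriv

variable {E : Type*} [NormedAddCommGroup E] [NormedSpace ℂ E] {I K : Type*} {X : Atlas E I K}
  {ι : Type*} [Fintype ι] {n : ℕ} {u : ι → Fin n → ℤ} {S : Set (Set ι)} {c : ι → LB X}

/-- The line bundle `M ⊗ ∏ c_i ^ (- β_i)` on the base. -/
noncomputable def vb (M : LB X) (c : ι → LB X) (β : ι → ℕ) : LB X := M * (∏ i, c i ^ β i)⁻¹

theorem ev_vb (M : LB X) (β : ι → ℕ) (k : K) (z : E) :
    ev (vb M c β) k z = ev M k z * (∏ i, ev (c i) k z ^ β i)⁻¹ := by
  simp only [vb, ev_mul, ev_inv, ev_prod, ev_pow]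

theorem vb_pow (M : LB X) (β : ι → ℕ) (N : ℕ) :
    vb M c β ^ N = vb (M ^ N) c (fun i => N * β i) := by
  simp only [vb, mul_pow, inv_pow]
  congr 2
  rw [← Finset.prod_pow]
  exact Finset.prod_congr rfl fun i _ => by rw [← pow_mul, mul_comm]

/-- The exponent. -/
noncomputable def ex (β : ι → ℕ) : ι →₀ ℕ := Finsupp.equivFunOnFinite.symm β

theorem ex_apply (β : ι → ℕ) (i : ι) : ex β i = β i := rfl

theorem eval_mono (x : ι → ℂ) (β : ι → ℕ) (a : ℂ) :
    eval x (monomial (ex β) a) = a * ∏ i, x i ^ β i := by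
  rw [eval_monomial, Finsupp.prod_fintype _ _ fun i => pow_zero _]
  rfl

/-- The sections which are monomials. -/
theorem mono_sec {M : LB X} {d : ι → ℤ} {β : ι → ℕ} {f : I → E → ℂ}
    (hβ : LinEquiv u (fun i => (β i : ℤ)) d) (hf : IsSec (vb M c β) f) :
    IsSecY u c d M fun i z => monomial (ex β) (f i z) where
  holo i α := by
    classical
    simp only [coeff_monomial]
    by_cases h : ex β = α
    · simp only [if_pos h]
      exact hf.holo i
    · simp only [if_neg h]
      exact differentiableOn_const _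
  deg i z _ α hα := by
    classical
    have h1 : α = ex β := by
      have := support_monomial_subset hα
      simpa using this
    rw [h1]
    exact hβ
  eq k z hz x := by
    rw [eval_mono, eval_mono, hf.eq k z hz, ev_vb]
    simp only [mul_pow, Finset.prod_mul_distrib]
    have h1 : ∏ i, ev (c i) k z ^ β i ≠ 0 :=
      Finset.prod_ne_zero_iff.2 fun i _ => pow_ne_zero _ (ev_ne _ _ _)
    field_simp

/-- The coefficients of a section. -/
theorem coeff_sec {M : LB X} {d : ι → ℤ} {F : I → E → MvPolynomial ι ℂ}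
    (hF : IsSecY u c d M F) (α : ι → ℕ) :
    IsSec (vb M c α) fun i z => coeff (ex α) (F i z) where
  holo i := hF.holo i _
  eq k z hz := by
    have h1 := coeff_of_eval (a := 1) (fun x => (mul_one _).trans (hF.eq k z hz x)) (ex α)
    rw [mul_one] at h1
    have h2 : ∏ i, ev (c i) k z ^ α i ≠ 0 :=
      Finset.prod_ne_zero_iff.2 fun i _ => pow_ne_zero _ (ev_ne _ _ _)
    rw [ev_vb, mul_right_comm, ← h1, mul_assoc]
    simp only [ex_apply]
    rw [mul_inv_cancel₀ h2, mul_one]

/-- The point of the cone. -/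
noncomputable def pt (σ : Set ι) (i : ι) : ℂ := by
  classical
  exact if i ∈ σ then 0 else 1

omit [Fintype ι] in
theorem pt_zero {σ : Set ι} {i : ι} (hi : i ∈ σ) : pt σ i = 0 := by
  classical
  exact if_pos hi

omit [Fintype ι] in
theorem pt_one {σ : Set ι} {i : ι} (hi : i ∉ σ) : pt σ i = 1 := by
  classical
  exact if_neg hi

omit [Fintype ι] in
theorem zeros_pt (σ : Set ι) : {i | pt σ i = 0} = σ := by
  ext i
  by_cases hi : i ∈ σ
  · simp [pt_zero hi, hi]
  · simp [pt_one hi, hi]

/-- The value at the point of the cone. -/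
theorem eval_pt {σ : Set ι} {C : Fin n → ι → ℤ} (hC : Dual u σ C) {d : ι → ℤ} {β : ι → ℕ}
    (hβ0 : ∀ i ∈ σ, β i = 0) (hβ : LinEquiv u (fun i => (β i : ℤ)) d) {p : MvPolynomial ι ℂ}
    (hp : ∀ α ∈ p.support, LinEquiv u (fun i => (α i : ℤ)) d) :
    eval (pt σ) p = coeff (ex β) p := by
  classical
  rw [eval_eq', Finset.sum_eq_single (ex β)]
  · have : ∏ i, pt σ i ^ ex β i = 1 := Finset.prod_eq_one fun i _ => by
      by_cases hi : i ∈ σ
      · rw [ex_apply, hβ0 i hi, pow_zero]
      · rw [pt_one hi, one_pow]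
    rw [this, mul_one]
  · intro α hα hne
    have h1 : ∃ i ∈ σ, α i ≠ 0 := by
      by_contra hc
      push Not at hc
      apply hne
      obtain ⟨m, hm⟩ := hp α hα
      obtain ⟨m', hm'⟩ := hβ
      have h2 := hC.linEquiv_unique (α := fun i => (α i : ℤ)) (β := fun i => (β i : ℤ))
        ⟨fun k => m k - m' k, fun i => by
          have e1 := hm i
          have e2 := hm' i
          simp only at e1 e2 ⊢
          rw [e1, e2]
          simp only [sub_mul, Finset.sum_sub_distrib]
          ring⟩ fun i hi => by simp only [hc i hi, hβ0 i hi]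
      ext i
      have := congrFun h2 i
      simp only [ex_apply]
      exact_mod_cast this
    obtain ⟨i, hi, h0⟩ := h1
    have : ∏ i, pt σ i ^ α i = 0 := Finset.prod_eq_zero (Finset.mem_univ i) (by
      rw [pt_zero hi, zero_pow h0])
    rw [this, mul_zero]
  · intro h
    rw [notMem_support_iff.1 h, zero_mul]

end Q47.FJ
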